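import Pool.Agent.Lib.MP_aa40d3_nt.CV.Stmt

/-! Algebraic solutions along a parametrised branch. -/

open Polynomial Matrix
open scoped Polynomial.Bivariate

namespace Pool.Agent.GR.GE

open Pool.Agent.GR.CV

/-- a local inverse of a holomorphic function -/
theorem ti_inv {z₀ : ℂ} {ρ : ℝ} (hρ : 0 < ρ) {ξ ε : ℂ → ℂ}
    (h : ∀ z ∈ Metric.ball z₀ ρ, HasDerivAt ξ (ε z) z ∧ ε z ≠ 0) :
    ∃ (η : ℝ) (ζ : ℂ → ℂ), 0 < η ∧ ∀ x ∈ Metric.ball (ξ z₀) η, ζ x ∈ Metric.ball z₀ ρ ∧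
      ξ (ζ x) = x ∧ HasDerivAt ζ (ε (ζ x))⁻¹ x := by
  have h0 := Metric.mem_ball_self (x := z₀) hρ
  have hb := Metric.ball_mem_nhds z₀ hρ
  have hs : HasStrictDerivAt ξ (ε z₀) z₀ := (h z₀ h0).1.deriv ▸ (DifferentiableOn.analyticAt
    (fun z hz => (h z hz).1.differentiableAt.differentiableWithinAt) hb).hasStrictDerivAt
  have hF := hs.hasStrictFDerivAt_equiv (h z₀ h0).2
  obtain ⟨Φ, e, h1⟩ : ∃ Φ : OpenPartialHomeomorph ℂ ℂ, ⇑Φ = ξ ∧ z₀ ∈ Φ.source :=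
    ⟨hF.toOpenPartialHomeomorph ξ, rfl, hF.mem_toOpenPartialHomeomorph_source⟩
  subst e
  have h2 := Φ.open_target.mem_nhds (Φ.map_source h1)
  have h3 : ∀ᶠ x in nhds (Φ z₀), Φ.symm x ∈ Metric.ball z₀ ρ := (Φ.tendsto_symm h1).eventually hb
  obtain ⟨η, h4, h5⟩ := Metric.eventually_nhds_iff_ball.1 (h3.and h2)
  refine ⟨η, Φ.symm, h4, fun x hx => ⟨(h5 x hx).1, Φ.right_inv (h5 x hx).2, ?_⟩⟩
  exact (h _ (h5 x hx).1).1.of_local_left_inverse (Φ.continuousAt_symm (h5 x hx).2)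
    (h _ (h5 x hx).1).2 (Φ.eventually_right_inverse (h5 x hx).2)

theorem ti_pull {r : ℕ} (S : Sys ℂ r) {z₀ : ℂ} {ρ : ℝ} (hρ : 0 < ρ) {ξ η ε : ℂ → ℂ}
    {Z : ℂ → Matrix (Fin r) (Fin r) ℂ}
    (h : ∀ z ∈ Metric.ball z₀ ρ, HasDerivAt ξ (ε z) z ∧ ε z ≠ 0 ∧ DifferentiableAt ℂ η z ∧
      S.P.evalEval (ξ z) (η z) = 0 ∧ S.D.eval (ξ z) ≠ 0 ∧ (Z z).det ≠ 0 ∧ ∀ a b,
        HasDerivAt (fun t => Z t a b) (((ε z * (S.D.eval (ξ z))⁻¹) •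
          (S.A.map (evalEval (ξ z) (η z)) * Z z)) a b) z)
    (hQ : ∀ a b, ∃ Q : ℂ[X][Y], Q ≠ 0 ∧ ∀ z ∈ Metric.ball z₀ ρ, Q.evalEval (ξ z) (Z z a b) = 0) :
    S.Alg := by
  obtain ⟨δ, ζ, h0, h1⟩ := ti_inv hρ fun z hz => ⟨(h z hz).1, (h z hz).2.1⟩
  refine ⟨ξ z₀, δ, fun x => η (ζ x), fun x => Z (ζ x), h0, fun x hx => ?_, fun a b => ?_⟩
  · obtain ⟨k1, k2, k3⟩ := h1 x hx
    obtain ⟨-, e1, e2, e3, e4, e5, e6⟩ := h _ k1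
    rw [k2] at e3 e4 e6
    refine ⟨e2.comp x k3.differentiableAt, e3, e4, e5, fun a b => ?_⟩
    refine ((e6 a b).comp x k3).congr_deriv ?_
    simp only [Matrix.smul_apply, smul_eq_mul]
    field_simp
  · obtain ⟨Q, k1, k2⟩ := hQ a b
    refine ⟨Q, k1, fun x hx => ?_⟩
    have := k2 _ (h1 x hx).1
    rwa [(h1 x hx).2.1] at this

end Pool.Agent.GR.GE
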