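import Pool.Agent.Lib.MP_aa40d3_nt.GE.TB
import Pool.Agent.Lib.MP_aa40d3_nt.GE.TI
import Pool.Agent.Lib.MP_aa40d3_nt.CV.AlgB

/-! Algebraic solutions in the old coordinate. -/

set_option linter.unusedSectionVars false

open Polynomial Module
open scoped Polynomial.Bivariate IntermediateField

namespace Pool.Agent.GR.GE

open Pool.Agent.Lib.MP_a01f70_lc.QQ Pool.Agent.GR.CV

theorem tc_alg {A T W : Type} [CommRing A] [CommRing T] [IsDomain T] [CommRing W] (α β : A →+* T)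
    (ψ : T →+* W) (hα : ∀ t, ∃ G : A[X], G ≠ 0 ∧ G.eval₂ α t = 0) (hβ : Function.Injective β)
    {Z : W} {Q : A[X]} (hQ : Q ≠ 0) (h : Q.eval₂ (ψ.comp β) Z = 0) :
    ∃ Q' : A[X], Q' ≠ 0 ∧ Q'.eval₂ (ψ.comp α) Z = 0 := by
  let _ := α.toAlgebra
  let _ := ψ.toAlgebra
  let _ := (ψ.comp α).toAlgebra
  have : IsScalarTower A T W := IsScalarTower.of_algebraMap_eq fun _ => rfl
  have : Algebra.IsAlgebraic A T := ⟨hα⟩
  exact IsAlgebraic.restrictScalars A (S := T) ⟨Q.map β, (Polynomial.map_ne_zero_iff hβ).2 hQ, by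
    rw [aeval_def, eval₂_map]
    exact h⟩

/-- the derivative of a quotient along a branch -/
theorem tc_der {P a : ℂ[X][Y]} {c : ℂ[X]} {ω : ℂ → ℂ} {z e : ℂ} (hω : DifferentiableAt ℂ ω z)
    (h0 : ∀ᶠ t in nhds z, P.evalEval t (ω t) = 0) (hc : c.eval z ≠ 0)
    (hP : (derivative P).evalEval z (ω z) ≠ 0)
    (h : (derivative P).evalEval z (ω z) * (c.eval z * e + a.evalEval z (ω z) / c.eval z *
      (derivative c).eval z) = (derivative P * dX a - dX P * derivative a).evalEval z (ω z)) :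
    HasDerivAt (fun t => a.evalEval t (ω t) / c.eval t) e z := by
  have h1 := (hasDerivAt_evalEval hω.hasDerivAt P).unique
    ((hasDerivAt_const z (0 : ℂ)).congr_of_eventuallyEq h0)
  refine ((hasDerivAt_evalEval hω.hasDerivAt a).fun_div (c.hasDerivAt z) hc).congr_deriv ?_
  rw [evalEval_sub, evalEval_mul, evalEval_mul] at h
  have h2 : (dX a).evalEval z (ω z) + (derivative a).evalEval z (ω z) * deriv ω z =
      c.eval z * e + a.evalEval z (ω z) / c.eval z * (derivative c).eval z :=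
    mul_left_cancel₀ hP (by linear_combination (derivative a).evalEval z (ω z) * h1 - h)
  rw [h2]
  field_simp
  ring

variable {F : Type} [Field F] [Algebra ℂ F]

variable [IsFF F] {r : ℕ}

theorem Chg.alg {S S' : Sys ℂ r} {x y f w : F} {E : Derivation ℤ F F} (h : Chg S S' x y f w E)
    (hA : S'.Alg) : S.Alg := by
  obtain ⟨z₀, ρ₀, ω, Z, hρ₀, hZ, hQ⟩ := hA
  have hEx : E x ≠ 0 := fun h0 => one_ne_zero (h.one.symm.trans (der_along (RingHom.id F) E
    (map_add E) (fun a b => E.leibniz a b) h.ext h.m.tr h0 f))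
  let a : ℂ[X][Y] →+* F := (aevalAeval x y).toRingHom
  let b : ℂ[X][Y] →+* F := (aevalAeval f w).toRingHom
  have haC : ∀ q, a (C q) = aeval x q := aevalAeval_C x y
  have hbC : ∀ q, b (C q) = aeval f q := aevalAeval_C f w
  have ex : a (C X) = x := aevalAeval_X x y
  have ey : a Y = y := aevalAeval_Y x y
  have ef : b (C X) = f := aevalAeval_X f w
  have hu : E x * a (C S.D) * b (derivative S'.P) ≠ 0 :=
    mul_ne_zero (mul_ne_zero hEx fun e => h.m.tr ⟨_, h.D, haC _ ▸ e⟩) h.m'.sep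
  let v : Fin 4 → F := ![x, y, E x, (E x * a (C S.D) * b (derivative S'.P))⁻¹]
  obtain ⟨_, ⟨c, hc, rfl⟩, h1⟩ := tn_den b (mon ℂ) v fun i => by
    obtain ⟨c, q, hc, e⟩ := h.m'.den (v i)
    exact ⟨C c, ⟨c, hc, rfl⟩, q, hbC c ▸ e⟩
  choose q hq using h1
  obtain ⟨z₁, ρ, hρ, hsub, hc0⟩ := exists_ball hc.ne_zero z₀ hρ₀
  have hb0 : b (C c) ≠ 0 := fun e => h.m'.tr ⟨_, hc.ne_zero, hbC _ ▸ e⟩
  obtain ⟨T, hT, hψ⟩ := tl_frac b (Submonoid.powers (C c)) (by
    rintro _ ⟨n, rfl⟩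
    exact map_pow b _ n ▸ pow_ne_zero n hb0)
  let g : ℂ[X][Y] →+* (Metric.ball z₁ ρ → ℂ) := RingHom.pi fun z => evalEvalRingHom z.1 (ω z)
  obtain ⟨ψ, hψ⟩ := hψ _ g (fun p hp => by
    obtain ⟨p', rfl⟩ := h.m'.dvd hp
    funext z
    exact (evalEval_mul _ _ _ _).trans (mul_eq_zero_of_left (hZ z (hsub z.2)).2.1 _)) (by
    rintro _ ⟨n, rfl⟩
    rw [map_pow]
    exact (Pi.isUnit_iff.2 fun z : Metric.ball z₁ ρ =>
      Ne.isUnit ((evalEval_C _ _ _).trans_ne (hc0 z z.2))).pow n)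
  have mb : ∀ p, b p ∈ T := fun p => (hT _).2 ⟨1, one_mem _, p, by rw [map_one, one_mul]⟩
  have mv : ∀ i, v i ∈ T := fun i => (hT _).2 ⟨_, Submonoid.mem_powers _, _, hq i⟩
  have hab : ∀ d, a (C (C d)) = b (C (C d)) := fun d => by rw [haC, hbC, aeval_C, aeval_C]
  have ma : ∀ p, a p ∈ T := tn_mem a T (fun d => hab d ▸ mb _) (ex ▸ mv 0) (ey ▸ mv 1)
  let a' := a.codRestrict T ma
  let b' := b.codRestrict T mb
  have hb' : ∀ p (z : Metric.ball z₁ ρ), ψ (b' p) z = p.evalEval z.1 (ω z) := fun p z =>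
    congrFun (hψ (b' p) p rfl) z
  let ξ : Fin 4 → ℂ → ℂ := fun i z => (q i).evalEval z (ω z) / c.eval z
  have hξ : ∀ i (z : Metric.ball z₁ ρ), ψ ⟨v i, mv i⟩ z = ξ i z := fun i z => by
    have e : b' (C c) * ⟨v i, mv i⟩ = b' (q i) := Subtype.ext (hq i)
    have e' := congrFun (congrArg ψ e) z
    rw [map_mul ψ, Pi.mul_apply, hb', hb', evalEval_C] at e'
    exact eq_div_of_mul_eq (hc0 z z.2) (by rw [mul_comm, e'])
  have ex' : a' (C X) = ⟨v 0, mv 0⟩ := Subtype.ext ex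
  have ey' : a' Y = ⟨v 1, mv 1⟩ := Subtype.ext ey
  have ha' : ∀ p (z : Metric.ball z₁ ρ), ψ (a' p) z = p.evalEval (ξ 0 z) (ξ 1 z) := fun p z => by
    have e : ((Pi.evalRingHom _ z).comp ψ).comp a' = evalEvalRingHom (ξ 0 z) (ξ 1 z) := by
      ext d
      · have e : a' (C (C d)) = b' (C (C d)) := Subtype.ext (hab d)
        simp [e, hb', evalEval_C]
      · simp [ex', hξ]
      · simp [ey', hξ]
    exact RingHom.congr_fun e p
  refine ti_pull S hρ (z₀ := z₁) (ξ := ξ 0) (η := ξ 1) (ε := ξ 2) (Z := Z) (fun z hz => ?_)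
    fun i j => ?_
  · obtain ⟨k1, -, k2, k3, k4⟩ := hZ z (hsub hz)
    have e1 : (⟨v 3, mv 3⟩ : T) * (⟨v 2, mv 2⟩ * a' (C S.D) * b' (derivative S'.P)) = 1 :=
      Subtype.ext (inv_mul_cancel₀ hu)
    have e2 := congrFun (congrArg ψ e1) ⟨z, hz⟩
    simp only [map_mul ψ, Pi.mul_apply, ha', hb', hξ, map_one, Pi.one_apply, evalEval_C] at e2
    have e3 := right_ne_zero_of_mul_eq_one e2
    have n1 := left_ne_zero_of_mul (left_ne_zero_of_mul e3)
    have n2 := right_ne_zero_of_mul (left_ne_zero_of_mul e3)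
    refine ⟨tc_der k1 ?_ (hc0 z hz) (right_ne_zero_of_mul e3) ?_, n1, ?_, ?_, n2, k3,
      fun i j => (k4 i j).congr_deriv ?_⟩
    · filter_upwards [Metric.isOpen_ball.mem_nhds (hsub hz)] with t ht using (hZ t ht).2.1
    · have hb0 : ∀ d, E (b (C (C d))) = 0 := fun d => by rw [hbC, aeval_C, h.ext]
      have e4 := tl_curve b E hb0 h.m'.root (q 0)
      have e5 := tl_der b E hb0 (C c)
      rw [dX_C, derivative_C, map_zero, zero_mul, add_zero, ef, h.one, mul_one] at e5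
      rw [← hq, Derivation.leibniz, e5, ef, h.one, one_mul] at e4
      have e6 : b' (derivative S'.P) * (b' (C c) * ⟨v 2, mv 2⟩ + ⟨v 0, mv 0⟩ *
          b' (C (derivative c))) =
          b' (derivative S'.P * dX (q 0) - dX S'.P * derivative (q 0)) := Subtype.ext e4
      have e7 := congrFun (congrArg ψ e6) ⟨z, hz⟩
      simpa only [map_mul ψ, map_add ψ, Pi.mul_apply, Pi.add_apply, hb', hξ, evalEval_C] using e7
    · exact ((hasDerivAt_evalEval k1.hasDerivAt (q 1)).fun_div (c.hasDerivAt z)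
        (hc0 z hz)).differentiableAt
    · have e4 : a' S.P = 0 := Subtype.ext h.m.root
      rw [← ha' _ ⟨z, hz⟩, e4, map_zero, Pi.zero_apply]
    · simp only [Matrix.smul_apply, smul_eq_mul, Matrix.mul_apply, Matrix.map_apply,
        Finset.mul_sum]
      refine Finset.sum_congr rfl fun l _ => ?_
      have e4 : a' (C S.D) * b' (S'.A i l) = b' (C S'.D) * ⟨v 2, mv 2⟩ * a' (S.A i l) := by
        refine Subtype.ext ?_
        change a _ * b _ = b _ * E x * a _
        rw [haC, hbC]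
        exact congrFun (congrFun h.eq i) l
      have e5 := congrFun (congrArg ψ e4) ⟨z, hz⟩
      simp only [map_mul ψ, Pi.mul_apply, ha', hb', hξ, evalEval_C] at e5
      field_simp
      linear_combination Z z l j * e5
  · obtain ⟨Q, hQ0, hQ1⟩ := hQ i j
    have key : ∀ (κ : ℂ[X] →+* T) (t : ℂ → ℂ), (∀ d (z : Metric.ball z₁ ρ), ψ (κ d) z =
        d.eval (t z)) → ∀ (p : ℂ[X][Y]) (z : Metric.ball z₁ ρ),
        p.eval₂ (ψ.comp κ) (fun z => Z z i j) z = p.evalEval (t z) (Z z i j) := by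
      intro κ t ht p z
      have e : ((Pi.evalRingHom _ z).comp (ψ.comp κ)) = evalRingHom (t z) :=
        RingHom.ext fun d => ht d z
      rw [← eval₂_evalRingHom, ← e]
      exact hom_eval₂ p (ψ.comp κ) (Pi.evalRingHom _ z) _
    obtain ⟨Q', k1, k2⟩ := tc_alg (a'.comp C) (b'.comp C) ψ (fun t => by
      obtain ⟨G, hG, e⟩ := h.m.alg t
      refine ⟨G, hG, Subtype.ext ((hom_eval₂ G _ T.subtype _).trans ?_)⟩
      have e' : eval₂RingHom (T.subtype.comp (a'.comp C)) t = (aevalAeval x (t : F)).toRingHom := by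
        ext d
        · simpa [a'] using haC (C d)
        · simpa [a'] using ex
        · simp
      exact (RingHom.congr_fun e' G).trans e)
      ((injective_iff_map_eq_zero _).2 fun d e => by_contra fun hd =>
        h.m'.tr ⟨d, hd, (hbC d).symm.trans (congrArg Subtype.val e)⟩) hQ0
      (funext fun z => (key _ id (fun d z => (hb' _ z).trans (evalEval_C _ _ _)) Q z).trans
        (hQ1 z (hsub z.2)))
    exact ⟨Q', k1, fun z hz => (key _ (ξ 0) (fun d z => (ha' _ z).trans (evalEval_C _ _ _)) Q'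
      ⟨z, hz⟩).symm.trans (congrFun k2 ⟨z, hz⟩)⟩

end Pool.Agent.GR.GE
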