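import Pool.Agent.Lib.MP_aa40d3_nt.GE.TM

/-! Change of the coordinate modulo a maximal ideal. -/

open Polynomial Matrix
open scoped Polynomial.Bivariate

namespace Pool.Agent.GR.GE

open Pool.Agent.GR.CV

/-- a common denominator -/
theorem tn_den {A F ι : Type} [CommRing A] [CommRing F] [Fintype ι] (e : A →+* F) (M : Submonoid A)
    (f : ι → F) (h : ∀ i, ∃ m ∈ M, ∃ a, e m * f i = e a) :
    ∃ m ∈ M, ∀ i, ∃ a, e m * f i = e a := by
  classical
  choose m hm a ha using h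
  refine ⟨∏ i, m i, M.prod_mem fun i _ => hm i, fun i => ⟨(∏ j ∈ Finset.univ.erase i, m j) * a i, ?_⟩⟩
  rw [← Finset.prod_erase_mul _ _ (Finset.mem_univ i), map_mul, map_mul, mul_assoc, ha]

/-- the monic polynomials in `X` -/
def mon (R : Type) [CommRing R] : Submonoid R[X][Y] where
  carrier := {z | ∃ c : R[X], c.Monic ∧ C c = z}
  one_mem' := ⟨1, monic_one, C_1⟩
  mul_mem' := by
    rintro _ _ ⟨c, hc, rfl⟩ ⟨d, hd, rfl⟩
    exact ⟨c * d, hc.mul hd, C_mul⟩

variable {R k F : Type} [CommRing R] [Field k] [Field F] {r : ℕ}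

theorem tn_mem (a : R[X][Y] →+* F) (T : Subring F) (h0 : ∀ c, a (C (C c)) ∈ T) (hx : a (C X) ∈ T)
    (hy : a Y ∈ T) (q : R[X][Y]) : a q ∈ T := by
  have h1 : ∀ c : R[X], a (C c) ∈ T := by
    intro c
    induction c using Polynomial.induction_on with
    | C c => exact h0 c
    | add p q hp hq => rw [C_add, map_add]; exact T.add_mem hp hq
    | monomial n c ih => rw [pow_succ, ← mul_assoc, C_mul, map_mul]; exact T.mul_mem ih hx
  induction q using Polynomial.induction_on with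
  | C c => exact h1 c
  | add p q hp hq => rw [map_add]; exact T.add_mem hp hq
  | monomial n c ih => rw [pow_succ, ← mul_assoc, map_mul]; exact T.mul_mem ih hy

/-- the identity in characteristic zero -/
theorem tn_id (S S' : Sys R r) (a b : R[X][Y] →+* F) (E : Derivation ℤ F F)
    (ha0 : ∀ c, E (a (C (C c))) = 0) (hb0 : ∀ c, E (b (C (C c))) = 0) (hE : E (b (C X)) = 1)
    (hP : a S.P = 0) (hP' : b S'.P = 0)
    (hA : ∀ i j, a (C S.D) * b (S'.A i j) = b (C S'.D) * E (a (C X)) * a (S.A i j))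
    {u u' : Fin r → R[X][Y]} {c : R[X]} {p : ℕ} (hu : ∀ i, b (u' i) = b (C c) ^ p * a (u i))
    (i : Fin r) : a (C S.D * derivative S.P) * b (S'.nab u' i) = b (derivative S'.P * C S'.D) *
      (p * (a (C S.D * derivative S.P * u i) * b (C c ^ (p - 1) * C (derivative c))) +
        b (C c ^ p) * E (a (C X)) * a (S.nab u i)) := by
  have h1 := tl_nab S a E ha0 hP u i
  have h2 := tl_nab S' b E hb0 hP' u' i
  have h3 := tl_der b E hb0 (C c)
  rw [dX_C, derivative_C, map_zero, zero_mul, add_zero, hE, mul_one] at h3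
  have h4 : a (C S.D) * ∑ j, b (S'.A i j) * b (u' j) =
      b (C c) ^ p * (b (C S'.D) * E (a (C X)) * ∑ j, a (S.A i j) * a (u j)) := by
    simp only [Finset.mul_sum]
    refine Finset.sum_congr rfl fun j _ => ?_
    rw [← mul_assoc, hA, hu]
    ring
  rw [hE, hu i, Derivation.leibniz, Derivation.leibniz_pow, h3] at h2
  simp only [smul_eq_mul, nsmul_eq_mul] at h2
  simp only [map_mul, map_pow]
  linear_combination a (C S.D) * a (derivative S.P) * h2 -
    b (derivative S'.P) * b (C S'.D) * b (C c) ^ p * h1 -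
    a (derivative S.P) * b (derivative S'.P) * h4

theorem tn_step (S S' : Sys R r) {φ : R →+* k} (hφ : Function.Surjective φ) {p : ℕ} (hp : 0 < p)
    (hp0 : (p : k) = 0) (a b : R[X][Y] →+* F) (hab : ∀ c, a (C (C c)) = b (C (C c)))
    (E : Derivation ℤ F F) (hb0 : ∀ c, E (b (C (C c))) = 0) (hE : E (b (C X)) = 1)
    (hP : a S.P = 0) (hP' : S'.P.Monic) (hb : ∀ q, b q = 0 ↔ S'.P ∣ q)
    (hm : ∀ m ∈ mon R, b m ≠ 0)
    (hd : ∀ h ∈ [a (C X), a Y, E (a (C X)), (a (C S.D * derivative S.P))⁻¹],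
      ∃ m ∈ mon R, ∃ q, b m * h = b q) (hD : a (C S.D * derivative S.P) ≠ 0)
    {H U : R[X][Y]} {N : ℕ} (hU : (U * H).coeff N = 1) (hH : H.eval₂ (a.comp C) (b (C X)) = 0)
    (hA : ∀ i j, a (C S.D) * b (S'.A i j) = b (C S'.D) * E (a (C X)) * a (S.A i j))
    (hF : (S.map φ).Fund) : (S'.map φ).Fund := by
  classical
  let μ : R[X][Y] →+* k[X][Y] := mapRingHom (mapRingHom φ)
  obtain ⟨B, _, g, hg1, hg2, hg3⟩ := tm_fibre (hP'.map (mapRingHom φ))
  obtain ⟨T, hT, hψ⟩ := tl_frac b (mon R) hm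
  have hmu : ∀ m ∈ mon R, IsUnit (g (μ m)) := by
    rintro _ ⟨c, hc, rfl⟩
    have e : μ (C c) = C (c.map φ) := Polynomial.map_C _
    rw [e]
    exact hg2 _ (hc.map φ).ne_zero
  obtain ⟨ψ, hψ⟩ := hψ B (g.comp μ) (fun q hq => (hg1 _).2 (Polynomial.map_dvd _ ((hb q).1 hq))) hmu
  have mb : ∀ q, b q ∈ T := fun q => (hT _).2 ⟨1, one_mem _, q, by rw [map_one, one_mul]⟩
  have ma : ∀ q, a q ∈ T := tn_mem a T (fun c => hab c ▸ mb _) ((hT _).2 (hd _ (by simp)))
    ((hT _).2 (hd _ (by simp)))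
  have me : E (a (C X)) ∈ T := (hT _).2 (hd _ (by simp))
  have mu : (a (C S.D * derivative S.P))⁻¹ ∈ T := (hT _).2 (hd _ (by simp))
  let a' := a.codRestrict T ma
  let b' := b.codRestrict T mb
  have hb' : ∀ q, ψ (b' q) = g (μ q) := fun q => hψ _ q rfl
  let _ : Algebra k B := ((g.comp C).comp C).toAlgebra
  have hk : ∀ c : k, algebraMap k B c = g (C (C c)) := fun _ => rfl
  have hc : ∀ c, ψ (a' (C (C c))) = algebraMap k B (φ c) := fun c => by
    rw [hψ (a' (C (C c))) (C (C c)) (hab c), hk]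
    simp [μ]
  have ha' : ∀ q, ψ (a' q) = aevalAeval (ψ (a' (C X))) (ψ (a' Y)) (μ q) := by
    intro q
    have e : ψ.comp a' = (aevalAeval (ψ (a' (C X))) (ψ (a' Y))).toRingHom.comp μ := by
      ext
      · simp [μ, hc]
      · simp [μ]
      · simp [μ]
    exact RingHom.congr_fun e q
  have hP0 : ∀ q, (S.map φ).P ∣ q → aevalAeval (ψ (a' (C X))) (ψ (a' Y)) q = 0 := by
    rintro _ ⟨q, rfl⟩
    have e : a' S.P = 0 := Subtype.ext hP
    rw [map_mul, show (S.map φ).P = μ S.P from rfl, ← ha', e, map_zero, zero_mul]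
  obtain ⟨Φ₀, ⟨q₀, c₀, hc₀, hq₀⟩, hΦ₀⟩ := hF
  choose Φ hΦ using fun i j => Polynomial.map_surjective (mapRingHom φ)
    (Polynomial.map_surjective φ hφ) (Φ₀ i j)
  obtain ⟨_, ⟨c, hcm, rfl⟩, h1⟩ := tn_den b (mon R) (fun z : Fin r × Fin r => a (Φ z.1 z.2))
    fun z => (hT _).1 (ma _)
  choose Ψ hΨ using h1
  let Φ' : Matrix (Fin r) (Fin r) R[X][Y] := Matrix.of fun i j => C c ^ (p - 1) * Ψ (i, j)
  have h2 : ∀ i j, b (Φ' i j) = b (C c) ^ p * a (Φ i j) := fun i j => by
    rw [show Φ' i j = C c ^ (p - 1) * Ψ (i, j) from rfl, map_mul, ← hΨ, map_pow, ← mul_assoc, ← pow_succ, Nat.sub_add_cancel hp]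
  refine ⟨Φ'.map μ, ?_, fun i j => ?_⟩
  · have hf : ∀ d : k[X], aeval (g (C X)) d = g (C d) := fun d => by
      have e : (aeval (g (C X)) : k[X] →ₐ[k] B).toRingHom = g.comp C := by
        ext
        · simp [hk]
        · simp
      exact RingHom.congr_fun e d
    have h3 : aevalAeval (ψ (a' (C X))) (g (C X)) (μ H) = 0 := by
      have e : (aevalAeval (ψ (a' (C X))) (g (C X))).toRingHom.comp μ =
          ψ.comp (eval₂RingHom (a'.comp C) (b' (C X))) := by
        ext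
        · simp [μ, hc]
        · simp [μ]
        · simp [μ, hb']
      have e' : eval₂ (a'.comp C) (b' (C X)) H = 0 :=
        Subtype.ext ((hom_eval₂ H _ T.subtype _).trans hH)
      refine (RingHom.congr_fun e H).trans ?_
      rw [RingHom.comp_apply, coe_eval₂RingHom, e', map_zero]
    have h4 : (μ U * μ H).coeff N = 1 := by
      rw [← map_mul, coe_mapRingHom, coeff_map, hU, map_one]
    have h5 := tm_unit (fun d hd => hf d ▸ hg2 d hd) h4 h3 hc₀
    have h6 := hP0 _ hq₀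
    rw [map_sub, map_mul, aevalAeval_C, sub_eq_zero] at h6
    have h7 : IsUnit (aevalAeval (ψ (a' (C X))) (ψ (a' Y)) Φ₀.det) :=
      isUnit_of_mul_isUnit_right (h6 ▸ h5)
    have h8 : g.mapMatrix (Φ'.map μ) = g (μ (C c)) ^ p •
        (aevalAeval (ψ (a' (C X))) (ψ (a' Y))).toRingHom.mapMatrix Φ₀ := by
      ext i j
      have e : b' (Φ' i j) = b' (C c) ^ p * a' (Φ i j) := Subtype.ext (h2 i j)
      have e' := congrArg ψ e
      rw [map_mul, map_pow, hb', hb', ha'] at e'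
      refine e'.trans ?_
      rw [show μ (Φ i j) = Φ₀ i j from hΦ i j]
      rfl
    have h9 : IsUnit (g (Φ'.map μ).det) := by
      rw [RingHom.map_det, h8, det_smul, ← RingHom.map_det]
      exact (((hmu _ ⟨c, hcm, rfl⟩).pow p).pow _).mul h7
    obtain ⟨v, hv⟩ := h9.exists_left_inv
    obtain ⟨d, hd0, q, hq⟩ := hg3 v
    exact ⟨q, d, hd0, (hg1 _).1 (by rw [map_sub, map_mul, ← hq, mul_assoc, hv, mul_one, sub_self])⟩
  · have e := tn_id S S' a b E (fun c => hab c ▸ hb0 c) hb0 hE hP ((hb _).2 dvd_rfl) hA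
      (u := fun i => Φ i j) (u' := fun i => Φ' i j) (fun i => h2 i j) i
    have e1 : a' (C S.D * derivative S.P) * b' (S'.nab (fun i => Φ' i j) i) =
        b' (derivative S'.P * C S'.D) * (p * (a' (C S.D * derivative S.P * Φ i j) *
          b' (C c ^ (p - 1) * C (derivative c))) + b' (C c ^ p) * ⟨_, me⟩ *
            a' (S.nab (fun i => Φ i j) i)) := Subtype.ext e
    have e2 : (⟨_, mu⟩ : T) * a' (C S.D * derivative S.P) = 1 := Subtype.ext (inv_mul_cancel₀ hD)
    have e3 : ψ (a' (S.nab (fun i => Φ i j) i)) = 0 := by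
      rw [ha']
      refine hP0 _ ?_
      have e4 := hΦ₀ i j
      simp only [← hΦ] at e4
      rwa [nab_map] at e4
    have e5 : ψ p = 0 := by rw [map_natCast, ← map_natCast (algebraMap k B), hp0, map_zero]
    have e6 := congrArg ψ e1
    rw [map_mul ψ, map_mul ψ, map_add ψ, map_mul ψ (p : T), map_mul ψ _ (a' _), e3, e5, zero_mul, mul_zero,
      add_zero, mul_zero, hb'] at e6
    have e7 := congrArg ψ e2
    rw [map_mul ψ, map_one] at e7
    refine (hg1 _).1 ?_
    rw [show (S'.map φ).nab (fun i => Φ'.map μ i j) i = μ (S'.nab (fun i => Φ' i j) i) from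
      nab_map S' φ (fun i => Φ' i j) i, ← one_mul (g _), ← e7, mul_assoc, e6, mul_zero]

end Pool.Agent.GR.GE
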