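import Pool.Agent.Lib.MP_aa40d3_nt.GE.TA
import Pool.Agent.Lib.MP_aa40d3_nt.GE.TN
import Pool.Agent.Lib.MP_aa40d3_nt.CV.SprA

/-! Spreading out, and fundamental matrices modulo maximal ideals. -/

set_option linter.unusedSectionVars false

open Polynomial Module
open scoped Polynomial.Bivariate IntermediateField

namespace Pool.Agent.GR.GE

open Pool.Agent.Lib.MP_a01f70_lc.QQ Pool.Agent.GR.CV

variable {F : Type} [Field F] [Algebra ℂ F]

/-- every function is algebraic over the polynomials in the coordinate -/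
theorem Model.alg {z w : F} {P : ℂ[X][Y]} (h : Model z w P) (u : F) :
    ∃ G : ℂ[X][Y], G ≠ 0 ∧ aevalAeval z u G = 0 := by
  let _ : Algebra ℂ[X] F := (aeval z : ℂ[X] →ₐ[ℂ] F).toRingHom.toAlgebra
  have h0 : ∀ c : ℂ[X], algebraMap ℂ[X] F c = aeval z c := fun _ => rfl
  have key : ∀ (v : F) (p : ℂ[X][Y]), aeval v p = aevalAeval z v p := fun v p => by
    have e : (aeval v : ℂ[X][Y] →ₐ[ℂ[X]] F).toRingHom = (aevalAeval z v).toRingHom := by
      ext <;> simp [h0]
    exact RingHom.congr_fun e p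
  obtain ⟨c, a, hc, e⟩ := h.den u
  have hw : IsIntegral ℂ[X] w := ⟨P, h.monic, by rw [← aeval_def, key]; exact h.root⟩
  have h1 : IsIntegral ℂ[X] (c • u) := by
    rw [Algebra.smul_def, h0, e, ← key]
    exact .of_mem_of_fg _ hw.fg_adjoin_singleton _ (aeval_mem_adjoin_singleton _ _)
  obtain ⟨G, hG, h2⟩ := IsAlgebraic.of_smul_isIntegral
    (by rw [isNilpotent_iff_eq_zero]; exact hc.ne_zero) h1
  exact ⟨G, hG, key u G ▸ h2⟩

/-- a ring of definition for finitely many polynomials -/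
theorem tb_ring {R : Type} [CommRing R] [Algebra.FiniteType ℤ R] (ι : R →+* ℂ)
    (s : Finset ℂ[X][Y]) : ∃ (R' : Subring ℂ) (j : R →+* R'), Algebra.FiniteType ℤ R' ∧
      R'.subtype.comp j = ι ∧ ∀ p ∈ s, ∃ q : R'[X][Y], q.map (mapRingHom R'.subtype) = p := by
  classical
  obtain ⟨R', j, h1, h2, h3⟩ := exists_ring ι (s.biUnion fun p => p.coeffs.biUnion coeffs)
  refine ⟨R', j, h1, h2, fun p hp => (mem_lifts p).1 ((lifts_iff_coeff_lifts p).2 fun n => ?_)⟩
  refine (mem_lifts (f := R'.subtype) _).1 ((lifts_iff_coeff_lifts _).2 fun m => ?_)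
  by_cases h : (p.coeff n).coeff m = 0
  · exact ⟨0, h.symm⟩
  · exact ⟨⟨_, h3 _ (Finset.mem_biUnion.2 ⟨p, hp, Finset.mem_biUnion.2
      ⟨_, coeff_mem_coeffs fun e => h (by rw [e, coeff_zero]), coeff_mem_coeffs h⟩⟩)⟩, rfl⟩

variable [IsFF F] {r : ℕ}

theorem transport {R : Type} [CommRing R] [Algebra.FiniteType ℤ R] (ι : R →+* ℂ) (S : Sys R r)
    {S' : Sys ℂ r} {x y f w : F} {E : Derivation ℤ F F} (hP : S.P.Monic)
    (h : Chg (S.map ι) S' x y f w E)
    (hF : ∀ m : Ideal R, m.IsMaximal → (S.map (Ideal.Quotient.mk m)).Fund) :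
    ∃ (R' : Type) (_ : CommRing R') (_ : Algebra.FiniteType ℤ R') (ι' : R' →+* ℂ) (S₀ : Sys R' r),
      S₀.P.Monic ∧ S₀.map ι' = S' ∧
        ∀ m : Ideal R', m.IsMaximal → (S₀.map (Ideal.Quotient.mk m)).Fund := by
  classical
  obtain ⟨G, hG, hG0⟩ := h.m.alg f
  obtain ⟨H, U, N, hH, hU⟩ := tl_rel h.m.tr hG hG0
  let v : Fin 4 → F :=
    ![x, y, E x, (aevalAeval x y (C (S.map ι).D * derivative (S.map ι).P))⁻¹]
  choose c a hc hca using fun i => h.m'.den (v i)
  obtain ⟨R', j, hft, hj, hs⟩ := tb_ring ι ({H, U, S'.P, C S'.D} ∪ Finset.univ.image a ∪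
    Finset.univ.image (fun i => C (c i)) ∪ Finset.univ.image fun z : Fin r × Fin r => S'.A z.1 z.2)
  have hinj : Function.Injective (mapRingHom R'.subtype) :=
    Polynomial.map_injective _ R'.subtype_injective
  let μ : R'[X][Y] →+* ℂ[X][Y] := mapRingHom (mapRingHom R'.subtype)
  have hμ : ∀ q, μ q = q.map (mapRingHom R'.subtype) := fun _ => rfl
  have hC : ∀ d : ℂ[X], (∃ q : R'[X][Y], q.map (mapRingHom R'.subtype) = C d) →
      ∃ q : R'[X], q.map R'.subtype = d := by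
    rintro d ⟨q, hq⟩
    exact ⟨q.coeff 0, by rw [← coe_mapRingHom, ← coeff_map, hq, coeff_C_zero]⟩
  obtain ⟨H₀, hH₀⟩ := hs H (by simp)
  obtain ⟨U₀, hU₀⟩ := hs U (by simp)
  obtain ⟨P₀, hP₀⟩ := hs S'.P (by simp)
  obtain ⟨D₀, hD₀⟩ := hC _ (hs (C S'.D) (by simp))
  choose a₀ ha₀ using fun i => hs (a i) (by simp)
  choose c₀ hc₀ using fun i => hC _ (hs (C (c i)) (by simp))
  choose A₀ hA₀ using fun i k => hs (S'.A i k)
    (Finset.mem_union_right _ (Finset.mem_image.2 ⟨(i, k), Finset.mem_univ _, rfl⟩))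
  let S₀ : Sys R' r := ⟨P₀, D₀, Matrix.of A₀⟩
  have hm : P₀.Monic := monic_of_injective hinj (hP₀ ▸ h.m'.monic)
  have hS : S₀.map R'.subtype = S' := by
    have e : (Matrix.of A₀).map (Polynomial.map (mapRingHom R'.subtype)) = S'.A :=
      Matrix.ext fun i k => hA₀ i k
    simp only [S₀, Sys.map, hP₀, hD₀, e]
  refine ⟨R', inferInstance, hft, R'.subtype, S₀, hm, hS, fun m hmax => ?_⟩
  let _ := Ideal.Quotient.field m
  obtain ⟨p, hp, hch⟩ := exists_char m
  have h1 := (hF _ (comap_max j m)).map (Ideal.quotientMap_injective (I := m) (f := j))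
  rw [Sys.map_map, Ideal.quotientMap_comp_mk, ← Sys.map_map] at h1
  have hS1 : (S.map j).map R'.subtype = S.map ι := by rw [Sys.map_map, hj]
  let α : R'[X][Y] →+* F := (aevalAeval x y).toRingHom.comp μ
  let β : R'[X][Y] →+* F := (aevalAeval f w).toRingHom.comp μ
  have hα : ∀ q, α q = aevalAeval x y (q.map (mapRingHom R'.subtype)) := fun _ => rfl
  have hβ : ∀ q, β q = aevalAeval f w (q.map (mapRingHom R'.subtype)) := fun _ => rfl
  have hβC : ∀ q, β (C q) = aeval f (q.map R'.subtype) := fun q => by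
    rw [hβ, map_C, aevalAeval_C, coe_mapRingHom]
  have hαC : ∀ q, α (C q) = aeval x (q.map R'.subtype) := fun q => by
    rw [hα, map_C, aevalAeval_C, coe_mapRingHom]
  have ex : α (C X) = x := by rw [hαC, map_X, aeval_X]
  have ey : α Y = y := by rw [hα, map_X, aevalAeval_Y]
  have ef : β (C X) = f := by rw [hβC, map_X, aeval_X]
  have eP : (S.map j).P.map (mapRingHom R'.subtype) = (S.map ι).P := congrArg Sys.P hS1
  have eD : (S.map j).D.map R'.subtype = (S.map ι).D := congrArg Sys.D hS1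
  have eu : α (C (S.map j).D * derivative (S.map j).P) =
      aevalAeval x y (C (S.map ι).D * derivative (S.map ι).P) := by
    rw [hα, Polynomial.map_mul, map_C, ← derivative_map, eP, coe_mapRingHom, eD]
  have hv : ∀ i, ∃ m ∈ mon R', ∃ q, β m * v i = β q := fun i =>
    ⟨C (c₀ i), ⟨_, monic_of_injective R'.subtype_injective (hc₀ i ▸ hc i), rfl⟩, a₀ i, by
      rw [hβC, hc₀, hβ, ha₀, hca]⟩
  refine tn_step (S.map j) S₀ Ideal.Quotient.mk_surjective hp.pos (CharP.cast_eq_zero _ p) α β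
    (fun d => by rw [hαC, hβC, map_C, aeval_C, aeval_C])
    E (fun d => by rw [hβC, map_C, aeval_C, h.ext]) (by rw [ef, h.one])
    (by rw [hα, eP, h.m.root]) hm (fun q => ?_) ?_ ?_ ?_ (H := H₀) (U := U₀) (N := N) ?_ ?_ ?_ h1
  · rw [hβ, ← map_dvd_map _ hinj hm, hP₀]
    refine ⟨h.m'.dvd, ?_⟩
    rintro ⟨q, hq⟩
    rw [hq, map_mul, h.m'.root, zero_mul]
  · rintro _ ⟨d, hd, rfl⟩ e
    exact h.m'.tr ⟨_, (hd.map R'.subtype).ne_zero, hβC d ▸ e⟩
  · rw [ex, ey, eu]
    simp only [List.mem_cons, List.not_mem_nil, or_false, forall_eq_or_imp, forall_eq]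
    exact ⟨hv 0, hv 1, hv 2, hv 3⟩
  · rw [eu, map_mul, aevalAeval_C]
    exact mul_ne_zero (fun e => h.m.tr ⟨_, h.D, e⟩) h.m.sep
  · apply hinj
    rw [← coeff_map, Polynomial.map_mul, hU₀, hH₀, hU, map_one]
  · have e : eval₂RingHom (α.comp C) (β (C X)) = (aevalAeval x f).toRingHom.comp μ := by
      ext d
      · simp [hαC, μ]
      · simp [ex, μ]
      · simp [ef, μ]
    refine (RingHom.congr_fun e H₀).trans ?_
    rw [RingHom.comp_apply, hμ, hH₀]
    exact hH
  · intro i k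
    have e := congrFun (congrFun h.eq i) k
    have eA : ((S.map j).A i k).map (mapRingHom R'.subtype) = (S.map ι).A i k :=
      congrFun (congrFun (congrArg Sys.A hS1) i) k
    rw [hαC, hβC, ex, hα, hβ, eD, eA]
    exact hD₀.symm ▸ (hA₀ i k).symm ▸ e

end Pool.Agent.GR.GE
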