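import Pool.Agent.Lib.MP_aa40d3_nt.GE.Defs

/-! Coordinates, values and plane models. -/

set_option linter.unusedSectionVars false

open Polynomial Module
open scoped Polynomial.Bivariate IntermediateField

namespace Pool.Agent.GR.GE

open Pool.Agent.Lib.MP_a01f70_lc.QQ Pool.Agent.GR.CV

variable {F : Type} [Field F] [Algebra ℂ F]

theorem ra1_eval (x y : F) (P : ℂ[X][Y]) :
    eval₂ (aeval x : ℂ[X] →ₐ[ℂ] F).toRingHom y P = aevalAeval x y P := by
  induction P using Polynomial.induction_on' with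
  | add p q hp hq => rw [eval₂_add, map_add, hp, hq]
  | monomial n a =>
    rw [eval₂_monomial, ← C_mul_X_pow_eq_monomial, map_mul, map_pow, aevalAeval_C, aevalAeval_Y]
    rfl

theorem isFF_of_gen {x y : F} {P : ℂ[X][Y]} (hx : Transcendental ℂ x) (hg : ℂ⟮x, y⟯ = ⊤)
    (hP : P ≠ 0) (h : aevalAeval x y P = 0) : IsFF F := by
  let φ : ℂ[X] →ₐ[ℂ] ℂ⟮x⟯ := aeval (IntermediateField.AdjoinSimple.gen ℂ x)
  have e : (algebraMap ℂ⟮x⟯ F).comp φ.toRingHom = (aeval x : ℂ[X] →ₐ[ℂ] F).toRingHom :=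
    RingHom.ext fun u => (aeval_algebraMap_apply F (IntermediateField.AdjoinSimple.gen ℂ x) u).symm
  have hφ : Function.Injective φ.toRingHom := by
    refine Function.Injective.of_comp (f := algebraMap ℂ⟮x⟯ F) ?_
    rw [← RingHom.coe_comp, e]
    exact transcendental_iff_injective.1 hx
  have hy : IsAlgebraic ℂ⟮x⟯ y := by
    refine ⟨P.map φ.toRingHom, (Polynomial.map_ne_zero_iff hφ).2 hP, ?_⟩
    rw [aeval_def, eval₂_map, e, ra1_eval, h]
  have h1 : ℂ⟮x⟯⟮y⟯ = ⊤ := by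
    refine IntermediateField.restrictScalars_injective ℂ ?_
    rw [IntermediateField.adjoin_simple_adjoin_simple, hg, IntermediateField.restrictScalars_top]
  have h2 := IntermediateField.adjoin.finiteDimensional hy.isIntegral
  rw [h1] at h2
  exact ⟨x, hx, IntermediateField.topEquiv.toLinearEquiv.finiteDimensional⟩

theorem transcendental_of_ord (p : Place ℂ F) {z : F} (h : p.ord z ≠ 0) : Transcendental ℂ z := by
  intro hz
  obtain ⟨c, rfl⟩ := minpoly.mem_range_of_degree_eq_one ℂ z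
    (IsAlgClosed.degree_eq_one_of_irreducible ℂ (minpoly.irreducible hz.isIntegral))
  exact h (p.ord_const c)

theorem val_eq {p : Place ℂ F} {z : F} {c : ℂ} (h : p.Ge (z - algebraMap ℂ F c) 1) :
    val p z = c := by
  have h0 : ∃ c, p.Ge (z - algebraMap ℂ F c) 1 := ⟨c, h⟩
  have h1 := h.sub h0.choose_spec
  rw [sub_sub_sub_cancel_left, ← map_sub] at h1
  rw [val, dif_pos h0]
  exact sub_eq_zero.1 (Place.const_eq_zero_of_ge h1)

theorem val_pole {p : Place ℂ F} {z : F} (h : p.ord z < 0) : val p z = 0 := by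
  refine dif_neg fun ⟨c, hc⟩ => ?_
  have h1 := (hc.mono zero_le_one).add (p.ge_const c)
  rw [sub_add_cancel] at h1
  rcases h1 with rfl | h1
  · exact h.ne p.ord_zero
  · exact h1.not_gt h

theorem ram_pole {p : Place ℂ F} {z : F} (h : p.ord z < 0) : ram p z = p.ord z := by
  rw [ram, val_pole h, map_zero, sub_zero]

/-- evaluation at the generator of `ℂ(z)` -/
noncomputable def ra2_ev (z : F) : ℂ[X] →+* ℂ⟮z⟯ :=
  (aeval (IntermediateField.AdjoinSimple.gen ℂ z) : ℂ[X] →ₐ[ℂ] ℂ⟮z⟯)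

theorem ra2_coe (z : F) (c : ℂ[X]) : algebraMap ℂ⟮z⟯ F (ra2_ev z c) = aeval z c :=
  (aeval_algebraMap_apply F (IntermediateField.AdjoinSimple.gen ℂ z) c).symm

theorem ra2_map (z w : F) (Q : ℂ[X][Y]) : aeval w (Q.map (ra2_ev z)) = aevalAeval z w Q := by
  induction Q using Polynomial.induction_on' with
  | add p q hp hq => rw [Polynomial.map_add, map_add, map_add, hp, hq]
  | monomial n c => simp [← C_mul_X_pow_eq_monomial, ← ra2_coe]

theorem ra2_inj {z : F} (hz : Transcendental ℂ z) : Function.Injective (ra2_ev z) :=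
  fun a b e => transcendental_iff_injective.1 hz (by rw [← ra2_coe, e, ra2_coe])

theorem ra2_frac {z : F} (hz : Transcendental ℂ z) :
    @IsFractionRing ℂ[X] _ ℂ⟮z⟯ _ (ra2_ev z).toAlgebra := by
  let _ := (ra2_ev z).toAlgebra
  have := (faithfulSMul_iff_algebraMap_injective ℂ[X] ℂ⟮z⟯).2 (ra2_inj hz)
  refine IsFractionRing.of_field _ _ fun u => ?_
  obtain ⟨r, s, h⟩ := (IntermediateField.mem_adjoin_simple_iff ℂ _).1 u.2
  refine ⟨r, s, (algebraMap ℂ⟮z⟯ F).injective ?_⟩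
  rw [map_div₀]
  exact h.trans (congrArg₂ _ (ra2_coe z r).symm (ra2_coe z s).symm)

theorem ra2_min {z w : F} {P : ℂ[X][Y]} (h : Model z w P) :
    P.map (ra2_ev z) = minpoly ℂ⟮z⟯ w := by
  let _ := (ra2_ev z).toAlgebra
  have := ra2_frac h.tr
  exact minpoly.eq_of_irreducible_of_monic
    ((h.monic.irreducible_iff_irreducible_map_fraction_map (K := ℂ⟮z⟯)).1 h.irr)
    ((ra2_map z w P).trans h.root) (h.monic.map _)

theorem ra2_int {z w : F} {P : ℂ[X][Y]} (h : Model z w P) : IsIntegral ℂ⟮z⟯ w :=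
  ⟨_, h.monic.map (ra2_ev z), (ra2_map z w P).trans h.root⟩

theorem ra2_top {z w : F} {P : ℂ[X][Y]} (h : Model z w P) : ℂ⟮z⟯⟮w⟯ = ⊤ :=
  IntermediateField.restrictScalars_injective ℂ
    ((IntermediateField.adjoin_simple_adjoin_simple ℂ z w).trans h.gen)

theorem Model.dvd {z w : F} {P Q : ℂ[X][Y]} (h : Model z w P) (hQ : aevalAeval z w Q = 0) :
    P ∣ Q := by
  rw [← map_dvd_map (ra2_ev z) (ra2_inj h.tr) h.monic, ra2_min h]
  exact minpoly.dvd _ _ ((ra2_map z w Q).trans hQ)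

theorem Model.sep {z w : F} {P : ℂ[X][Y]} (h : Model z w P) :
    aevalAeval z w (derivative P) ≠ 0 := by
  intro e
  have h0 : P.natDegree ≠ 0 := fun e =>
    h.irr.not_isUnit (h.monic.natDegree_eq_zero.1 e ▸ isUnit_one)
  exact h0 (derivative_eq_zero.1
    (eq_zero_of_dvd_of_natDegree_lt (h.dvd e) (natDegree_derivative_lt h0)))

theorem Model.deg {z w : F} {P : ℂ[X][Y]} (h : Model z w P) : P.natDegree = finrank ℂ⟮z⟯ F := by
  rw [← h.monic.natDegree_map (ra2_ev z), ra2_min h,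
    ← IntermediateField.adjoin.finrank (ra2_int h), ra2_top h, IntermediateField.finrank_top']

theorem Model.den {z w : F} {P : ℂ[X][Y]} (h : Model z w P) (u : F) :
    ∃ (c : ℂ[X]) (a : ℂ[X][Y]), c.Monic ∧ aeval z c * u = aevalAeval z w a := by
  let _ := (ra2_ev z).toAlgebra
  have := ra2_frac h.tr
  have hu : u ∈ (ℂ⟮z⟯⟮w⟯).toSubalgebra := by rw [ra2_top h]; trivial
  rw [IntermediateField.adjoin_simple_toSubalgebra_of_isAlgebraic (ra2_int h).isAlgebraic,
    Algebra.adjoin_singleton_eq_range_aeval] at hu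
  obtain ⟨q, rfl⟩ := hu
  obtain ⟨b, hb, e⟩ := IsLocalization.integerNormalization_spec (nonZeroDivisors ℂ[X]) q
  have e1 : aevalAeval z w (IsLocalization.integerNormalization (nonZeroDivisors ℂ[X]) q) =
      aeval z b * aeval w q := by
    rw [← ra2_map, ← ra2_coe, ← Algebra.smul_def, ← map_smul]
    exact congrArg _ (e.trans (algebraMap_smul ℂ⟮z⟯ b q).symm)
  refine ⟨b * C b.leadingCoeff⁻¹,
    IsLocalization.integerNormalization (nonZeroDivisors ℂ[X]) q * C (C b.leadingCoeff⁻¹),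
    monic_mul_leadingCoeff_inv (nonZeroDivisors.ne_zero hb), ?_⟩
  rw [map_mul, map_mul, e1, aevalAeval_C, mul_right_comm]
  rfl

variable [IsFF F]

theorem IsFF.fin {z : F} (hz : Transcendental ℂ z) : FiniteDimensional ℂ⟮z⟯ F := by
  obtain ⟨t, -, hf⟩ := IsFF.ex (F := F)
  have h1 : Algebra.EssFiniteType ℂ ℂ⟮t⟯ :=
    IntermediateField.essFiniteType_iff.2 (IntermediateField.fg_adjoin_of_finite (by simp))
  have h2 : Algebra.EssFiniteType ℂ F := Algebra.EssFiniteType.comp ℂ ℂ⟮t⟯ F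
  have h3 : Algebra.EssFiniteType ℂ⟮z⟯ F := Algebra.EssFiniteType.of_comp ℂ ℂ⟮z⟯ F
  have h4 : Algebra.IsAlgebraic (Algebra.adjoin ℂ {t}) F :=
    IntermediateField.isAlgebraic_adjoin_iff_top.1 inferInstance
  have h5 := Algebra.IsAlgebraic.trdeg_le_cardinalMk ℂ ({t} : Set F)
  have h6 := ((algebraicIndependent_unique_type_iff (x := fun _ : Unit => z)).2
    hz).isTranscendenceBasis_of_trdeg_le_of_finite (by simpa using h5)
  have h7 := h6.isAlgebraic_field
  rw [Set.range_const] at h7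
  exact Algebra.finite_of_essFiniteType_of_isAlgebraic

/-- the instances used by the library on places, for the coordinate `z` -/
theorem exists_coord {z : F} (hz : Transcendental ℂ z) :
    ∃ (_ : Algebra ℂ[X] F) (_ : Algebra (RatFunc ℂ) F), IsScalarTower ℂ ℂ[X] F ∧
      IsScalarTower ℂ[X] (RatFunc ℂ) F ∧ IsScalarTower ℂ (RatFunc ℂ) F ∧
      FiniteDimensional (RatFunc ℂ) F ∧ xx ℂ F = z ∧ finrank (RatFunc ℂ) F = finrank ℂ⟮z⟯ F := by
  have := IsFF.fin hz
  let e := RatFunc.algEquivOfTranscendental z hz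
  let i1 : Algebra ℂ[X] F := (aeval z).toRingHom.toAlgebra
  let i2 : Algebra (RatFunc ℂ) F := (ℂ⟮z⟯.val.comp e.toAlgHom).toRingHom.toAlgebra
  have hc : (algebraMap ℂ⟮z⟯ F).comp e.toRingEquiv.toRingHom =
      (RingEquiv.refl F).toRingHom.comp (algebraMap (RatFunc ℂ) F) := rfl
  refine ⟨i1, i2, IsScalarTower.of_algebraMap_eq fun c => ((aeval z).commutes c).symm,
    IsScalarTower.of_algebraMap_eq fun u => ?_,
    IsScalarTower.of_algebraMap_eq fun c => ((ℂ⟮z⟯.val.comp e.toAlgHom).commutes c).symm, ?_,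
    aeval_X z, Algebra.finrank_eq_of_equiv_equiv e.toRingEquiv (RingEquiv.refl F) hc⟩
  · change aeval z u = ℂ⟮z⟯.val (e (algebraMap ℂ[X] (RatFunc ℂ) u))
    rw [RatFunc.algEquivOfTranscendental_algebraMap, ← aeval_algHom_apply]
    rfl
  · refine Module.Finite.of_equiv_equiv e.symm.toRingEquiv (RingEquiv.refl F) ?_
    ext x
    exact congrArg ℂ⟮z⟯.val (e.apply_symm_apply x)

theorem resPl' : ResPl ℂ F := by
  obtain ⟨t, ht, -⟩ := IsFF.ex (F := F)
  obtain ⟨_, _, _, _, _, _, -⟩ := exists_coord ht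
  exact resPl

theorem finPl' : FinPl ℂ F := by
  have h : ∀ {t : F}, Transcendental ℂ t → ∀ f : F,
      {v : Place ℂ F | 0 ≤ v.ord t ∧ v.ord f ≠ 0}.Finite := fun ht f => by
    obtain ⟨_, _, _, _, _, _, rfl, -⟩ := exists_coord ht
    exact finite_finSet f
  obtain ⟨t, ht, -⟩ := IsFF.ex (F := F)
  refine fun f => ((h ht f).union (h (t := t⁻¹) (fun h1 => ht (IsAlgebraic.inv_iff.1 h1))
    f)).subset fun v hv => ?_
  rcases le_total 0 (v.ord t) with h1 | h1
  · exact Or.inl ⟨h1, hv⟩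
  · exact Or.inr ⟨(neg_nonneg.2 h1).trans_eq (v.ord_inv t).symm, hv⟩

theorem val_ge {p : Place ℂ F} {z : F} (h : p.Ge z 0) : p.Ge (z - algebraMap ℂ F (val p z)) 1 := by
  obtain ⟨c, hc⟩ := resPl' p z h
  rwa [val_eq hc]

theorem ram_pos {p : Place ℂ F} {z : F} (hz : Transcendental ℂ z) (h : p.Ge z 0) :
    1 ≤ ram p z :=
  (val_ge h).le fun e => hz (sub_eq_zero.1 e ▸ isAlgebraic_algebraMap _)

theorem exists_int {z : F} (hz : Transcendental ℂ z) :
    ∃ w : F, ℂ⟮z, w⟯ = ⊤ ∧ ∀ p : Place ℂ F, p.Ge z 0 → p.Ge w 0 := by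
  have := IsFF.fin hz
  obtain ⟨α, hα⟩ := Field.exists_primitive_element ℂ⟮z⟯ F
  obtain ⟨_, _, _, _, _, _, hx, -⟩ := exists_coord hz
  obtain ⟨c, hc, hi⟩ := exists_smul_isIntegral (k := ℂ) α
  refine ⟨c • α, ?_, fun p hp => (isIntegral_iff_ge _).1 hi p ?_⟩
  · have h1 : ℂ⟮z, α⟯ = ⊤ := by
      rw [← IntermediateField.adjoin_simple_adjoin_simple, hα,
        IntermediateField.restrictScalars_top]
    have h2 : z ∈ ℂ⟮z, c • α⟯ := IntermediateField.subset_adjoin _ _ (by simp)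
    have h3 : c • α ∈ ℂ⟮z, c • α⟯ := IntermediateField.subset_adjoin _ _ (by simp)
    have h4 : algebraMap ℂ[X] F c ∈ ℂ⟮z, c • α⟯ := by
      rw [algebraMap_poly, hx]
      exact (Algebra.adjoin_le (S := ℂ⟮z, c • α⟯.toSubalgebra) (Set.singleton_subset_iff.2 h2))
        (aeval_mem_adjoin_singleton ℂ z)
    have h5 := mul_mem (inv_mem h4) h3
    rw [Algebra.smul_def c α, inv_mul_cancel_left₀ (algebraMap_poly_ne_zero hc),
      ← Algebra.smul_def] at h5
    rw [eq_top_iff, ← h1, IntermediateField.adjoin_le_iff]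
    rintro a (rfl | rfl)
    exacts [h2, h5]
  · rw [mem_FinSet, hx]
    exact hp.le (hx ▸ xx_ne_zero)

theorem exists_model {z w : F} (hz : Transcendental ℂ z) (hg : ℂ⟮z, w⟯ = ⊤)
    (hw : ∀ p : Place ℂ F, p.Ge z 0 → p.Ge w 0) : ∃ P, Model z w P := by
  obtain ⟨_, _, _, _, _, _, hx, -⟩ := exists_coord hz
  have hi : IsIntegral ℂ[X] w := (isIntegral_iff_ge _).2 fun p hp => hw p (Or.inr (hx ▸ hp))
  refine ⟨minpoly ℂ[X] w, hz, hg, minpoly.monic hi, minpoly.irreducible hi, ?_⟩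
  have h : ∀ P : ℂ[X][Y], aevalAeval z w P = aeval w P := fun P => by
    induction P using Polynomial.induction_on' with
    | add P Q h1 h2 => rw [map_add, map_add, h1, h2]
    | monomial n a =>
      rw [← C_mul_X_pow_eq_monomial, map_mul, map_mul, map_pow, map_pow, aevalAeval_Y, aeval_X,
        aevalAeval_C, aeval_C, algebraMap_poly, hx]
  rw [h, minpoly.aeval]

end Pool.Agent.GR.GE
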