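import Pool.Agent.Lib.MP_aa40d3_nt.GE.RA

/-! Constants: algebraic closures, derivations of the complex numbers, bases. -/

set_option linter.unusedSectionVars false

open Polynomial Module
open scoped Polynomial.Bivariate IntermediateField

namespace Pool.Agent.GR.GE

open Pool.Agent.Lib.MP_a01f70_lc.QQ Pool.Agent.GR.CV

variable {F : Type} [Field F] [Algebra ℂ F]

/-- the numbers that are algebraic over the field generated by `A` -/
noncomputable def acl (A : Set ℂ) : IntermediateField ℚ ℂ :=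
  (algebraicClosure (IntermediateField.adjoin ℚ A) ℂ).restrictScalars ℚ

theorem mem_acl {A : Set ℂ} {z : ℂ} : z ∈ acl A ↔ IsAlgebraic (IntermediateField.adjoin ℚ A) z :=
  mem_algebraicClosure_iff

theorem subset_acl (A : Set ℂ) : A ⊆ acl A := fun a ha =>
  mem_acl.2 (isAlgebraic_algebraMap
    (⟨a, IntermediateField.subset_adjoin ℚ A ha⟩ : IntermediateField.adjoin ℚ A))

theorem acl_closed {A : Set ℂ} {z : ℂ} (h : IsAlgebraic (acl A) z) : z ∈ acl A := by
  have h' : IsAlgebraic (algebraicClosure (IntermediateField.adjoin ℚ A) ℂ) z := h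
  exact mem_acl.2 (h'.restrictScalars _)

theorem acl_le {A B : Set ℂ} (h : A ⊆ acl B) : acl A ≤ acl B := fun _ hz =>
  acl_closed ((mem_acl.1 hz).ringHom_of_comp_eq
    (IntermediateField.inclusion (IntermediateField.adjoin_le_iff.2 h)).toRingHom (RingHom.id ℂ)
    (RingHom.injective _) rfl)

theorem trdeg_acl (J : Finset ℂ) : Algebra.trdeg ℚ (acl (J : Set ℂ)) ≤ J.card := by
  have e : (Algebra.adjoin ℚ ((↑) ⁻¹' (J : Set ℂ) : Set (acl (J : Set ℂ)))).map
      (acl (J : Set ℂ)).val = Algebra.adjoin ℚ (J : Set ℂ) :=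
    (AlgHom.map_adjoin (acl (J : Set ℂ)).val _).trans
      (congrArg _ (Set.image_preimage_eq_of_subset fun a ha => ⟨⟨a, subset_acl _ ha⟩, rfl⟩))
  have : Algebra.IsAlgebraic (Algebra.adjoin ℚ ((↑) ⁻¹' (J : Set ℂ) : Set (acl (J : Set ℂ))))
      (acl (J : Set ℂ)) := ⟨fun z => by
    have h1 := IntermediateField.isAlgebraic_adjoin_iff.1 (mem_acl.1 z.2)
    rw [← e] at h1
    exact IsAlgebraic.of_ringHom_of_comp_eq ((acl (J : Set ℂ)).val.subalgebraMap _).toRingHom
      (acl (J : Set ℂ)).val.toRingHom h1 (AlgHom.subalgebraMap_surjective _ _)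
      (RingHom.injective _) rfl⟩
  refine (Algebra.IsAlgebraic.trdeg_le_cardinalMk ℚ
    ((↑) ⁻¹' (J : Set ℂ) : Set (acl (J : Set ℂ)))).trans ?_
  exact (Cardinal.mk_preimage_of_injective _ _ Subtype.val_injective).trans_eq
    Cardinal.mk_coe_finset

theorem Kills.acl {δ : Derivation ℤ ℂ ℂ} {A : Set ℂ} (h : Kills δ A) : Kills δ (acl A) := by
  have h1 : ∀ a ∈ IntermediateField.adjoin ℚ A, δ a = 0 := fun a ha => by
    induction ha using IntermediateField.adjoin_induction with
    | mem a ha => exact h a ha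
    | algebraMap q =>
      rw [eq_ratCast, Rat.cast_def, Derivation.leibniz_div, Derivation.map_natCast,
        Derivation.map_intCast, smul_zero, smul_zero, sub_zero, smul_zero]
    | add a b _ _ ha hb => rw [map_add, ha, hb, add_zero]
    | inv a _ ha => rw [Derivation.leibniz_inv, ha, smul_zero]
    | mul a b _ _ ha hb => rw [Derivation.leibniz, ha, hb, smul_zero, smul_zero, add_zero]
  let E : Derivation (IntermediateField.adjoin ℚ A) ℂ ℂ := Derivation.mk'
    { toFun := δ
      map_add' := map_add δ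
      map_smul' := fun a z => by
        change δ ((a : ℂ) * z) = (a : ℂ) * δ z
        rw [Derivation.leibniz, h1 a a.2, smul_zero, add_zero, smul_eq_mul] } δ.leibniz
  intro z hz
  have h2 := congrArg E (minpoly.aeval (IntermediateField.adjoin ℚ A) z)
  rw [Derivation.map_aeval, map_zero, smul_eq_mul, mul_eq_zero] at h2
  exact h2.resolve_left ((minpoly.irreducible
    (mem_acl.1 hz).isIntegral).separable.aeval_derivative_ne_zero (minpoly.aeval _ z))

theorem ca2_basis (K : IntermediateField ℚ ℂ) {I : Type} (x : I → ℂ)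
    (hx : IsTranscendenceBasis K x) :
    ∃ b : Module.Basis I ℂ (KaehlerDifferential K ℂ), ∀ i, b i = KaehlerDifferential.D K ℂ (x i) := by
  let S := MvPolynomial I K
  let _ : Algebra S ℂ := (MvPolynomial.aeval x).toRingHom.toAlgebra
  have hS : ∀ s : S, algebraMap S ℂ s = MvPolynomial.aeval x s := fun _ => rfl
  have : IsScalarTower K S ℂ := .of_algebraMap_eq fun q => by rw [hS, AlgHom.commutes]
  have : FaithfulSMul S ℂ := (faithfulSMul_iff_algebraMap_injective _ _).2 hx.1
  have : Algebra.IsAlgebraic S ℂ := by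
    have := hx.isAlgebraic
    refine Algebra.IsAlgebraic.ringHom_of_comp_eq hx.1.aevalEquiv.symm.toRingEquiv.toRingHom
      (RingHom.id ℂ) hx.1.aevalEquiv.symm.injective Function.surjective_id ?_
    ext s
    obtain ⟨s, rfl⟩ := hx.1.aevalEquiv.surjective s
    simp [hS]
  let _ := FractionRing.liftAlgebra S ℂ
  have := FractionRing.isScalarTower_liftAlgebra S ℂ
  have : Algebra.IsAlgebraic (FractionRing S) ℂ :=
    Algebra.IsAlgebraic.extendScalars (IsFractionRing.injective S (FractionRing S))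
  have : Algebra.FormallyEtale (FractionRing S) ℂ := Algebra.FormallyEtale.of_isSeparable _ _
  have : Algebra.FormallyEtale S (FractionRing S) :=
    Algebra.FormallyEtale.of_isLocalization (nonZeroDivisors S)
  have : Algebra.FormallyEtale S ℂ := Algebra.FormallyEtale.comp S (FractionRing S) ℂ
  refine ⟨(KaehlerDifferential.isBaseChange_of_formallyEtale K S ℂ).basis
    (KaehlerDifferential.mvPolynomialBasis K I), fun i => ?_⟩
  rw [IsBaseChange.basis_apply, KaehlerDifferential.mvPolynomialBasis_apply,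
    KaehlerDifferential.map_D, hS, MvPolynomial.aeval_X]

theorem exists_dual (K : IntermediateField ℚ ℂ) {ι : Type} {c : ι → ℂ}
    (hc : AlgebraicIndependent K c) (i : ι) :
    ∃ δ : Derivation ℤ ℂ ℂ, Kills δ K ∧ δ (c i) = 1 ∧ ∀ j, j ≠ i → δ (c j) = 0 := by
  classical
  obtain ⟨t, h1, h2⟩ := exists_isTranscendenceBasis_superset (R := K) hc.to_subtype_range
  obtain ⟨b, hb⟩ := ca2_basis K _ h2
  let E : Derivation K ℂ ℂ := (b.coord ⟨c i, h1 ⟨i, rfl⟩⟩).compDer (KaehlerDifferential.D K ℂ)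
  have hE : ∀ j, E (c j) = if j = i then 1 else 0 := fun j => by
    change b.repr (KaehlerDifferential.D K ℂ (c j)) _ = _
    rw [← hb ⟨c j, h1 ⟨j, rfl⟩⟩, b.repr_self, Finsupp.single_apply]
    simp only [Subtype.mk.injEq, hc.injective.eq_iff]
  exact ⟨E.restrictScalars ℤ, fun z hz => E.map_algebraMap ⟨z, hz⟩, (hE i).trans (if_pos rfl),
    fun j hj => (hE j).trans (if_neg hj)⟩

theorem mem_acl_of_der {A : Set ℂ} {z : ℂ} (h : ∀ δ : Derivation ℤ ℂ ℂ, Kills δ A → δ z = 0) :
    z ∈ acl A := by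
  by_contra h0
  obtain ⟨δ, h1, h2, -⟩ := exists_dual (acl A) (c := fun _ : Unit => z)
    (algebraicIndependent_unique_type_iff.2 fun h3 => h0 (acl_closed h3)) ()
  exact one_ne_zero (h2.symm.trans (h δ fun a ha => h1 a (subset_acl A ha)))

theorem ca3_card (A : Finset ℂ) : Cardinal.mk (acl (A : Set ℂ)) ≤ Cardinal.aleph0 := by
  have h1 : Cardinal.mk (acl (A : Set ℂ)) =
      Cardinal.mk {x : ℂ // IsAlgebraic (IntermediateField.adjoin ℚ (A : Set ℂ)) x} :=
    Cardinal.mk_congr (Equiv.subtypeEquivRight fun _ => mem_acl)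
  rw [h1]
  refine (Algebraic.cardinalMk_le_max _ _).trans (max_le ?_ le_rfl)
  refine (IntermediateField.cardinalMk_adjoin_le ℚ (A : Set ℂ)).trans ?_
  exact sup_le (sup_le Cardinal.mk_le_aleph0 Cardinal.mk_le_aleph0) le_rfl

theorem exists_indep (A : Finset ℂ) (ι : Type) [Fintype ι] :
    ∃ c : ι → ℂ, AlgebraicIndependent (acl (A : Set ℂ)) c := by
  obtain ⟨s, hx⟩ := exists_isTranscendenceBasis (acl (A : Set ℂ)) ℂ
  have hinf : Infinite s := by
    have := IsAlgClosed.cardinal_eq_cardinal_transcendence_basis_of_aleph0_lt' _ hx (ca3_card A)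
      (by rw [Cardinal.mk_complex]; exact Cardinal.aleph0_lt_continuum)
    rw [Cardinal.infinite_iff, ← this, Cardinal.mk_complex]
    exact Cardinal.aleph0_le_continuum
  let e : ι ↪ s :=
    (Fintype.equivFin ι).toEmbedding.trans (Fin.valEmbedding.trans (Infinite.natEmbedding s))
  exact ⟨_, hx.1.comp e e.injective⟩

theorem ca3_clos (K : IntermediateField ℚ ℂ) (T : Set ℂ) {z : ℂ}
    (h : z ∈ acl ((K : Set ℂ) ∪ T)) : z ∈ (AlgebraicIndependent.matroid K ℂ).closure T := by
  rw [mem_acl, ← IntermediateField.restrictScalars_adjoin] at h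
  rw [AlgebraicIndependent.matroid_closure_eq, SetLike.mem_coe, Subalgebra.mem_algebraicClosure]
  exact (IntermediateField.isAlgebraic_adjoin_iff (F := K) (s := T)).1 h

theorem ca3_acl (T : Set ℂ) {z : ℂ} (h : z ∈ (AlgebraicIndependent.matroid ℚ ℂ).closure T) :
    z ∈ acl T := by
  rw [AlgebraicIndependent.matroid_closure_eq, SetLike.mem_coe,
    Subalgebra.mem_algebraicClosure] at h
  exact mem_acl.2 ((IntermediateField.isAlgebraic_adjoin_iff (F := ℚ) (s := T)).2 h)

theorem exists_bases (K : IntermediateField ℚ ℂ) (T : Finset ℂ) {ι : Type} [Fintype ι] {c : ι → ℂ}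
    (hc : AlgebraicIndependent K c) (h : ∀ i, c i ∈ acl ((K : Set ℂ) ∪ T)) :
    ∃ I J : Finset ℂ, I ⊆ J ∧ J ⊆ T ∧ AlgebraicIndependent K ((↑) : I → ℂ) ∧
      Fintype.card ι ≤ I.card ∧ AlgebraicIndependent ℚ ((↑) : J → ℂ) ∧ (T : Set ℂ) ⊆ acl J := by
  obtain ⟨I, hI⟩ := (AlgebraicIndependent.matroid K ℂ).exists_isBasis (T : Set ℂ)
    (Set.subset_univ _)
  have hIK : AlgebraicIndependent K ((↑) : I → ℂ) :=
    AlgebraicIndependent.matroid_indep_iff.1 hI.indep
  have hIQ : (AlgebraicIndependent.matroid ℚ ℂ).Indep I :=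
    AlgebraicIndependent.matroid_indep_iff.2
      (hIK.restrictScalars (algebraMap ℚ K).injective)
  obtain ⟨J, hJ, hIJ⟩ := hIQ.subset_isBasis_of_subset hI.subset (Set.subset_univ _)
  obtain ⟨I', rfl⟩ := (T.finite_toSet.subset hI.subset).exists_finset_coe
  obtain ⟨J', rfl⟩ := (T.finite_toSet.subset hJ.subset).exists_finset_coe
  refine ⟨I', J', Finset.coe_subset.1 hIJ, Finset.coe_subset.1 hJ.subset, hIK, ?_,
    AlgebraicIndependent.matroid_indep_iff.1 hJ.indep, fun z hz => ca3_acl _ (hJ.subset_closure hz)⟩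
  have h1 : (AlgebraicIndependent.matroid K ℂ).Indep (Set.range c) :=
    AlgebraicIndependent.matroid_indep_iff.2 hc.to_subtype_range
  have h2 := h1.encard_le_eRk_of_subset
    (X := (AlgebraicIndependent.matroid K ℂ).closure (T : Set ℂ))
    (Set.range_subset_iff.2 fun i => ca3_clos K _ (h i))
  rw [Matroid.eRk_closure_eq, ← hI.encard_eq_eRk, Set.encard_coe_eq_coe_finsetCard,
    ← Set.image_univ, hc.injective.encard_image, Set.encard_univ, ENat.card_eq_coe_fintype_card] at h2
  exact_mod_cast h2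

end Pool.Agent.GR.GE
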