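import Pool.Agent.Lib.MP_aa40d3_nt.GE.RB

/-! Derivations of the function field. -/

set_option linter.unusedSectionVars false

open Polynomial Module
open scoped Polynomial.Bivariate IntermediateField

namespace Pool.Agent.GR.GE

open Pool.Agent.Lib.MP_a01f70_lc.QQ Pool.Agent.GR.CV

variable {F : Type} [Field F] [Algebra ℂ F]

theorem da1_alg (c : ℂ) : algebraMap ℂ LS' c = HahnSeries.single 0 c :=
  LaurentSeries.algebraMap_apply ℂ c

theorem da1_dS (a : LS') (k : ℤ) : (dS a).coeff k = (k + 1) * a.coeff (k + 1) := by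
  rw [dS, LaurentSeries.derivative_apply, LaurentSeries.hasseDeriv_coeff]
  simp

theorem cd_add (δ : Derivation ℤ ℂ ℂ) (a b : LS') : cd δ (a + b) = cd δ a + cd δ b := by
  ext k
  rw [HahnSeries.coeff_add, cd_coeff, cd_coeff, cd_coeff, HahnSeries.coeff_add, map_add]

theorem cd_mul (δ : Derivation ℤ ℂ ℂ) (a b : LS') : cd δ (a * b) = a * cd δ b + b * cd δ a := by
  have hs : ∀ h : LS', (cd δ h).support ⊆ h.support := fun h k hk h0 =>
    hk (by rw [cd_coeff, h0, map_zero])
  ext k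
  rw [mul_comm b, HahnSeries.coeff_add, cd_coeff, HahnSeries.coeff_mul,
    HahnSeries.coeff_mul_left' a.isPWO_support (hs a),
    HahnSeries.coeff_mul_right' b.isPWO_support (hs b), ← Finset.sum_add_distrib, map_sum]
  refine Finset.sum_congr rfl fun ij _ => ?_
  rw [Derivation.leibniz, cd_coeff, cd_coeff, smul_eq_mul, smul_eq_mul, mul_comm (b.coeff _)]

theorem cd_const (δ : Derivation ℤ ℂ ℂ) (c : ℂ) :
    cd δ (algebraMap ℂ LS' c) = algebraMap ℂ LS' (δ c) := by
  ext k
  rw [cd_coeff, da1_alg, da1_alg, HahnSeries.coeff_single, HahnSeries.coeff_single, apply_ite δ,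
    map_zero]

theorem dS_mul (a b : LS') : dS (a * b) = a * dS b + b * dS a := by
  have hc : ∀ (h : LS') k, (sL * dS h).coeff k = k * h.coeff k := fun h k => by
    rw [sL, HahnSeries.coeff_single_mul, one_mul, da1_dS]
    simp
  have hs : ∀ h : LS', (sL * dS h).support ⊆ h.support := fun h k hk h0 =>
    hk (by rw [hc, h0, mul_zero])
  refine mul_left_cancel₀ (a := sL) (HahnSeries.single_ne_zero one_ne_zero) ?_
  rw [mul_add, mul_comm b, ← mul_assoc sL (dS a), mul_left_comm sL a]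
  ext k
  rw [HahnSeries.coeff_add, hc, HahnSeries.coeff_mul,
    HahnSeries.coeff_mul_left' a.isPWO_support (hs a),
    HahnSeries.coeff_mul_right' b.isPWO_support (hs b), ← Finset.sum_add_distrib, Finset.mul_sum]
  refine Finset.sum_congr rfl fun ij hij => ?_
  have e : ij.1 + ij.2 = k := (Finset.mem_antidiagonal.1 hij).2.2
  rw [hc, hc, ← e]
  push_cast
  ring

theorem dS_const (c : ℂ) : dS (algebraMap ℂ LS' c) = 0 := by
  ext k
  rw [da1_dS, da1_alg, HahnSeries.coeff_single]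
  by_cases h : k + 1 = 0
  · have e : (k : ℂ) + 1 = 0 := by exact_mod_cast h
    rw [e, zero_mul, HahnSeries.coeff_zero]
  · rw [if_neg h, mul_zero, HahnSeries.coeff_zero]

theorem da3_sL : dS sL = 1 := by
  ext k
  rw [da1_dS, sL, HahnSeries.coeff_single, HahnSeries.coeff_one]
  by_cases h : k = 0
  · simp [h]
  · rw [if_neg (by omega), if_neg h, mul_zero]

theorem da3_mul {a b : LS'} {m n : ℤ} (ha : ∀ k < m, a.coeff k = 0) (hb : ∀ k < n, b.coeff k = 0) :
    ∀ k < m + n, (a * b).coeff k = 0 := by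
  rcases eq_or_ne a 0 with rfl | h1
  · simp
  rcases eq_or_ne b 0 with rfl | h2
  · simp
  rw [← HahnSeries.le_order_iff_forall h1] at ha
  rw [← HahnSeries.le_order_iff_forall h2] at hb
  rw [← HahnSeries.le_order_iff_forall (mul_ne_zero h1 h2), HahnSeries.order_mul h1 h2]
  exact add_le_add ha hb

theorem da3_cancel {a b : LS'} {n : ℤ} (ha : a ≠ 0)
    (h : ∀ k < a.order + n, (a * b).coeff k = 0) : ∀ k < n, b.coeff k = 0 := by
  rcases eq_or_ne b 0 with rfl | h2
  · simp
  rw [← HahnSeries.le_order_iff_forall (mul_ne_zero ha h2), HahnSeries.order_mul ha h2] at h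
  exact (HahnSeries.le_order_iff_forall h2).1 (le_of_add_le_add_left h)

variable [IsFF F]

theorem exists_ext (δ : Derivation ℤ ℂ ℂ) {z : F} (hz : Transcendental ℂ z) (a : F) :
    ∃ θ : Derivation ℤ F F, Ext θ δ ∧ θ z = a := by
  obtain ⟨_, _, _, _, _, _, hx, -⟩ := exists_coord hz
  have : CharZero (RatFunc ℂ) :=
    charZero_of_injective_algebraMap (algebraMap ℂ (RatFunc ℂ)).injective
  have : Algebra.FormallyEtale (RatFunc ℂ) F := Algebra.FormallyEtale.of_isSeparable _ _
  have : Algebra.FormallyEtale ℂ[X] (RatFunc ℂ) :=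
    Algebra.FormallyEtale.of_isLocalization (nonZeroDivisors ℂ[X])
  have : Algebra.FormallyEtale ℂ[X] F := Algebra.FormallyEtale.comp ℂ[X] (RatFunc ℂ) F
  let _ : Differential ℂ := ⟨δ⟩
  let d : Derivation ℤ ℂ[X] F := (Algebra.linearMap ℂ[X] F).compDer Differential.mapCoeffs +
    a • (Algebra.linearMap ℂ[X] F).compDer (derivative'.restrictScalars ℤ)
  let θ : Derivation ℤ F F :=
    ((KaehlerDifferential.isBaseChange_of_formallyEtale ℤ ℂ[X] F).lift
      d.liftKaehlerDifferential).compDer (KaehlerDifferential.D ℤ F)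
  have hθ : ∀ s : ℂ[X], θ (algebraMap ℂ[X] F s) = d s := fun s => by
    change (KaehlerDifferential.isBaseChange_of_formallyEtale ℤ ℂ[X] F).lift
      d.liftKaehlerDifferential (KaehlerDifferential.D ℤ F (algebraMap ℂ[X] F s)) = _
    rw [← KaehlerDifferential.map_D ℤ ℤ ℂ[X] F, IsBaseChange.lift_eq,
      Derivation.liftKaehlerDifferential_comp_D]
  have hd : ∀ s : ℂ[X], d s = algebraMap ℂ[X] F (Differential.mapCoeffs s) +
      a * algebraMap ℂ[X] F (derivative s) := fun s => rfl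
  refine ⟨θ, fun c => ?_, ?_⟩
  · rw [IsScalarTower.algebraMap_apply ℂ ℂ[X] F, IsScalarTower.algebraMap_apply ℂ ℂ[X] F, hθ, hd,
      algebraMap_eq, Differential.mapCoeffs_C, derivative_C, map_zero, mul_zero,
      add_zero]
    rfl
  · rw [← hx, xx, hθ, hd, Differential.mapCoeffs_X, derivative_X, map_zero, map_one, mul_one,
      zero_add]

/-- a derivation along `φ` that kills the constants and `z` vanishes -/
theorem der_along {L : Type} [Field L] (φ : F →+* L) (ε : F → L)
    (hadd : ∀ a b, ε (a + b) = ε a + ε b) (hmul : ∀ a b, ε (a * b) = φ a * ε b + φ b * ε a)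
    (hc : ∀ c, ε (algebraMap ℂ F c) = 0) {z : F} (hz : Transcendental ℂ z) (h0 : ε z = 0)
    (u : F) : ε u = 0 := by
  have h1 : ε 1 = 0 := by simpa using hc 1
  let K : IntermediateField ℂ F :=
    { carrier := {v | ε v = 0}
      mul_mem' := fun {a b} ha hb => by
        change ε (a * b) = 0
        rw [hmul, ha, hb, mul_zero, mul_zero, add_zero]
      add_mem' := fun {a b} ha hb => by
        change ε (a + b) = 0
        rw [hadd, ha, hb, add_zero]
      algebraMap_mem' := hc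
      inv_mem' := fun a ha => by
        change ε a⁻¹ = 0
        rcases eq_or_ne a 0 with rfl | h
        · simpa using hc 0
        · have := hmul a a⁻¹
          rw [mul_inv_cancel₀ h, h1, ha, mul_zero, add_zero] at this
          exact (mul_eq_zero.mp this.symm).resolve_left ((map_ne_zero φ).mpr h) }
  have hK : ∀ c : ℂ⟮z⟯, ε (algebraMap ℂ⟮z⟯ F c) = 0 := fun c =>
    (IntermediateField.adjoin_simple_le_iff (K := K)).mpr h0 c.2
  have hq : ∀ q : ℂ⟮z⟯[X], ε (aeval u q) = φ (aeval u (derivative q)) * ε u := fun q => by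
    induction q using Polynomial.induction_on with
    | C c => rw [aeval_C, hK, derivative_C, map_zero, map_zero, zero_mul]
    | add p q hp hq => rw [map_add, hadd, hp, hq, map_add, map_add, map_add, add_mul]
    | monomial n c ih =>
      rw [pow_succ, ← mul_assoc, map_mul, aeval_X, hmul, ih, derivative_mul (f := C c * X ^ n),
        derivative_X, mul_one, map_add, map_add, map_mul _ _ X, aeval_X, map_mul φ _ u]
      ring
  have := IsFF.fin hz
  have : CharZero ℂ⟮z⟯ := charZero_of_injective_algebraMap (algebraMap ℂ ℂ⟮z⟯).injective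
  have h2 := hq (minpoly ℂ⟮z⟯ u)
  rw [minpoly.aeval, show ε 0 = 0 by simpa using hc 0] at h2
  refine (mul_eq_zero.mp h2.symm).resolve_left ((map_ne_zero φ).mpr ?_)
  exact (minpoly.irreducible (Algebra.IsIntegral.isIntegral u)).separable.aeval_derivative_ne_zero
    (minpoly.aeval _ u)

/-- the local form of a derivation -/
theorem Ext.loc {θ : Derivation ℤ F F} {δ : Derivation ℤ ℂ ℂ} (h : Ext θ δ) (φ : F →ₐ[ℂ] LS')
    {z : F} (hz : Transcendental ℂ z) (u : F) :
    dS (φ z) * (φ (θ u) - cd δ (φ u)) = dS (φ u) * (φ (θ z) - cd δ (φ z)) := by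
  refine sub_eq_zero.mp (der_along φ.toRingHom (fun u => dS (φ z) * (φ (θ u) - cd δ (φ u)) -
    dS (φ u) * (φ (θ z) - cd δ (φ z))) (fun a b => ?_) (fun a b => ?_) (fun c => ?_) hz
    (sub_self _) u)
  · simp only [map_add, cd_add]
    ring
  · change _ = φ a * _ + φ b * _
    rw [Derivation.leibniz, smul_eq_mul, smul_eq_mul, map_add, map_mul, map_mul, map_mul, cd_mul,
      dS_mul]
    ring
  · rw [h c, AlgHom.commutes, AlgHom.commutes, cd_const, dS_const, sub_self, mul_zero, zero_mul,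
      sub_self]

theorem Lg.reg {θ : Derivation ℤ F F} {p : Place ℂ F} (h : Lg θ p) : Reg θ p := fun u => h u 0

theorem da3_loc {θ : Derivation ℤ F F} {δ : Derivation ℤ ℂ ℂ} (h : Ext θ δ) {z : F}
    (hz : Transcendental ℂ z) (h0 : θ z = 0) {p : Place ℂ F} {φ : F →ₐ[ℂ] LS'} (hφ : At φ p)
    {n m : ℤ} (hn : n ≤ 1)
    (h1 : ∀ k < ram p z - 1 + n, (algebraMap ℂ LS' (δ (val p z))).coeff k = 0)
    {u : F} (hu : p.Ge u m) (h2 : ∀ k < m - n, (dS (φ u)).coeff k = 0) : p.Ge (θ u) m := by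
  have h3 : ∀ k < ram p z - 1 + n, (cd δ (φ z)).coeff k = 0 := fun k hk => by
    rw [← sub_add_cancel z (algebraMap ℂ F (val p z)), map_add, cd_add, φ.commutes, cd_const,
      HahnSeries.coeff_add, h1 k hk, cd_coeff, hφ.ge.1 (p.ge_ord _) k (by unfold ram at hk; omega),
      map_zero, add_zero]
  have h4 : dS (φ z) * (φ (θ u) - cd δ (φ u)) = -(dS (φ u) * cd δ (φ z)) := by
    rw [h.loc φ hz u, h0, map_zero]
    ring
  have h5 := da3_cancel (b := φ (θ u) - cd δ (φ u)) (n := m) (hφ.order_dS hz).1 fun k hk => by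
    rw [h4, HahnSeries.coeff_neg, da3_mul h2 h3 k (by rw [(hφ.order_dS hz).2] at hk; omega),
      neg_zero]
  refine hφ.ge.2 fun k hk => ?_
  have := h5 k hk
  rwa [HahnSeries.coeff_sub, cd_coeff, hφ.ge.1 hu k hk, map_zero, sub_zero] at this

theorem Ext.lg {θ : Derivation ℤ F F} {δ : Derivation ℤ ℂ ℂ} (h : Ext θ δ) {z : F}
    (hz : Transcendental ℂ z) (h0 : θ z = 0) {p : Place ℂ F} (hp : δ (val p z) = 0) : Lg θ p := by
  obtain ⟨π, -, hπ⟩ := p.surj
  obtain ⟨φ, hφ, -⟩ := exists_at p hπ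
  exact fun u m hu => da3_loc h hz h0 hφ le_rfl (by simp [hp]) hu fun k hk => by
    rw [da1_dS, hφ.ge.1 hu _ (by omega), mul_zero]

theorem Ext.reg {θ : Derivation ℤ F F} {δ : Derivation ℤ ℂ ℂ} (h : Ext θ δ) {z : F}
    (hz : Transcendental ℂ z) (h0 : θ z = 0) {p : Place ℂ F} (hp : ram p z = 1) : Reg θ p := by
  obtain ⟨π, -, hπ⟩ := p.surj
  obtain ⟨φ, hφ, -⟩ := exists_at p hπ
  refine fun u hu => da3_loc h hz h0 hφ zero_le_one (fun k hk => ?_) hu fun k hk => ?_
  · rw [da1_alg, HahnSeries.coeff_single_of_ne (by omega)]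
  · rw [da1_dS]
    rcases eq_or_ne k (-1) with rfl | h1
    · simp
    · rw [hφ.ge.1 hu _ (by omega), mul_zero]

/-- no global vector fields -/
theorem Ext.eq_of_reg {R : RRData ℂ F} (hR : Can R) (hg : 2 ≤ R.g) {θ η : Derivation ℤ F F}
    {δ : Derivation ℤ ℂ ℂ} (h : Ext θ δ) (h' : Ext η δ) (h1 : ∀ p, Reg θ p) (h2 : ∀ p, Reg η p) :
    θ = η := by
  have hE : Ext (θ - η) 0 := fun c => by rw [Derivation.sub_apply, h, h', sub_self]; simp
  obtain ⟨z, hz, -⟩ := IsFF.ex (F := F)
  obtain ⟨w, hw, hd⟩ := hR.div z hz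
  have h3 : (θ - η) z * w⁻¹ ∈ L (-R.Kc) := mem_L.2 fun p => by
    obtain ⟨π, -, hπ⟩ := p.surj
    obtain ⟨φ, hφ, hs⟩ := exists_at p hπ
    have h4 := hE.loc φ hz π
    have h5 : ∀ a, cd 0 a = 0 := fun a => HahnSeries.ext rfl
    have h6 : p.Ge π 0 := .of_le (by omega)
    rw [h5, h5, sub_zero, sub_zero, hs, da3_sL, one_mul] at h4
    rw [Place.ge_mul_iff (inv_ne_zero hw), Place.ord_inv, Finsupp.neg_apply, neg_neg,
      sub_neg_eq_add, ← hd, hφ.ge, ← h4, ← (hφ.order_dS hz).2, ← add_zero (HahnSeries.order _)]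
    exact da3_mul (fun k => HahnSeries.coeff_eq_zero_of_lt_order)
      (hφ.ge.1 ((h1 p π h6).sub (h2 p π h6)))
  rw [R.L_eq_bot (by rw [map_neg, R.deg_Kc]; omega), Submodule.mem_bot,
    mul_eq_zero_iff_right (inv_ne_zero hw)] at h3
  exact sub_eq_zero.1 (Derivation.ext (der_along (RingHom.id F) ⇑(θ - η) (map_add (θ - η))
    (θ - η).leibniz (fun c => (hE c).trans (map_zero _)) hz h3))

/-- echelon bases -/
theorem echelon (V : Submodule ℂ F) [FiniteDimensional ℂ V] (φ : F →ₐ[ℂ] LS') :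
    ∃ b : Basis (Fin (finrank ℂ V)) ℂ V, ∀ (θ : Derivation ℤ F F) (δ : Derivation ℤ ℂ ℂ),
      (∀ u, φ (θ u) = cd δ (φ u)) → (∀ u ∈ V, θ u ∈ V) → ∀ j, θ (b j) = 0 := by
  classical
  let l : ℤ → Dual ℂ V := fun k =>
    { toFun := fun u => (φ u).coeff k
      map_add' := fun u v => by rw [Submodule.coe_add, map_add, HahnSeries.coeff_add]
      map_smul' := fun c u => by
        rw [Submodule.coe_smul, Algebra.smul_def, map_mul, φ.commutes, da1_alg,
          HahnSeries.coeff_single_zero_mul]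
        rfl }
  have hs : ⊤ ≤ Submodule.span ℂ (Set.range l) := (Submodule.span_eq_top_of_ne_zero fun u hu => by
    by_contra! h
    exact hu (Subtype.ext (φ.injective ((HahnSeries.ext (funext fun k =>
      h _ ⟨k, rfl⟩)).trans (map_zero φ).symm)))).ge
  have := FiniteDimensional.fintypeBasisIndex (Basis.ofSpan hs)
  let B := (Basis.ofSpan hs).reindex (Fintype.equivFinOfCardEq
    ((finrank_eq_card_basis (Basis.ofSpan hs)).symm.trans Subspace.dual_finrank_eq))
  refine ⟨B.dualBasis.map (evalEquiv ℂ V).symm, fun θ δ h hV j => ?_⟩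
  refine congrArg Subtype.val ((evalEquiv ℂ V).map_eq_zero_iff.1 (B.ext fun i => ?_) :
    (⟨_, hV _ (B.dualBasis.map (evalEquiv ℂ V).symm j).2⟩ : V) = 0)
  obtain ⟨k, hk⟩ : B i ∈ Set.range l := Basis.ofSpan_subset hs ⟨_, (Basis.reindex_apply _ _ i).symm⟩
  have h1 : B i (B.dualBasis.map (evalEquiv ℂ V).symm j) = if i = j then 1 else 0 := by
    rw [Basis.map_apply, apply_evalEquiv_symm_apply, Basis.dualBasis_apply_self]
  rw [← hk] at h1 ⊢
  refine (congrArg (·.coeff k) (h _)).trans ((congrArg δ h1).trans ?_)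
  split_ifs <;> simp

end Pool.Agent.GR.GE
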