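import Pool.Agent.Lib.MP_aa40d3_nt.GE.DA

/-! Stable spaces of functions. -/

set_option linter.unusedSectionVars false

open Polynomial Module
open scoped Polynomial.Bivariate IntermediateField

namespace Pool.Agent.GR.GE

open Pool.Agent.Lib.MP_a01f70_lc.QQ Pool.Agent.GR.CV

variable {F : Type} [Field F] [Algebra ℂ F]

theorem L_stab {D : Div ℂ F} {θ : Derivation ℤ F F} (h : ∀ p, Lg θ p ∨ D p = 0 ∧ Reg θ p) {u : F}
    (hu : u ∈ L D) : θ u ∈ L D := mem_L.2 fun p => by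
  rcases h p with h1 | ⟨h1, h2⟩
  · exact h1 u _ (mem_L.1 hu p)
  · have := mem_L.1 hu p
    rw [h1, neg_zero] at this ⊢
    exact h2 u this

theorem single_cd (δ : Derivation ℤ ℂ ℂ) (m : ℤ) : cd δ (HahnSeries.single m 1) = 0 := by
  ext k
  rw [cd_coeff, HahnSeries.coeff_single, HahnSeries.coeff_zero]
  split_ifs
  · exact δ.map_one_eq_zero
  · exact map_zero δ

theorem sL_inv : (sL : LS')⁻¹ = HahnSeries.single (-1) 1 := by
  refine inv_eq_of_mul_eq_one_right ?_
  rw [sL, HahnSeries.single_mul_single]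
  simp

theorem Ext.smul {θ : Derivation ℤ F F} {δ : Derivation ℤ ℂ ℂ} (h : Ext θ δ) (c : ℂ) (u : F) :
    θ (c • u) = c • θ u + δ c • u := by
  rw [Algebra.smul_def, θ.leibniz, h c, Algebra.smul_def c, Algebra.smul_def (δ c), smul_eq_mul,
    smul_eq_mul, mul_comm u]

variable [IsFF F]

theorem Ext.comm {θ : Derivation ℤ F F} {δ : Derivation ℤ ℂ ℂ} (h : Ext θ δ) {φ : F →ₐ[ℂ] LS'}
    {p : Place ℂ F} (hφ : At φ p) {z : F} (hz : Transcendental ℂ z) (h0 : θ z = 0)
    (h1 : cd δ (φ z) = 0) (u : F) : φ (θ u) = cd δ (φ u) := by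
  have := h.loc φ hz u
  rw [h0, h1, map_zero, sub_zero, mul_zero, mul_eq_zero] at this
  exact sub_eq_zero.1 (this.resolve_left (hφ.order_dS hz).1)

theorem exists_zero (R : RRData ℂ F) {z : F} (hz : Transcendental ℂ z) :
    ∃ p : Place ℂ F, 0 < p.ord z := by
  by_contra hc
  push Not at hc
  obtain ⟨c, h⟩ := R.const_of_mem_L_zero (f := z⁻¹) (mem_L.2 fun p => Place.Ge.of_le (by
    have := hc p
    rw [Place.ord_inv, Finsupp.zero_apply]
    omega))
  refine hz ?_
  rw [← inv_inv z, h, ← map_inv₀]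
  exact isAlgebraic_algebraMap _

end Pool.Agent.GR.GE
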