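import Pool.Agent.Lib.MP_aa40d3_nt.GE.Stmt
import Pool.Agent.Lib.MP_a01f70_lc.QQ.RRMain

/-! Auxiliary definitions: values, ramification, models, derivations, simple coverings. -/

set_option linter.unusedSectionVars false

open Polynomial
open scoped Polynomial.Bivariate IntermediateField

namespace Pool.Agent.GR.GE

open Pool.Agent.Lib.MP_a01f70_lc.QQ Pool.Agent.GR.CV

/-- Laurent series -/
abbrev LS' : Type := LaurentSeries ℂ

/-- the derivative `d/ds` -/
noncomputable abbrev dS (a : LS') : LS' := LaurentSeries.derivative ℂ a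

/-- function fields of one variable over the complex numbers -/
class IsFF (F : Type) [Field F] [Algebra ℂ F] : Prop where
  ex : ∃ t : F, Transcendental ℂ t ∧ FiniteDimensional ℂ⟮t⟯ F

variable {F : Type} [Field F] [Algebra ℂ F]

open Classical in
/-- the value of `z` at `p`, zero at a pole -/
noncomputable def val (p : Place ℂ F) (z : F) : ℂ :=
  if h : ∃ c, p.Ge (z - algebraMap ℂ F c) 1 then h.choose else 0

/-- the ramification index of `z` at `p`; minus the pole order at a pole -/
noncomputable def ram (p : Place ℂ F) (z : F) : ℤ := p.ord (z - algebraMap ℂ F (val p z))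

/-- `P` is the monic equation of `w` over `ℂ[z]`, and `z, w` generate -/
structure Model (z w : F) (P : ℂ[X][Y]) : Prop where
  tr : Transcendental ℂ z
  gen : ℂ⟮z, w⟯ = ⊤
  monic : P.Monic
  irr : Irreducible P
  root : aevalAeval z w P = 0

/-- Riemann-Roch data whose canonical divisor is the divisor of a differential -/
structure Can (R : RRData ℂ F) : Prop where
  g_eq : R.g = genus F
  div : ∀ z : F, Transcendental ℂ z → ∃ h : F, h ≠ 0 ∧ ∀ p, ram p z - 1 = R.Kc p + p.ord h

/-- the derivation `θ` of `F` extends the derivation `δ` of the constants -/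
def Ext (θ : Derivation ℤ F F) (δ : Derivation ℤ ℂ ℂ) : Prop :=
  ∀ c, θ (algebraMap ℂ F c) = algebraMap ℂ F (δ c)

/-- `θ` preserves the local ring at `p` -/
def Reg (θ : Derivation ℤ F F) (p : Place ℂ F) : Prop := ∀ h, p.Ge h 0 → p.Ge (θ h) 0

/-- `θ` preserves all powers of the maximal ideal at `p` -/
def Lg (θ : Derivation ℤ F F) (p : Place ℂ F) : Prop := ∀ h m, p.Ge h m → p.Ge (θ h) m

/-- `δ` vanishes on `A` -/
def Kills (δ : Derivation ℤ ℂ ℂ) (A : Set ℂ) : Prop := ∀ a ∈ A, δ a = 0

/-- a derivation of the constants applied to the coefficients of a series -/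
noncomputable def cd (δ : Derivation ℤ ℂ ℂ) (a : LS') : LS' where
  coeff k := δ (a.coeff k)
  isPWO_support' := a.isPWO_support'.mono fun k hk h => hk (by simp [h])

theorem cd_coeff (δ : Derivation ℤ ℂ ℂ) (a : LS') (k : ℤ) : (cd δ a).coeff k = δ (a.coeff k) := rfl

/-- `m` different places outside `Σ` at which `z` has order `e` -/
def Pls (Sg : Finset (Place ℂ F)) (z : F) (e : ℤ) (m : ℕ) : Prop :=
  ∃ q : Fin m → Place ℂ F, Function.Injective q ∧ ∀ j, q j ∉ Sg ∧ (q j).ord z = e

/-- a covering of degree `d` with simple branch points `t i`, `i ∈ M`, and punctures over the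
other `t i` -/
structure Cov (Sg : Finset (Place ℂ F)) (f : F) (d : ℕ) {n : ℕ} (t : Fin n → ℂ)
    (M : Finset (Fin n)) : Prop where
  ind : AlgebraicIndependent ℚ t
  inf : Pls Sg f (-1) d
  gen : ∀ c, c ∉ Set.range t → Pls Sg (f - algebraMap ℂ F c) 1 d
  pun : ∀ i, i ∉ M → Pls Sg (f - algebraMap ℂ F (t i)) 1 (d - 1)
  bra : ∀ i ∈ M, Pls Sg (f - algebraMap ℂ F (t i)) 1 (d - 2) ∧
    Pls Sg (f - algebraMap ℂ F (t i)) 2 1

end Pool.Agent.GR.GE
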