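import Pool.Agent.Lib.MP_aa40d3_nt.GE.DB
import Pool.Agent.Lib.MP_aa40d3_nt.GE.CA

/-! A generic function. -/

set_option linter.unusedSectionVars false

open Polynomial Module
open scoped Polynomial.Bivariate IntermediateField

namespace Pool.Agent.GR.GE

open Pool.Agent.Lib.MP_a01f70_lc.QQ Pool.Agent.GR.CV

variable {F : Type} [Field F] [Algebra ℂ F]

variable [IsFF F]

theorem ga_reg {Sg : Finset (Place ℂ F)} {x : F} (hx : Transcendental ℂ x) {κ : Finset ℂ}
    (hκ : ∀ p : Place ℂ F, ram p x ≠ 1 ∨ p ∈ Sg → val p x ∈ acl (κ : Set ℂ))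
    {θ : Derivation ℤ F F} {δ : Derivation ℤ ℂ ℂ} (h1 : Kills δ κ) (h2 : Ext θ δ) (h3 : θ x = 0)
    (p : Place ℂ F) : Reg θ p := by
  by_cases hp : ram p x = 1
  · exact h2.reg hx h3 hp
  · exact (h2.lg hx h3 (h1.acl _ (hκ p (Or.inl hp)))).reg

theorem ga_sub {x : F} (hx : Transcendental ℂ x) (a : ℂ) :
    Transcendental ℂ (x - algebraMap ℂ F a) := fun h => hx (by
  have := h.add (isAlgebraic_algebraMap (R := ℂ) (A := F) a)
  rwa [sub_add_cancel] at this)

theorem ga_div {d : ℕ} {q : Fin d → Place ℂ F} (hq : Function.Injective q) :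
    ∃ E : Div ℂ F, deg E = d ∧ (∀ j, E (q j) = 1) ∧ ∀ p, p ∉ Set.range q → E p = 0 := by
  classical
  refine ⟨∑ j, Finsupp.single (q j) 1, by simp [map_sum], fun j => ?_, fun p hp => ?_⟩
  · rw [Finsupp.finsetSum_apply, Finset.sum_eq_single j, Finsupp.single_eq_same]
    · exact fun i _ hi => Finsupp.single_eq_of_ne' fun h => hi (hq h)
    · simp
  · rw [Finsupp.finsetSum_apply]
    exact Finset.sum_eq_zero fun i _ => Finsupp.single_eq_of_ne' fun h => hp ⟨i, h⟩

theorem ga_sum {θ : Derivation ℤ F F} {δ : Derivation ℤ ℂ ℂ} (h : Ext θ δ) {m : ℕ} (c : Fin m → ℂ)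
    {b : Fin m → F} (hb : ∀ i, θ (b i) = 0) : θ (∑ i, c i • b i) = ∑ i, δ (c i) • b i := by
  rw [map_sum]
  exact Finset.sum_congr rfl fun i _ => by rw [h.smul, hb, smul_zero, zero_add]

theorem exists_generic (R : RRData ℂ F) (Sg : Finset (Place ℂ F)) {x : F}
    (hx : Transcendental ℂ x) (κ : Finset ℂ)
    (hκ : ∀ p : Place ℂ F, ram p x ≠ 1 ∨ p ∈ Sg → val p x ∈ acl (κ : Set ℂ)) {d : ℕ}
    (hd : 2 * R.g ≤ d) (h0 : 0 < d) :
    ∃ (f : F) (q : Fin d → Place ℂ F) (e : ℕ) (c : Fin e → ℂ), Function.Injective q ∧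
      (∀ j, q j ∉ Sg ∧ (q j).ord f = -1) ∧ (∀ p, p ∉ Set.range q → p.Ge f 0) ∧
      (e : ℤ) = 2 * d + 1 - R.g ∧ AlgebraicIndependent (acl (κ : Set ℂ)) c ∧
      ∀ (θ : Derivation ℤ F F) (δ : Derivation ℤ ℂ ℂ), Kills δ κ → Ext θ δ → θ x = 0 → θ f = 0 →
        ∀ i, δ (c i) = 0 := by
  classical
  have hg0 := R.g_nonneg
  obtain ⟨m, hm⟩ : ∃ m : ℕ, (m : ℤ) = d + 1 - R.g := ⟨(d + 1 - R.g).toNat, by omega⟩
  obtain ⟨c, hc⟩ := exists_indep κ (Fin d ⊕ Fin m)
  choose q hq using fun j : Fin d => exists_zero R (ga_sub hx (c (.inl j)))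
  have hval : ∀ j, val (q j) x = c (.inl j) := fun j => val_eq (Place.Ge.of_le (hq j))
  have hnot : ∀ j, ¬(ram (q j) x ≠ 1 ∨ q j ∈ Sg) := fun j h =>
    hc.transcendental (.inl j) (by
      have h1 := hκ _ h
      rw [hval] at h1
      exact isAlgebraic_algebraMap (⟨_, h1⟩ : acl (κ : Set ℂ)))
  have hinj : Function.Injective q := fun i j h =>
    Sum.inl_injective (hc.injective (by rw [← hval, ← hval, h]))
  obtain ⟨E, hE, hE1, hE0⟩ := ga_div hinj
  have := R.fd E
  have hl : finrank ℂ (L E) = m := by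
    have h1 := R.ell_large (D := E) (by omega)
    unfold ell at h1
    omega
  have hr : (q ⟨0, h0⟩).ord (x - algebraMap ℂ F (c (.inl ⟨0, h0⟩))) = 1 := by
    have h1 := not_not.1 (not_or.1 (hnot ⟨0, h0⟩)).1
    rwa [ram, hval] at h1
  obtain ⟨φ, hφ, hφx⟩ := exists_at _ hr
  obtain ⟨b₀, hb₀⟩ := echelon (L E) φ
  let b : Basis (Fin m) ℂ (L E) := b₀.reindex (finCongr hl)
  have hb : ∀ (θ : Derivation ℤ F F) (δ : Derivation ℤ ℂ ℂ), Kills δ κ → Ext θ δ → θ x = 0 →
      (∀ j, δ (c (.inl j)) = 0) → ∀ i, θ (b i) = 0 := fun θ δ h1 h2 h3 h4 i => by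
    rw [Basis.reindex_apply]
    refine hb₀ θ δ (h2.comm hφ (ga_sub hx (c (.inl ⟨0, h0⟩))) ?_ ?_) (fun u => L_stab fun p => ?_) _
    · rw [map_sub, h3, h2, h4, map_zero, sub_zero]
    · rw [hφx]
      exact single_cd δ 1
    · by_cases hp : p ∈ Set.range q
      · obtain ⟨j, rfl⟩ := hp
        exact Or.inl (h2.lg hx h3 (by rw [hval, h4]))
      · exact Or.inr ⟨hE0 p hp, ga_reg hx hκ h1 h2 h3 p⟩
  have hf : ∑ i, c (.inr i) • (b i : F) ∈ L E :=
    Submodule.sum_mem _ fun i _ => Submodule.smul_mem _ _ (b i).2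
  have hpole : ∀ j, (q j).ord (∑ i, c (.inr i) • (b i : F)) = -1 := fun j => by
    have h1 := mem_L.1 hf (q j)
    rw [hE1] at h1
    suffices h : ¬(q j).Ge (∑ i, c (.inr i) • (b i : F)) 0 by
      obtain ⟨h2, h3⟩ := Place.not_ge_iff.1 h
      have := h1.le h2
      omega
    intro h
    have h2 : ∀ i, (q j).Ge (b i : F) 0 := fun i => by
      obtain ⟨δ, h3, h4, h5⟩ := exists_dual _ hc (.inr i)
      have h3' : Kills δ κ := fun a ha => h3 a (subset_acl _ ha)
      obtain ⟨θ, h6, h7⟩ := exists_ext δ hx 0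
      have h8 := ga_reg hx hκ h3' h6 h7 (q j) _ h
      rw [ga_sum h6 _ (hb θ δ h3' h6 h7 fun l => h5 _ (by simp)), Finset.sum_eq_single i, h4,
        one_smul] at h8
      · exact h8
      · exact fun l _ hl => by rw [h5 _ (by simpa using hl), zero_smul]
      · simp
    have h3 : L E ≤ L (E - Finsupp.single (q j) 1) := fun u hu => mem_L.2 fun p => by
      by_cases hp : p = q j
      · subst hp
        have h4 := congrArg Subtype.val (b.sum_repr ⟨u, hu⟩)
        rw [Submodule.coe_sum] at h4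
        rw [Finsupp.sub_apply, hE1, Finsupp.single_eq_same, sub_self, neg_zero]
        exact (show _ = u from h4) ▸ Place.Ge.sum fun i _ => (h2 i).smul _
      · rw [Finsupp.sub_apply, Finsupp.single_eq_of_ne hp, sub_zero]
        exact mem_L.1 hu p
    have := R.fd (E - Finsupp.single (q j) 1)
    have h4 := Submodule.finrank_mono h3
    have h5 := R.ell_large (D := E - Finsupp.single (q j) 1) (by rw [map_sub, deg_single]; omega)
    rw [map_sub, deg_single] at h5
    unfold ell at h5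
    omega
  refine ⟨_, q, d + m, c ∘ finSumFinEquiv.symm, hinj, fun j => ⟨(not_or.1 (hnot j)).2, hpole j⟩,
    fun p hp => ?_, by push_cast; omega, hc.comp _ finSumFinEquiv.symm.injective,
    fun θ δ h1 h2 h3 h4 => ?_⟩
  · have h1 := mem_L.1 hf p
    rwa [hE0 p hp, neg_zero] at h1
  · have h5 : ∀ j, δ (c (.inl j)) = 0 := fun j => by
      have h6 := h2.lg (transcendental_of_ord (q j) (by rw [hpole]; omega)) h4 (p := q j)
        (by rw [val_pole (by rw [hpole]; omega), map_zero]) _ _ (Place.Ge.of_le (m := 1) (hq j))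
      rw [map_sub, h3, h2, zero_sub] at h6
      exact Place.const_eq_zero_of_ge (by simpa using h6.neg)
    rw [ga_sum h2 _ (hb θ δ h1 h2 h3 h5)] at h4
    have h6 := Fintype.linearIndependent_iff.1
      (b.linearIndependent.map' (L E).subtype (Submodule.ker_subtype _)) _ h4
    intro i
    rw [Function.comp_apply]
    rcases finSumFinEquiv.symm i with j | j
    · exact h5 j
    · exact h6 j

end Pool.Agent.GR.GE
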