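import Pool.Agent.Lib.MP_aa40d3_nt.GE.DB
import Pool.Agent.Lib.MP_aa40d3_nt.GE.CA

/-! Descent of a covering to the field of its branch points. -/

set_option linter.unusedSectionVars false

open Polynomial Module
open scoped Polynomial.Bivariate IntermediateField

namespace Pool.Agent.GR.GE

open Pool.Agent.Lib.MP_a01f70_lc.QQ Pool.Agent.GR.CV

variable {F : Type} [Field F] [Algebra ℂ F]

variable [IsFF F]

/-- a primitive element with integer coefficients -/
theorem gb_prim {z w : F} (hz : Transcendental ℂ z) (hg : ℂ⟮z, w⟯ = ⊤) {m : ℕ} {b : Fin m → F}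
    (hw : w ∈ Submodule.span ℂ (Set.range b)) :
    ∃ n : ℕ, ℂ⟮z, ∑ i : Fin m, (n : F) ^ i.val * b i⟯ = ⊤ := by
  have := IsFF.fin hz
  have : CharZero ℂ⟮z⟯ := charZero_of_injective_algebraMap (algebraMap ℂ ℂ⟮z⟯).injective
  let A := AlgebraicClosure ℂ⟮z⟯
  have key : ∀ α : F, ℂ⟮z, α⟯ = ⊤ ↔ Function.Injective fun φ : F →ₐ[ℂ⟮z⟯] A => φ α := fun α => by
    rw [← IntermediateField.adjoin_simple_adjoin_simple,
      IntermediateField.restrictScalars_eq_top_iff,
      Field.primitive_element_iff_algHom_eq_of_eval' _ A fun _ => IsAlgClosed.splits _]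
  have h1 : ∀ p : (F →ₐ[ℂ⟮z⟯] A) × (F →ₐ[ℂ⟮z⟯] A), {n : ℕ | p.1 ≠ p.2 ∧
      p.1 (∑ i : Fin m, (n : F) ^ i.val * b i) =
        p.2 (∑ i : Fin m, (n : F) ^ i.val * b i)}.Finite := by
    rintro ⟨s, t⟩
    by_cases h : s = t
    · simp [h]
    have h0 : (∑ i : Fin m, monomial i.val (s (b i) - t (b i)) : A[X]) ≠ 0 := fun e => by
      refine h ((key w).1 hg ?_)
      have e1 : ∀ i, s (b i) = t (b i) := fun i => by
        simpa [coeff_monomial, Fin.val_inj, sub_eq_zero] using congrArg (coeff · i.val) e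
      refine Submodule.span_induction (p := fun x _ => s x = t x) ?_ (by simp)
        (fun x y _ _ hx hy => by rw [map_add, map_add, hx, hy]) (fun c x _ hx => ?_) hw
      · rintro _ ⟨i, rfl⟩
        exact e1 i
      · rw [← algebraMap_smul ℂ⟮z⟯ c x, map_smul, map_smul, hx]
    refine ((finite_setOfPred_isRoot h0).preimage (f := Nat.cast) Nat.cast_injective.injOn).subset
      fun n hn => ?_
    have e := sub_eq_zero.2 hn.2
    simp only [map_sum, map_mul, map_pow, map_natCast] at e
    simpa [eval_finsetSum, sub_mul, mul_comm _ (_ ^ _)] using e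
  obtain ⟨n, hn⟩ := (Set.finite_iUnion h1).infinite_compl.nonempty
  exact ⟨n, (key _).2 fun s t e => not_not.1 fun h => hn (Set.mem_iUnion.2 ⟨(s, t), h, e⟩)⟩

theorem gb2_ex {A : Type} [CommRing A] (d : A →+ A) :
    ∃ D : A[X] →+ A[X], (∀ n a, D (monomial n a) = monomial n (d a)) ∧
      ∀ p n, (D p).coeff n = d (p.coeff n) := by
  let D : A[X] →+ A[X] := AddMonoidHom.mk' (fun p => p.sum fun n a => monomial n (d a))
    fun p q => sum_add_index p q _ (fun n => by rw [map_zero, map_zero])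
      fun n a b => by rw [map_add, map_add]
  have h : ∀ n a, D (monomial n a) = monomial n (d a) := fun n a =>
    sum_monomial_index a (fun n a => monomial n (d a)) (by rw [map_zero, map_zero])
  refine ⟨D, h, fun p n => ?_⟩
  induction p using Polynomial.induction_on' with
  | add p q hp hq => rw [map_add, coeff_add, coeff_add, map_add, hp, hq]
  | monomial m a =>
    rw [h, coeff_monomial, coeff_monomial]
    split_ifs
    exacts [rfl, (map_zero d).symm]

theorem gb2_mul (θ : Derivation ℤ F F) {z : F} (hz : θ z = 0) (a : F) (n : ℕ) :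
    θ (a * z ^ n) = θ a * z ^ n := by
  rw [θ.leibniz, θ.leibniz_pow, hz, smul_zero, smul_zero, smul_zero, zero_add, smul_eq_mul,
    mul_comm]

/-- the coefficients of the equation are killed -/
theorem gb_coeff {z w : F} {P : ℂ[X][Y]} (h : Model z w P) {θ : Derivation ℤ F F}
    {δ : Derivation ℤ ℂ ℂ} (hθ : Ext θ δ) (hz : θ z = 0) (hw : θ w = 0) (i j : ℕ) :
    δ ((P.coeff i).coeff j) = 0 := by
  obtain ⟨D1, m1, c1⟩ := gb2_ex (AddMonoidHom.mk' δ (map_add δ))
  obtain ⟨D2, m2, c2⟩ := gb2_ex D1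
  have k1 : ∀ p : ℂ[X], θ (aeval z p) = aeval z (D1 p) := fun p => by
    induction p using Polynomial.induction_on' with
    | add p q hp hq => rw [map_add, map_add, map_add, map_add, hp, hq]
    | monomial m a =>
      rw [m1, aeval_monomial, aeval_monomial, gb2_mul θ hz, hθ]
      rfl
  have k2 : ∀ Q : ℂ[X][Y], θ (aevalAeval z w Q) = aevalAeval z w (D2 Q) := fun Q => by
    induction Q using Polynomial.induction_on' with
    | add p q hp hq => rw [map_add, map_add, map_add, map_add, hp, hq]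
    | monomial m a =>
      rw [m2, ← C_mul_X_pow_eq_monomial, ← C_mul_X_pow_eq_monomial, map_mul (aevalAeval z w),
        map_mul (aevalAeval z w), map_pow, aevalAeval_C, aevalAeval_C, aevalAeval_Y, gb2_mul θ hw,
        k1]
  have one : D1 1 = 0 := by
    rw [← monomial_zero_one, m1]
    exact (congrArg _ δ.map_one_eq_zero).trans (map_zero _)
  have hd : (D2 P).degree < P.degree := by
    rw [degree_eq_natDegree h.monic.ne_zero, degree_lt_iff_coeff_zero]
    intro m hm
    rw [c2]
    rcases hm.eq_or_lt with e | e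
    · rw [← e, h.monic.coeff_natDegree, one]
    · rw [coeff_eq_zero_of_natDegree_lt e, map_zero]
  have h0 : D2 P = 0 := eq_zero_of_dvd_of_degree_lt
    (h.dvd (by rw [← k2, h.root, map_zero])) hd
  have e := c1 (P.coeff i) j
  rw [← c2, h0] at e
  exact e.symm


theorem descent (R : RRData ℂ F) {f : F} {q : Place ℂ F} (hq : q.ord f = -1) (T : Set ℂ)
    (hT : ∀ p : Place ℂ F, p.Ge f 0 → ram p f ≠ 1 → val p f ∈ T) :
    ∃ (w : F) (P : ℂ[X][Y]), Model f w P ∧ ∀ i j, (P.coeff i).coeff j ∈ acl T := by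
  classical
  have hf := transcendental_of_ord q (z := f) (by omega)
  obtain ⟨w, hg, hw⟩ := exists_int hf
  let D : Div ℂ F := (-dv w).filter fun p => ¬ p.Ge f 0
  have hD : ∀ p : Place ℂ F, p.Ge f 0 → D p = 0 := fun p hp =>
    Finsupp.filter_apply_neg _ _ (not_not.2 hp)
  have hwD : w ∈ L D := mem_L.2 fun p => by
    by_cases hp : p.Ge f 0
    · exact (hw p hp).mono (by rw [hD p hp, neg_zero])
    · rw [Finsupp.filter_apply, if_pos hp, Finsupp.neg_apply, neg_neg, dv_apply R.fin]
      exact p.ge_ord w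
  have := R.fd D
  obtain ⟨φ, hφ, hs⟩ := exists_at q (π := f⁻¹) (by rw [Place.ord_inv, hq, neg_neg])
  obtain ⟨b, hb⟩ := echelon (L D) φ
  obtain ⟨n, hn⟩ := gb_prim hf hg (b := fun i => b i) (by
    have h1 := Submodule.apply_mem_span_image_of_mem_span (L D).subtype (b.mem_span ⟨w, hwD⟩)
    rwa [← Set.range_comp] at h1)
  obtain ⟨P, hP⟩ := exists_model hf hn fun p hp => Place.Ge.sum fun i _ => by
    have h1 := mem_L.1 (b i).2 p
    rw [hD p hp] at h1
    simpa using (p.ge_const ((n : ℂ) ^ i.val)).mul h1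
  refine ⟨_, P, hP, fun i j => mem_acl_of_der fun δ hδ => ?_⟩
  obtain ⟨θ, hθ, h0⟩ := exists_ext δ hf 0
  have h1 := hb θ δ (hθ.comm hφ hf h0 (by rw [← inv_inv f, map_inv₀, hs, sL_inv, single_cd]))
    fun u => L_stab fun p => by
      by_cases hp : p.Ge f 0
      · by_cases hr : ram p f = 1
        · exact Or.inr ⟨hD p hp, hθ.reg hf h0 hr⟩
        · exact Or.inl (hθ.lg hf h0 (hδ _ (hT p hp hr)))
      · exact Or.inl (hθ.lg hf h0 (by rw [val_pole (Place.not_ge_iff.1 hp).2, map_zero]))
  refine gb_coeff hP hθ h0 ?_ i j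
  rw [map_sum]
  exact Finset.sum_eq_zero fun i _ => by
    rw [θ.leibniz, h1, ← Nat.cast_pow, θ.map_natCast, smul_zero, smul_zero, add_zero]

end Pool.Agent.GR.GE
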