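import Pool.Agent.Lib.MP_aa40d3_nt.GE.RA

/-! The trace dual of the integral closure in the tame case. -/

set_option linter.unusedSectionVars false

open Polynomial Module
open scoped Polynomial.Bivariate IntermediateField

namespace Pool.Agent.GR.GE

open Pool.Agent.Lib.MP_a01f70_lc.QQ Pool.Agent.GR.CV

variable {F : Type} [Field F] [Algebra ℂ F]

/-- a valuation of the algebraic closure that extends the place -/
theorem rc2_val (v : Place ℂ F) : ∃ B : ValuationSubring (AlgebraicClosure F),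
    (∀ u, v.Ge u 0 → B.valuation (algebraMap F _ u) ≤ 1) ∧
      ∀ u, v.Ge u 1 → B.valuation (algebraMap F _ u) < 1 := by
  let O : ValuationSubring F :=
    { carrier := {f | v.Ge f 0}
      mul_mem' := fun ha hb => by simpa using ha.mul hb
      one_mem' := v.ge_one
      add_mem' := fun ha hb => ha.add hb
      zero_mem' := v.ge_zero 0
      neg_mem' := fun ha => ha.neg
      mem_or_inv_mem' := fun f => (le_total 0 (v.ord f)).imp Place.Ge.of_le fun e =>
        Place.Ge.of_le (by rw [v.ord_inv]; omega) }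
  obtain ⟨B, h1, h2⟩ := IsLocalRing.exists_factor_valuationRing
    ((algebraMap F (AlgebraicClosure F)).comp O.subtype)
  refine ⟨B, fun u hu => (B.valuation_le_one_iff _).2 (h1 ⟨u, hu⟩), fun u hu => ?_⟩
  refine (B.valuation_lt_one_iff ⟨_, h1 ⟨u, hu.mono zero_le_one⟩⟩).1 fun e => ?_
  obtain ⟨y, hy⟩ := (h2.map_nonunit ⟨u, hu.mono zero_le_one⟩ e).exists_right_inv
  have h3 : v.Ge (u * y.1) (1 + 0) := hu.mul y.2
  rw [show u * y.1 = 1 from congrArg Subtype.val hy] at h3
  simpa using h3.le one_ne_zero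

variable [Algebra ℂ[X] F] [Algebra (RatFunc ℂ) F] [IsScalarTower ℂ ℂ[X] F]
  [IsScalarTower ℂ[X] (RatFunc ℂ) F] [IsScalarTower ℂ (RatFunc ℂ) F]
  [FiniteDimensional (RatFunc ℂ) F] {B : ValuationSubring (AlgebraicClosure F)}

theorem rc2_int (h0 : ∀ q : ℂ[X], B.valuation (algebraMap F _ (algebraMap ℂ[X] F q)) ≤ 1)
    (σ : F →ₐ[RatFunc ℂ] AlgebraicClosure F) {u : F} (hu : IsIntegral ℂ[X] u) :
    B.valuation (σ u) ≤ 1 := by
  obtain ⟨P, h1, h2⟩ := hu
  let g : ℂ[X] →+* B := ((algebraMap F _).comp (algebraMap ℂ[X] F)).codRestrict B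
    fun q => (B.valuation_le_one_iff _).1 (h0 q)
  have e : (algebraMap B (AlgebraicClosure F)).comp g =
      (σ : F →+* AlgebraicClosure F).comp (algebraMap ℂ[X] F) := RingHom.ext fun q => by
    change algebraMap F _ (algebraMap ℂ[X] F q) = σ (algebraMap ℂ[X] F q)
    rw [← algebraMap_poly_rat, σ.commutes, ← IsScalarTower.algebraMap_apply]
  have h3 : IsIntegral B (σ u) := ⟨P.map g, h1.map g, by
    rw [eval₂_map, e]
    exact (hom_eval₂ P _ (σ : F →+* AlgebraicClosure F) u).symm.trans (by rw [h2, map_zero])⟩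
  obtain ⟨y, hy⟩ := IsIntegrallyClosed.isIntegral_iff.1 h3
  exact hy ▸ B.valuation_le_one y

theorem rc2_nil (h0 : ∀ q : ℂ[X], B.valuation (algebraMap F _ (algebraMap ℂ[X] F q)) ≤ 1)
    {r : ℂ[X]} (hr : r ≠ 0) (h1 : B.valuation (algebraMap F _ (algebraMap ℂ[X] F r)) < 1)
    (σ : F →ₐ[RatFunc ℂ] AlgebraicClosure F) {u : F} (hu : IsIntegral ℂ[X] u)
    (h2 : ∀ p ∈ FinSet ℂ F, 0 < p.ord (algebraMap ℂ[X] F r) → p.Ge u 1) :
    B.valuation (σ u) < 1 := by
  have hr' := algebraMap_poly_ne_zero (K := F) hr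
  obtain ⟨N, hN⟩ := ((finite_finSet (k := ℂ) (algebraMap ℂ[X] F r)).image
    fun p => (p.ord (algebraMap ℂ[X] F r)).toNat).bddAbove
  have h3 : IsIntegral ℂ[X] (u ^ N * (algebraMap ℂ[X] F r)⁻¹) := by
    refine (isIntegral_iff_ge _).2 fun p hp => ?_
    rw [Place.ge_mul_iff (inv_ne_zero hr'), p.ord_inv]
    by_cases e : 0 < p.ord (algebraMap ℂ[X] F r)
    · have : (p.ord (algebraMap ℂ[X] F r)).toNat ≤ N := hN ⟨p, ⟨hp, e.ne'⟩, rfl⟩
      exact ((h2 p hp e).pow N).mono (by omega)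
    · exact ((ded_ge_int hp hu).pow N).mono (by omega)
  have h4 : σ u ^ N = σ (u ^ N * (algebraMap ℂ[X] F r)⁻¹) *
      algebraMap F _ (algebraMap ℂ[X] F r) := by
    have e : algebraMap F _ (algebraMap ℂ[X] F r) = σ (algebraMap ℂ[X] F r) := by
      rw [← algebraMap_poly_rat, σ.commutes, ← IsScalarTower.algebraMap_apply]
    rw [← map_pow, e, ← map_mul, inv_mul_cancel_right₀ hr']
  refine lt_of_le_of_ne (rc2_int h0 σ hu) fun e => ?_
  have h5 := congrArg B.valuation h4
  rw [map_pow, e, one_pow, map_mul] at h5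
  exact absurd h5.le (not_le.2 (mul_lt_one_of_nonneg_of_lt_one_right (rc2_int h0 σ h3) zero_le h1))

theorem can_eq [IsFF F] {Kc : Div ℂ F} (hK : IsCan Kc) {v : Place ℂ F} (hv : v ∈ FinSet ℂ F) :
    Kc v = ram v (xx ℂ F) - 1 := by
  classical
  obtain ⟨B, b0, b1⟩ := rc2_val v
  have h0 := fun q : ℂ[X] => b0 _ (ge_poly hv q)
  have hc : ∀ a : ℂ, B.valuation (algebraMap F _ (algebraMap ℂ F a)) < 1 → a = 0 := fun a ha => by
    by_contra e
    have := mul_lt_one_of_nonneg_of_lt_one_left zero_le ha (b0 _ (v.ge_const a⁻¹))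
    rw [← map_mul, ← map_mul, ← map_mul, mul_inv_cancel₀ e, map_one, map_one, map_one] at this
    exact lt_irrefl _ this
  have htr : ∀ u : F, IsIntegral ℂ[X] u → ∃ q : ℂ[X],
      Algebra.trace (RatFunc ℂ) F u = algebraMap ℂ[X] (RatFunc ℂ) q := fun u hu =>
    ((IsIntegrallyClosed.isIntegral_iff (R := ℂ[X]) (K := RatFunc ℂ)).1
      (Algebra.isIntegral_trace (L := RatFunc ℂ) hu)).imp fun _ h => h.symm
  have hs : ∀ (u : F) (q : ℂ[X]), Algebra.trace (RatFunc ℂ) F u = algebraMap ℂ[X] (RatFunc ℂ) q →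
      algebraMap F _ (algebraMap ℂ[X] F q) = ∑ σ : F →ₐ[RatFunc ℂ] AlgebraicClosure F, σ u :=
    fun u q e => by
    rw [← trace_eq_sum_embeddings, e, ← algebraMap_poly_rat, ← IsScalarTower.algebraMap_apply]
  obtain ⟨c, hcv⟩ : ∃ c, c = val v (xx ℂ F) := ⟨_, rfl⟩
  have hr : (X - C c : ℂ[X]) ≠ 0 := X_sub_C_ne_zero c
  have hr' := algebraMap_poly_ne_zero (K := F) hr
  have he : ram v (xx ℂ F) = v.ord (algebraMap ℂ[X] F (X - C c)) := by
    rw [algebraMap_X_sub_C, ram, hcv]
  have h1 : v.Ge (algebraMap ℂ[X] F (X - C c)) 1 := by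
    rw [algebraMap_X_sub_C, hcv]
    exact val_ge (Or.inr hv)
  have hm : ∀ g : F, Algebra.trace (RatFunc ℂ) F (g * algebraMap ℂ[X] F (X - C c)) =
      algebraMap ℂ[X] (RatFunc ℂ) (X - C c) * Algebra.trace (RatFunc ℂ) F g := fun g => by
    rw [mul_comm, ← algebraMap_poly_rat, ← Algebra.smul_def, map_smul, smul_eq_mul]
  have hg : ∀ (m : ℤ) (g : F), g ∈ LS (FinSet ℂ F) (Finsupp.single v m) → ∀ p ∈ FinSet ℂ F, p ≠ v →
      p.Ge (g * algebraMap ℂ[X] F (X - C c)) (p.ord (algebraMap ℂ[X] F (X - C c))) :=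
    fun m g hg p hp e => by
    rw [Place.ge_mul_iff hr', sub_self]
    simpa [Finsupp.single_eq_of_ne e] using hg p hp
  rw [he]
  apply le_antisymm
  · by_contra hlt
    obtain ⟨g, g1, g0, g2⟩ := exists_mem_LS_ord_eq
      (Finsupp.single v (v.ord (algebraMap ℂ[X] F (X - C c)))) hv
    rw [Finsupp.single_eq_same] at g2
    have hone := (hK 1).2 fun f hf => by simpa using htr f hf
    obtain ⟨q, hq⟩ := (hK g).1 (fun p hp => by
      by_cases e : p = v
      · exact Place.Ge.of_le (by rw [e, g2]; omega)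
      · have := (hone p hp).le one_ne_zero
        rw [p.ord_one] at this
        exact (g1 p hp).mono (by rw [Finsupp.single_eq_of_ne e]; omega)) 1 isIntegral_one
    obtain ⟨u, hu⟩ : ∃ u, u = g * algebraMap ℂ[X] F (X - C c) := ⟨_, rfl⟩
    have u0 : v.ord u = 0 := by rw [hu, v.ord_mul g0 hr', g2, neg_add_cancel]
    have u1 : IsIntegral ℂ[X] u := (isIntegral_iff_ge _).2 fun p hp => by
      by_cases e : p = v
      · exact Place.Ge.of_le (by rw [e, u0])
      · exact hu ▸ (hg _ g g1 p hp e).mono ((ge_poly hp _).le hr')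
    obtain ⟨a, ha⟩ := resPl' v u (Place.Ge.of_le u0.ge)
    have u2 : IsIntegral ℂ[X] (u - algebraMap ℂ F a) := u1.sub (ded_int_const a)
    let T : Finset (F →ₐ[RatFunc ℂ] AlgebraicClosure F) :=
      Finset.univ.filter fun σ => B.valuation (σ (u - algebraMap ℂ F a)) < 1
    have ca : ∀ σ : F →ₐ[RatFunc ℂ] AlgebraicClosure F,
        σ (algebraMap ℂ F a) = algebraMap F _ (algebraMap ℂ F a) := fun σ => by
      rw [IsScalarTower.algebraMap_apply ℂ (RatFunc ℂ) F, σ.commutes,
        IsScalarTower.algebraMap_apply (RatFunc ℂ) F (AlgebraicClosure F)]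
    have h2 : B.valuation (∑ σ : F →ₐ[RatFunc ℂ] AlgebraicClosure F,
        (σ u - if σ ∈ T then algebraMap F _ (algebraMap ℂ F a) else 0)) < 1 := by
      refine B.valuation.map_sum_lt one_ne_zero fun σ _ => ?_
      by_cases e : σ ∈ T
      · rw [if_pos e, ← ca σ, ← map_sub]
        exact (Finset.mem_filter.1 e).2
      · have h3 := rc2_nil h0 hr (b1 _ h1) σ (u1.mul u2) fun p hp hp' => by
          by_cases e' : p = v
          · simpa [e'] using (Place.Ge.of_le u0.ge).mul ha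
          · simpa using ((hu ▸ hg _ g g1 p hp e' : p.Ge u _).mono hp').mul (ded_ge_int hp u2)
        rw [map_mul, map_mul, le_antisymm (rc2_int h0 σ u2) (not_lt.1 fun e' =>
          e (Finset.mem_filter.2 ⟨Finset.mem_univ _, e'⟩)), mul_one] at h3
        rwa [if_neg e, sub_zero]
    have h4 := hs u ((X - C c) * q) (by rw [hu, hm, ← one_mul g, hq, map_mul])
    rw [Finset.sum_sub_distrib, ← h4, Finset.sum_ite_mem, Finset.univ_inter, Finset.sum_const,
      ← map_nsmul, ← map_nsmul] at h2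
    have h5 : B.valuation (algebraMap F _ (algebraMap ℂ[X] F ((X - C c) * q))) < 1 := by
      rw [map_mul]
      exact b1 _ (by simpa using h1.mul (ge_poly hv q))
    have h6 := hc _ (by simpa only [sub_sub_cancel] using B.valuation.map_sub_lt h5 h2)
    have h7 : a ≠ 0 := fun e => by
      rw [e, map_zero, sub_zero] at ha
      have := ha.le (hu ▸ mul_ne_zero g0 hr')
      omega
    have h8 : IsScalarTower.toAlgHom (RatFunc ℂ) F _ ∈ T :=
      Finset.mem_filter.2 ⟨Finset.mem_univ _, b1 _ ha⟩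
    exact smul_ne_zero (Finset.card_ne_zero_of_mem h8) h7 h6
  · obtain ⟨g, g1, g0, g2⟩ := exists_mem_LS_ord_eq
      (Finsupp.single v (v.ord (algebraMap ℂ[X] F (X - C c)) - 1)) hv
    rw [Finsupp.single_eq_same] at g2
    have := ((hK g).2 (fun f hf => ?_) v hv).le g0
    · omega
    have g3 := mul_mem_LS (D := 0) (fun p hp => by simpa using ded_ge_int hp hf) g1
    rw [zero_add] at g3
    have u0 : v.Ge (f * g * algebraMap ℂ[X] F (X - C c)) 1 := by
      rw [Place.ge_mul_iff hr']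
      simpa using g3 v hv
    have u1 : IsIntegral ℂ[X] (f * g * algebraMap ℂ[X] F (X - C c)) :=
      (isIntegral_iff_ge _).2 fun p hp => by
        by_cases e : p = v
        · exact e ▸ u0.mono zero_le_one
        · exact (hg _ _ g3 p hp e).mono ((ge_poly hp _).le hr')
    obtain ⟨q, hq⟩ := htr _ u1
    have h2 : B.valuation (algebraMap F _ (algebraMap ℂ[X] F q)) < 1 := by
      rw [hs _ q hq]
      refine B.valuation.map_sum_lt one_ne_zero fun σ _ =>
        rc2_nil h0 hr (b1 _ h1) σ u1 fun p hp hp' => ?_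
      by_cases e : p = v
      · exact e ▸ u0
      · exact (hg _ _ g3 p hp e).mono hp'
    obtain ⟨r, e⟩ := X_sub_C_dvd_sub_C_eval (p := q) (a := c)
    have h3 : B.valuation (algebraMap F _ (algebraMap ℂ[X] F (q - C (q.eval c)))) < 1 := by
      rw [e, map_mul]
      exact b1 _ (by simpa using h1.mul (ge_poly hv r))
    have h4 := hc (q.eval c) (by
      have := B.valuation.map_sub_lt h2 h3
      rwa [← map_sub, ← map_sub, sub_sub_cancel, ← algebraMap_eq,
        ← IsScalarTower.algebraMap_apply ℂ ℂ[X] F] at this)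
    rw [h4, map_zero, sub_zero] at e
    refine ⟨r, mul_left_cancel₀ ((map_ne_zero_iff _ (IsFractionRing.injective ℂ[X] (RatFunc ℂ))).2
      hr) ?_⟩
    rw [← hm, hq, e, map_mul]

end Pool.Agent.GR.GE
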