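import Pool.Agent.Lib.MP_aa40d3_nt.GE.DA

/-! Differentials: the divisor of a differential and the genus. -/

set_option linter.unusedSectionVars false

open Polynomial Module
open scoped Polynomial.Bivariate IntermediateField

namespace Pool.Agent.GR.GE

open Pool.Agent.Lib.MP_a01f70_lc.QQ Pool.Agent.GR.CV

variable {F : Type} [Field F] [Algebra ℂ F]

theorem rc31_cd (a : LS') : cd 0 a = 0 := by
  ext k
  rfl

theorem rc31_const {θ : Derivation ℤ F F} (hθ : Ext θ 0) (c : ℂ) : θ (algebraMap ℂ F c) = 0 := by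
  rw [hθ c, Derivation.zero_apply, map_zero]

theorem rc31_alg {θ : Derivation ℤ F F} (hθ : Ext θ 0) {b : F} (hb : ¬ Transcendental ℂ b) :
    θ b = 0 := by
  have h : IsIntegral ℂ b := (not_not.1 hb : IsAlgebraic ℂ b).isIntegral
  obtain ⟨c, rfl⟩ := minpoly.mem_range_of_degree_eq_one ℂ b
    (IsAlgClosed.degree_eq_one_of_irreducible ℂ (minpoly.irreducible h))
  exact rc31_const hθ c

/-- the same derivation over the complex numbers -/
noncomputable def rc31_der {θ : Derivation ℤ F F} (hθ : Ext θ 0) : Derivation ℂ F F :=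
  Derivation.mk'
    { toFun := θ
      map_add' := map_add θ
      map_smul' := fun c a => by
        rw [Algebra.smul_def, Algebra.smul_def, θ.leibniz, rc31_const hθ, smul_zero, add_zero]
        rfl }
    θ.leibniz

theorem rc31_ne {θ : Derivation ℤ F F} (hθ : Ext θ 0) {z : F} (h1 : θ z = 1) :
    KaehlerDifferential.D ℂ F z ≠ 0 := fun h0 => by
  have h := (rc31_der hθ).liftKaehlerDifferential_comp_D z
  rw [h0, map_zero] at h
  exact zero_ne_one (h.trans h1)

variable [IsFF F]

/-- Take `φ` with `At φ p` (`p.surj`, `exists_at`); `Ext.loc` with `δ = 0` (`cd 0 a = 0`) gives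
`dS (φ z) * φ (θ u) = dS (φ u)`; compare orders with `At.order_dS`, `HahnSeries.order_mul`. -/
theorem ord_der {θ : Derivation ℤ F F} (hθ : Ext θ 0) {z : F} (hz : Transcendental ℂ z)
    (h1 : θ z = 1) {u : F} (hu : Transcendental ℂ u) (p : Place ℂ F) :
    θ u ≠ 0 ∧ ram p u - 1 = ram p z - 1 + p.ord (θ u) := by
  obtain ⟨π, -, hπ⟩ := p.surj
  obtain ⟨φ, hφ, -⟩ := exists_at p hπ
  have h := hθ.loc φ hz u
  rw [rc31_cd, rc31_cd, sub_zero, sub_zero, h1, map_one, mul_one] at h
  obtain ⟨a1, a2⟩ := hφ.order_dS hz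
  obtain ⟨b1, b2⟩ := hφ.order_dS hu
  have hne : φ (θ u) ≠ 0 := fun h0 => b1 (by rw [← h, h0, mul_zero])
  refine ⟨fun h0 => hne (by rw [h0, map_zero]), ?_⟩
  rw [← b2, ← h, HahnSeries.order_mul a1 hne, a2, hφ]

/-- For every `F`-linear functional `μ` on the differentials, `b ↦ μ (D b) - θ b * μ (D z)` is a
derivation that kills the constants and `z` (`der_along` with the identity), and functionals
separate (`Module.forall_dual_apply_eq_zero_iff`). -/
theorem D_eq {θ : Derivation ℤ F F} (hθ : Ext θ 0) {z : F} (hz : Transcendental ℂ z)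
    (h1 : θ z = 1) (b : F) :
    KaehlerDifferential.D ℂ F b = θ b • KaehlerDifferential.D ℂ F z := by
  rw [← sub_eq_zero]
  refine (Module.forall_dual_apply_eq_zero_iff F _).1 fun μ => ?_
  rw [map_sub, map_smul, smul_eq_mul]
  refine der_along (RingHom.id F)
    (fun a => μ (KaehlerDifferential.D ℂ F a) - θ a * μ (KaehlerDifferential.D ℂ F z))
    (fun a c => ?_) (fun a c => ?_) (fun c => ?_) hz ?_ b
  · rw [map_add, map_add, map_add]
    ring
  · rw [Derivation.leibniz, Derivation.leibniz, map_add, map_smul, map_smul]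
    simp only [smul_eq_mul, RingHom.id_apply]
    ring
  · rw [Derivation.map_algebraMap, map_zero, rc31_const hθ, zero_mul, sub_zero]
  · rw [h1, one_mul, sub_self]

theorem rc31_span {θ : Derivation ℤ F F} (hθ : Ext θ 0) {z : F} (hz : Transcendental ℂ z)
    (h1 : θ z = 1) {Kc : Div ℂ F} (hK : ∀ p, Kc p = ram p z - 1) (p : Place ℂ F) :
    Submodule.span ℂ
      {ω : Ω[F⁄ℂ] | ∃ a b : F, p.Ge a 0 ∧ p.Ge b 0 ∧ ω = a • KaehlerDifferential.D ℂ F b} =
    (LS {p} Kc).map
      ((LinearMap.toSpanSingleton F Ω[F⁄ℂ] (KaehlerDifferential.D ℂ F z)).restrictScalars ℂ) := by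
  refine le_antisymm (Submodule.span_le.2 ?_) ?_
  · rintro _ ⟨a, b, ha, hb, rfl⟩
    refine ⟨a * θ b, fun v hv => ?_, ?_⟩
    · obtain rfl : v = p := hv
      have h2 : v.Ge (θ b) (-Kc v) := by
        by_cases ht : Transcendental ℂ b
        · have h3 := (ord_der hθ hz h1 ht v).2
          have h4 := ram_pos ht hb
          have h5 := hK v
          exact Place.Ge.of_le (by omega)
        · exact Or.inl (rc31_alg hθ ht)
      have h3 := ha.mul h2
      rwa [zero_add] at h3
    · rw [D_eq hθ hz h1 b, smul_smul]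
      rfl
  · rintro _ ⟨h, hh, rfl⟩
    obtain ⟨π, -, hπ⟩ := p.surj
    have ht : Transcendental ℂ π := transcendental_of_ord p (by omega)
    have hv : val p π = 0 := val_eq (by
      rw [map_zero, sub_zero]
      exact Place.Ge.of_le hπ.ge)
    have hr : ram p π = 1 := by rw [ram, hv, map_zero, sub_zero, hπ]
    obtain ⟨h2, h3⟩ := ord_der hθ hz h1 ht p
    have h5 := hK p
    refine Submodule.subset_span ⟨h * (θ π)⁻¹, π, ?_, Place.Ge.of_le (by omega), ?_⟩
    · rw [Place.ge_mul_iff (inv_ne_zero h2), Place.ord_inv]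
      exact (hh p rfl).mono (by omega)
    · rw [D_eq hθ hz h1 π, smul_smul, inv_mul_cancel_right₀ h2]
      rfl

/-- `θ` is `ℂ`-linear, so it is a derivation over `ℂ` and `liftKaehlerDifferential` sends `D z` to 1;
hence `a ↦ a • D z` is an injective `ℂ`-linear map `e`.  The span at `p` in the definition of
`genus` is the image of `{h | p.Ge h (-Kc p)}`: for `b` regular at `p`, `θ b` is zero (`b`
constant) or has order `ram p b - 1 - Kc p ≥ -Kc p` (`ord_der`, `ram_pos`), with equality for a
uniformiser.  So the infimum is the image of `L Kc` (there is at least one place). -/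
theorem genus_eq {z : F} (hz : Transcendental ℂ z) {Kc : Div ℂ F} (p₀ : Place ℂ F)
    (hK : ∀ p, Kc p = ram p z - 1) : ell Kc = genus F := by
  obtain ⟨θ, hθ, h1⟩ := exists_ext 0 hz 1
  have : Nonempty (Place ℂ F) := ⟨p₀⟩
  have hinj : Function.Injective
      ((LinearMap.toSpanSingleton F Ω[F⁄ℂ] (KaehlerDifferential.D ℂ F z)).restrictScalars ℂ) :=
    smul_left_injective F (rc31_ne hθ h1)
  have hL : ⨅ p : Place ℂ F, LS {p} Kc = L Kc := by
    ext h
    rw [Submodule.mem_iInf, mem_L]
    exact forall_congr' fun p => ⟨fun H => H p rfl, fun H v hv => hv ▸ H⟩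
  rw [genus, iInf_congr (rc31_span hθ hz h1 hK), ← Submodule.map_iInf _ hinj, hL, ell]
  exact (Submodule.equivMapOfInjective _ hinj _).finrank_eq

end Pool.Agent.GR.GE
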