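import Pool.Agent.Lib.MP_aa40d3_nt.GE.RC1
import Pool.Agent.Lib.MP_aa40d3_nt.GE.RC2
import Pool.Agent.Lib.MP_aa40d3_nt.GE.RC3

/-! Riemann-Roch with the divisor of a differential, and the degree of a function. -/

set_option linter.unusedSectionVars false

open Polynomial Module
open scoped Polynomial.Bivariate IntermediateField

namespace Pool.Agent.GR.GE

open Pool.Agent.Lib.MP_a01f70_lc.QQ Pool.Agent.GR.CV

variable {F : Type} [Field F] [Algebra ℂ F]

variable [IsFF F]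

theorem exists_can : ∃ R : RRData ℂ F, Can R := by
  obtain ⟨p, z, hz, hp⟩ := one_pole (F := F)
  obtain ⟨_, _, _, _, _, _, hx, hn⟩ := exists_coord hz
  have h0 : 0 < finrank ℂ⟮z⟯ F := hn ▸ finrank_pos
  have hp' : p.ord (xx ℂ F) = -(finrank ℂ⟮z⟯ F : ℤ) := by rw [hx, hp]
  obtain ⟨R, h1, h2⟩ := exists_rrData (k := ℂ) (p := p) (Nat.cast_ne_zero.2 h0.ne') hp' hn
  have hK : ∀ v, R.Kc v = ram v z - 1 := fun v => by
    by_cases hv : v ∈ FinSet ℂ F
    · rw [can_eq h2 hv, hx]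
    · rw [place_unique h0 hp' hn (not_le.1 hv), h1, ram_pole (by omega), hp]
  obtain ⟨θ, h3, h4⟩ := exists_ext 0 hz 1
  refine ⟨R, by rw [← genus_eq hz p hK, R.ell_Kc], fun u hu =>
    ⟨θ u, (ord_der h3 hz h4 hu p).1, fun v => ?_⟩⟩
  rw [hK, (ord_der h3 hz h4 hu v).2]

end Pool.Agent.GR.GE
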