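import Pool.Agent.Lib.MP_aa40d3_nt.GE.GA
import Pool.Agent.Lib.MP_aa40d3_nt.GE.RC

/-! A generic linear fractional transform of a function. -/

set_option linter.unusedSectionVars false

open Polynomial Module
open scoped Polynomial.Bivariate IntermediateField

namespace Pool.Agent.GR.GE

open Pool.Agent.Lib.MP_a01f70_lc.QQ Pool.Agent.GR.CV

variable {F : Type} [Field F] [Algebra ℂ F]

variable [IsFF F]

theorem gh_adj (x : F) (a : ℂ) : ℂ⟮(x - algebraMap ℂ F a)⁻¹⟯ = ℂ⟮x⟯ := by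
  refine le_antisymm (IntermediateField.adjoin_simple_le_iff.2 (inv_mem (sub_mem
    (IntermediateField.mem_adjoin_simple_self _ _) (IntermediateField.algebraMap_mem _ _))))
    (IntermediateField.adjoin_simple_le_iff.2 ?_)
  have := add_mem (inv_mem (IntermediateField.mem_adjoin_simple_self ℂ (x - algebraMap ℂ F a)⁻¹))
    (IntermediateField.algebraMap_mem _ a)
  rwa [inv_inv, sub_add_cancel] at this

theorem exists_moeb (Sg : Finset (Place ℂ F)) {x : F} (hx : Transcendental ℂ x) (κ : Finset ℂ)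
    (hκ : ∀ p : Place ℂ F, ram p x ≠ 1 ∨ p ∈ Sg → val p x ∈ acl (κ : Set ℂ)) :
    ∃ (f : F) (q : Fin (finrank ℂ⟮x⟯ F) → Place ℂ F) (c : Fin 3 → ℂ), Function.Injective q ∧
      (∀ j, q j ∉ Sg ∧ (q j).ord f = -1) ∧ (∀ p, p ∉ Set.range q → p.Ge f 0) ∧
      AlgebraicIndependent (acl (κ : Set ℂ)) c ∧
      ∀ (θ : Derivation ℤ F F) (δ : Derivation ℤ ℂ ℂ), Kills δ κ → Ext θ δ → θ x = 0 → θ f = 0 →
        ∀ i, δ (c i) = 0 := by
  classical
  obtain ⟨c, hc⟩ := exists_indep κ (Fin 3)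
  have h1 : c 1 ≠ 0 := fun e => hc.transcendental 1 (e ▸ isAlgebraic_zero)
  have ht := ga_sub hx (c 2)
  have h0 : x - algebraMap ℂ F (c 2) ≠ 0 := fun e => ht (e ▸ isAlgebraic_zero)
  set u := (x - algebraMap ℂ F (c 2))⁻¹ with hu
  have hu0 : u ≠ 0 := inv_ne_zero h0
  have hut : Transcendental ℂ u := fun e => ht (IsAlgebraic.inv_iff.1 e)
  let s := (finPl' (F := F) u).toFinset.filter fun p => p.ord u < 0
  have hs : ∀ p, p ∈ s ↔ p.ord u < 0 := fun p => by
    simp only [s, Finset.mem_filter, Set.Finite.mem_toFinset, Function.mem_support,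
      and_iff_right_iff_imp]
    exact fun h => h.ne
  have h2 : ∀ p ∈ s, p ∉ Sg ∧ p.ord u = -1 := fun p hp => by
    have h3 := (hs p).1 hp
    rw [hu, Place.ord_inv] at h3 ⊢
    have h4 : val p x = c 2 := val_eq (Place.Ge.of_le (by omega))
    have h5 : ¬(ram p x ≠ 1 ∨ p ∈ Sg) := fun h => hc.transcendental 2 (by
      have h6 := hκ _ h
      rw [h4] at h6
      exact isAlgebraic_algebraMap (⟨_, h6⟩ : acl (κ : Set ℂ)))
    have h6 := not_not.1 (not_or.1 h5).1
    rw [ram, h4] at h6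
    exact ⟨(not_or.1 h5).2, by rw [h6]⟩
  have h3 : s.card = finrank ℂ⟮x⟯ F := by
    have h4 := sum_poles hut s hs
    rw [hu, gh_adj, ← hu, Finset.sum_congr rfl fun p hp => by rw [(h2 p hp).2, neg_neg]] at h4
    simpa using h4
  let e := s.equivFinOfCardEq h3
  refine ⟨c 1 • u + algebraMap ℂ F (c 0), fun j => (e.symm j).1, c,
    Subtype.val_injective.comp e.symm.injective, fun j => ⟨(h2 _ (e.symm j).2).1, ?_⟩,
    fun p hp => ?_, hc, fun θ δ _ h4 h5 h6 => ?_⟩
  · have h4 := ((e.symm j).1.ord_smul h1 u).trans (h2 _ (e.symm j).2).2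
    exact (Place.ord_add_of_ge (smul_ne_zero h1 hu0)
      (by rw [h4]; exact (e.symm j).1.ge_const _)).2.trans h4
  · refine (Place.Ge.smul (Place.Ge.of_le (not_lt.1 fun h => hp ?_)) _).add (p.ge_const _)
    exact ⟨e ⟨p, (hs p).2 h⟩, congrArg Subtype.val (e.symm_apply_apply _)⟩
  · have h7 : θ u = δ (c 2) • u ^ 2 := by
      rw [hu, θ.leibniz_inv, map_sub, h5, h4, smul_eq_mul, Algebra.smul_def]
      ring
    rw [map_add, h4.smul, h7, h4] at h6
    have h8 := transcendental_iff.1 hut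
      (C (c 1 * δ (c 2)) * X ^ 2 + C (δ (c 1)) * X + C (δ (c 0))) (by
        rw [← h6]
        simp [Algebra.smul_def, mul_assoc])
    have g0 := congrArg (coeff · 0) h8
    have g1 := congrArg (coeff · 1) h8
    have g2 := congrArg (coeff · 2) h8
    simp only [coeff_add, coeff_C_mul, coeff_X_pow, coeff_X, coeff_C, coeff_zero] at g0 g1 g2
    simp [h1] at g0 g1 g2
    intro i
    fin_cases i
    exacts [g0, g1, g2]

end Pool.Agent.GR.GE
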