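import Pool.Agent.Lib.MP_aa40d3_nt.GE.RC

/-! The count of branch points. -/

set_option linter.unusedSectionVars false

open Polynomial Module
open scoped Polynomial.Bivariate IntermediateField

namespace Pool.Agent.GR.GE

open Pool.Agent.Lib.MP_a01f70_lc.QQ Pool.Agent.GR.CV

variable {F : Type} [Field F] [Algebra ℂ F]

variable [IsFF F]

section
variable {R : RRData ℂ F} {f : F} {d : ℕ} {q : Fin d → Place ℂ F}

open Classical in
theorem gn1_sum (hq : Function.Injective q) (D : Div ℂ F) {a : ℤ} (h : ∀ j, D (q j) = a) :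
    ∑ p ∈ D.support \ Finset.univ.image q, D p = deg D - d * a := by
  rw [deg_eq_sum D (s := D.support \ Finset.univ.image q ∪ Finset.univ.image q)
    (by rw [Finset.sdiff_union_self_eq_union]; exact Finset.subset_union_left),
    Finset.sum_union Finset.sdiff_disjoint, Finset.sum_image hq.injOn]
  simp [h]

theorem gn1_notMem (h1 : ∀ j, (q j).ord f = -1) {p : Place ℂ F} (hp : p.Ge f 0) :
    p ∉ Set.range q := by
  rintro ⟨j, rfl⟩
  have := h1 j
  rcases hp with rfl | hp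
  · simp at this
  · omega

/-- the fibres -/
theorem gn_fibre (R : RRData ℂ F) (h0 : 0 < d) (hq : Function.Injective q)
    (h1 : ∀ j, (q j).ord f = -1) (h2 : ∀ p, p ∉ Set.range q → p.Ge f 0) (c : ℂ) :
    ∃ Z : Finset (Place ℂ F), (∀ p, p ∈ Z ↔ p.Ge f 0 ∧ val p f = c) ∧ ∑ p ∈ Z, ram p f = d := by
  classical
  have hf : f ≠ 0 := fun h => by simpa [h] using h1 ⟨0, h0⟩
  have h3 := fun j => Place.ord_add_of_ge (v := q j) hf (g := -algebraMap ℂ F c)
    (by rw [h1 j]; exact ((q j).ge_const c).neg)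
  simp only [← sub_eq_add_neg, h1] at h3
  have hz := (h3 ⟨0, h0⟩).1
  have hZ : ∀ p, p ∈ (dv (f - algebraMap ℂ F c) : Div ℂ F).support \ Finset.univ.image q ↔
      p.Ge f 0 ∧ val p f = c := fun p => by
    rw [Finset.mem_sdiff, Finsupp.mem_support_iff, dv_apply R.fin, ← Finset.mem_coe,
      Finset.coe_image, Finset.coe_univ, Set.image_univ]
    refine ⟨fun h => ⟨h2 p h.2, val_eq (.of_le ?_)⟩, fun h => ⟨?_, gn1_notMem h1 h.1⟩⟩
    · have := ((h2 p h.2).sub (p.ge_const c)).le hz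
      have := h.1
      omega
    · have := (h.2 ▸ val_ge h.1).le hz
      omega
  refine ⟨_, hZ, (Finset.sum_congr rfl fun p hp => ?_).trans ((gn1_sum hq _ fun j =>
    (dv_apply R.fin _ _).trans (h3 j).2).trans (by rw [R.degdv]; ring))⟩
  rw [ram, ((hZ p).1 hp).2, dv_apply R.fin]

/-- the Riemann-Hurwitz formula -/
theorem gn_rh (hR : Can R) (h0 : 0 < d) (hq : Function.Injective q)
    (h1 : ∀ j, (q j).ord f = -1) (h2 : ∀ p, p ∉ Set.range q → p.Ge f 0) :
    ∃ B : Finset (Place ℂ F), (∀ p, p ∈ B ↔ p.Ge f 0 ∧ ram p f ≠ 1) ∧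
      ∑ p ∈ B, (ram p f - 1) = 2 * R.g - 2 + 2 * d := by
  classical
  obtain ⟨h, -, hh⟩ := hR.div f (transcendental_of_ord (q ⟨0, h0⟩) (by rw [h1]; omega))
  have h3 : ∀ p, (R.Kc + dv h : Div ℂ F) p = ram p f - 1 := fun p => by
    rw [Finsupp.add_apply, dv_apply R.fin, hh]
  refine ⟨(R.Kc + dv h : Div ℂ F).support \ Finset.univ.image q, fun p => ?_,
    (Finset.sum_congr rfl fun p _ => (h3 p).symm).trans ((gn1_sum hq _ (a := -2) fun j => ?_).trans
      (by rw [map_add, R.degdv, R.deg_Kc]; ring))⟩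
  · rw [Finset.mem_sdiff, Finsupp.mem_support_iff, h3, ← Finset.mem_coe, Finset.coe_image,
      Finset.coe_univ, Set.image_univ, sub_ne_zero]
    exact ⟨fun h => ⟨h2 p h.2, h.1⟩, fun h => ⟨h.2, gn1_notMem h1 h.1⟩⟩
  · rw [h3, ram_pole (by rw [h1]; omega), h1]
    rfl

end


theorem gn_pls {Sg s : Finset (Place ℂ F)} {z : F} {e : ℤ} {m : ℕ} (hm : m ≤ s.card)
    (hs : ∀ p ∈ s, p ∉ Sg ∧ p.ord z = e) : Pls Sg z e m :=
  ⟨fun j => (s.equivFin.symm (Fin.castLE hm j)).1,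
    Subtype.val_injective.comp (s.equivFin.symm.injective.comp (Fin.castLE_injective hm)),
    fun _ => hs _ (Subtype.prop _)⟩


theorem count {R : RRData ℂ F} (hR : Can R) (Sg : Finset (Place ℂ F)) {f : F} {d : ℕ} (h0 : 0 < d)
    {q : Fin d → Place ℂ F} (hq : Function.Injective q) (h1 : ∀ j, q j ∉ Sg ∧ (q j).ord f = -1)
    (h2 : ∀ p, p ∉ Set.range q → p.Ge f 0) :
    finrank ℂ⟮f⟯ F = d ∧ ∃ T : Finset ℂ,
      (∀ p : Place ℂ F, p.Ge f 0 → ram p f ≠ 1 ∨ p ∈ Sg → val p f ∈ T) ∧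
      (T.card : ℤ) ≤ 2 * R.g - 2 + 2 * d + Sg.card ∧
      (AlgebraicIndependent ℚ ((↑) : T → ℂ) → 2 * R.g - 2 + 2 * d + Sg.card ≤ T.card →
        ∃ (n : ℕ) (t : Fin n → ℂ) (M : Finset (Fin n)), Cov Sg f d t M ∧
          (M.card : ℤ) = 2 * R.g - 2 + 2 * d) := by
  classical
  have h1' : ∀ j, (q j).ord f = -1 := fun j => (h1 j).2
  have hf : Transcendental ℂ f := transcendental_of_ord (q ⟨0, h0⟩) (by rw [h1']; omega)
  have hSg : ∀ p ∈ Sg, p.Ge f 0 := fun p hp => h2 p fun ⟨j, hj⟩ => (h1 j).1 (hj ▸ hp)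
  obtain ⟨B, hB, hs⟩ := gn_rh hR h0 hq h1' h2
  have r2 : ∀ p ∈ B, (1 : ℤ) ≤ ram p f - 1 := fun p hp => by
    have := ram_pos hf ((hB p).1 hp).1
    have := ((hB p).1 hp).2
    omega
  have c1 : ∑ _p ∈ B, (1 : ℤ) = B.card := by simp
  have c2 := Finset.sum_le_sum r2
  have c3 := Finset.card_image_le (s := B ∪ Sg) (f := fun p => val p f)
  have c4 := Finset.card_union_le B Sg
  refine ⟨?_, (B ∪ Sg).image fun p => val p f, fun p hp h => Finset.mem_image_of_mem _
    (Finset.mem_union.2 (h.imp_left fun h => (hB p).2 ⟨hp, h⟩)), by omega, fun hI hle => ?_⟩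
  · have := sum_poles hf (Finset.univ.image q) fun p => ⟨fun hp => ?_, fun hp => ?_⟩
    · rw [Finset.sum_image hq.injOn] at this
      simp only [h1', neg_neg, Finset.sum_const, Finset.card_univ, Fintype.card_fin, nsmul_one]
        at this
      exact_mod_cast this.symm
    · obtain ⟨j, -, rfl⟩ := Finset.mem_image.1 hp
      rw [h1']
      omega
    · by_contra hc
      have h3 := h2 p fun ⟨j, hj⟩ => hc (Finset.mem_image.2 ⟨j, Finset.mem_univ _, hj⟩)
      exact (h3.le fun e => by simp [e] at hp).not_gt hp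
  have r3 := (Finset.sum_eq_sum_iff_of_le r2).1 (by omega)
  have dj : Disjoint B Sg := Finset.card_union_eq_card_add_card.1 (by omega)
  have inj : Set.InjOn (fun p => val p f) (B ∪ Sg : Finset (Place ℂ F)) :=
    Finset.injOn_of_card_image_eq (by omega)
  have key : ∀ (c : ℂ) (s : Finset (Place ℂ F)) (m : ℕ),
      (∀ p ∈ s, (p.Ge f 0 ∧ val p f = c) ∧ p ∉ B ∪ Sg) → (m : ℤ) ≤ ∑ p ∈ s, ram p f →
      Pls Sg (f - algebraMap ℂ F c) 1 m := fun c s m h hm => by
    have k : ∀ p ∈ s, ram p f = 1 := fun p hp => not_not.1 fun r =>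
      (h p hp).2 (Finset.mem_union_left _ ((hB p).2 ⟨(h p hp).1.1, r⟩))
    rw [Finset.sum_congr rfl k, Finset.sum_const, nsmul_one] at hm
    exact gn_pls (by exact_mod_cast hm) fun p hp =>
      ⟨fun r => (h p hp).2 (Finset.mem_union_right _ r), (h p hp).1.2 ▸ k p hp⟩
  have key2 : ∀ p0 ∈ B ∪ Sg, ∀ m : ℕ, ram p0 f = m →
      Pls Sg (f - algebraMap ℂ F (val p0 f)) 1 (d - m) := fun p0 hp m hm => by
    obtain ⟨Z, hZ, hz⟩ := gn_fibre R h0 hq h1' h2 (val p0 f)
    have h3 : p0 ∈ Z := (hZ p0).2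
      ⟨(Finset.mem_union.1 hp).elim (fun r => ((hB p0).1 r).1) (hSg p0), rfl⟩
    have h4 : ∀ p ∈ Z.erase p0, p.Ge f 0 ∧ val p f = val p0 f :=
      fun p r => (hZ p).1 (Finset.mem_of_mem_erase r)
    have h5 := Finset.sum_nonneg fun p r => zero_le_one.trans (ram_pos hf (h4 p r).1)
    rw [← Finset.add_sum_erase _ _ h3] at hz
    exact key _ (Z.erase p0) _ (fun p r => ⟨h4 p r, fun r' =>
      Finset.ne_of_mem_erase r (inj r' hp (h4 p r).2)⟩) (by omega)
  set T := (B ∪ Sg).image fun p => val p f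
  let t : Fin T.card → ℂ := fun i => (T.equivFin.symm i).1
  have ht : ∀ c ∈ T, c ∈ Set.range t := fun c hc =>
    ⟨T.equivFin ⟨c, hc⟩, congrArg Subtype.val (T.equivFin.symm_apply_apply _)⟩
  have hi : AlgebraicIndependent ℚ t := hI.comp _ T.equivFin.symm.injective
  refine ⟨_, t, Finset.univ.filter fun i => t i ∈ B.image fun p => val p f,
    ⟨hi, ⟨q, hq, h1⟩, fun c hc => ?_, fun i hM => ?_, fun i hM => ?_⟩, ?_⟩
  · obtain ⟨Z, hZ, hz⟩ := gn_fibre R h0 hq h1' h2 c
    exact key c Z d (fun p hp => ⟨(hZ p).1 hp, fun r =>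
      hc (ht c (((hZ p).1 hp).2 ▸ Finset.mem_image_of_mem _ r))⟩) hz.ge
  · obtain ⟨p, hp, e⟩ := Finset.mem_image.1 (T.equivFin.symm i).2
    have hpB : p ∉ B := fun r =>
      hM (Finset.mem_filter.2 ⟨Finset.mem_univ _, Finset.mem_image.2 ⟨p, r, e⟩⟩)
    have := key2 p hp 1 (not_not.1 fun r =>
      hpB ((hB p).2 ⟨hSg p ((Finset.mem_union.1 hp).resolve_left hpB), r⟩))
    rwa [e] at this
  · obtain ⟨p, hp, e⟩ := Finset.mem_image.1 (Finset.mem_filter.1 hM).2
    have h3 : ram p f = 2 := by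
      have := r3 p hp
      omega
    rw [← e]
    exact ⟨key2 p (Finset.mem_union_left _ hp) 2 h3, gn_pls (s := {p}) (by simp) fun p' r =>
      (Finset.mem_singleton.1 r).symm ▸ ⟨Finset.disjoint_left.1 dj hp, h3⟩⟩
  · have e : (Finset.univ.filter fun i => t i ∈ B.image fun p => val p f).image t =
        B.image fun p => val p f := by
      refine Finset.ext fun c => ⟨fun r => ?_, fun r => ?_⟩
      · obtain ⟨i, h3, rfl⟩ := Finset.mem_image.1 r
        exact (Finset.mem_filter.1 h3).2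
      · obtain ⟨i, rfl⟩ := ht c (Finset.image_subset_image Finset.subset_union_left r)
        exact Finset.mem_image_of_mem _ (Finset.mem_filter.2 ⟨Finset.mem_univ _, r⟩)
    rw [← Finset.card_image_of_injective _ hi.injective, e, Finset.card_image_of_injOn
      (inj.mono (Finset.coe_subset.2 Finset.subset_union_left))]
    omega

end Pool.Agent.GR.GE
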