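import Pool.Agent.Lib.MP_aa40d3_nt.GE.SD
import Pool.Agent.Lib.MP_aa40d3_nt.GE.RC

/-! Specialisation of a model. -/

set_option linter.unusedSectionVars false

open Polynomial Module Filter
open scoped Polynomial.Bivariate IntermediateField

namespace Pool.Agent.GR.GE

open Pool.Agent.Lib.MP_a01f70_lc.QQ Pool.Agent.GR.CV

variable {F : Type} [Field F] [Algebra ℂ F]

theorem sa_alg (K : IntermediateField ℚ ℂ) {x y : F} {P : ℂ[X][Y]} (h : Model x y P)
    (hP : ∀ i j, (P.coeff i).coeff j ∈ K) : IsAlgebraic K⟮x⟯ y := by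
  obtain ⟨q, hq⟩ := (mem_lifts (f := algebraMap K⟮x⟯ F) (P.map (aeval x).toRingHom)).1
    ((lifts_iff_coeff_lifts _).2 fun i => ⟨⟨aeval x (P.coeff i), by
      rw [aeval_eq_sum_range]
      refine sum_mem fun j _ => ?_
      rw [Algebra.smul_def]
      exact mul_mem (IntermediateField.algebraMap_mem _ (⟨_, hP i j⟩ : K))
        (pow_mem (IntermediateField.mem_adjoin_simple_self K x) j)⟩,
      (coeff_map (aeval x).toRingHom i).symm⟩)
  refine ⟨q, fun e => (h.monic.map (aeval x).toRingHom).ne_zero (by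
    rw [← hq, e, Polynomial.map_zero]), ?_⟩
  rw [← eval_map_algebraMap, hq, eval_map, ← h.root]
  exact RingHom.congr_fun (f := eval₂RingHom (aeval x).toRingHom y)
    (g := (aevalAeval x y).toRingHom) (ringHom_ext' (RingHom.ext fun a => by simp) (by simp)) P

variable [IsFF F]

theorem sa_pole {x : F} (hx : Transcendental ℂ x) : ∃ p : Place ℂ F, p.ord x < 0 := by
  by_contra! h
  have := IsFF.fin hx
  have h1 := sum_poles hx ∅ fun p => iff_of_false (Finset.notMem_empty p) (h p).not_gt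
  rw [Finset.sum_empty] at h1
  exact finrank_pos.ne' (Int.natCast_eq_zero.1 h1.symm)

open Classical in
theorem specialise (Sg : Finset (Place ℂ F)) (K : IntermediateField ℚ ℂ)
    (hK : ∀ z : ℂ, IsAlgebraic K z → z ∈ K) {x y f w : F} {P P' : ℂ[X][Y]} (h : Model x y P)
    (hP : ∀ i j, (P.coeff i).coeff j ∈ K) (hx : ∀ p ∈ Sg, val p x ∈ K) (h' : Model f w P')
    (hf : ∀ p ∈ Sg, p.Ge f 0) {I J : Finset ℂ} (hI : AlgebraicIndependent K ((↑) : I → ℂ))
    (hP' : ∀ i j, (P'.coeff i).coeff j ∈ acl (J : Set ℂ))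
    (hv : ∀ p ∈ Sg, val p f ∈ acl (J : Set ℂ)) :
    ∃ J' : Finset ℂ, J'.card ≤ (J \ I).card ∧ DefOver Sg (acl (J' : Set ℂ)) := by
  have : IsAlgClosed K := (IsAlgClosed.algebraicClosure_eq_bot_iff K ℂ).1
    (eq_bot_iff.2 fun z hz => ⟨⟨z, hK z (mem_algebraicClosure_iff.1 hz)⟩, rfl⟩)
  let E : IntermediateField K F := (algebraicClosure K⟮x⟯ F).restrictScalars K
  have hE : ∀ z ∈ E, IsAlgebraic (Algebra.adjoin K {x}) z := fun z hz =>
    IntermediateField.isAlgebraic_adjoin_iff.1 (mem_algebraicClosure_iff.1 hz)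
  have hxE : x ∈ E := mem_algebraicClosure_iff.2
    (isAlgebraic_algebraMap (⟨x, IntermediateField.mem_adjoin_simple_self K x⟩ : K⟮x⟯))
  have hyE : y ∈ E := mem_algebraicClosure_iff.2 (sa_alg K h hP)
  have hS : ({x, y} : Set F) ⊆ E := Set.pair_subset hxE hyE
  obtain ⟨p0, h0⟩ := sa_pole h.tr
  have r0 : RatAt E p0 := ratAt_closure resPl' (.inl h0) hE
  have r1 : ∀ p ∈ Sg, RatAt E p := fun p hp => ratAt_closure resPl'
    ((lt_or_ge (p.ord x) 0).imp_right fun e =>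
      ⟨⟨_, hx p hp⟩, by exact ram_pos h.tr (.of_le e)⟩) hE
  have d : ∀ z : F, ∀ᶠ s in ev K, ∃ u, (z, u) ∈ grH E s := fun z => by
    rcases eq_or_ne z 0 with rfl | hz
    · exact .of_forall fun s => ⟨0, zero_mem _⟩
    · exact (ev_ord r0 hS h.gen hz).mono fun s h => h.imp fun _ => And.left
  have e1 : ∀ᶠ s in ev K, ∀ p ∈ Sg, val p f ∈ s.A ∧ (∃ u, (f - algebraMap ℂ F (val p f), u) ∈
      grH E s ∧ u ≠ 0 ∧ p.ord u = ram p f) ∧ ∀ J' : Set ℂ, (∀ j ∈ (J : Set ℂ), s.l j ∈ acl J') →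
        s.l (val p f) ∈ acl J' := (eventually_all_finset _).2 fun p hp => (ev_mem _).and
    ((ev_ord (r1 p hp) hS h.gen fun e => h'.tr (by
      rw [sub_eq_zero.1 e]
      exact isAlgebraic_algebraMap _)).and
      (ev_acl (hv p hp)))
  have e2 : ∀ᶠ s in ev K, ∀ i ∈ P'.support, ∀ j ∈ (P'.coeff i).support, ∀ J' : Set ℂ,
      (∀ j ∈ (J : Set ℂ), s.l j ∈ acl J') → s.l ((P'.coeff i).coeff j) ∈ acl J' :=
    (eventually_all_finset _).2 fun i _ => (eventually_all_finset _).2 fun j _ => ev_acl (hP' i j)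
  obtain ⟨s, k1, ⟨u, hu⟩, ⟨v, hv⟩, k2, k3, k4, k5, Q, k6, k7⟩ := ((exists_sp hI).and_eventually
    ((d f).and ((d w).and (e1.and (e2.and
      ((ev_gen r0 hS h.gen (z := x) (h'.gen ▸ IntermediateField.mem_top)).and
        ((ev_gen r0 hS h.gen (z := y) (h'.gen ▸ IntermediateField.mem_top)).and
          (ev_poly2 (E := E) P')))))))).exists
  have hJ : ∀ j ∈ (J : Set ℂ), s.l j ∈ acl (((J \ I).image s.l : Finset ℂ) : Set ℂ) :=
    fun j hj => by
      by_cases hi : j ∈ I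
      · obtain ⟨q, hq⟩ := k1 j hi
        exact hq ▸ IntermediateField.algebraMap_mem _ q
      · exact subset_acl _ (Finset.mem_image_of_mem _ (Finset.mem_sdiff.2 ⟨hj, hi⟩))
  refine ⟨(J \ I).image s.l, Finset.card_image_le, u, v, Q, ?_, fun e => ?_, fun i j => ?_, ?_,
    fun p hp => ?_⟩
  · obtain ⟨x', a1, a2⟩ := k4 u v hu hv
    obtain ⟨y', a3, a4⟩ := k5 u v hu hv
    rw [eq_top_iff, ← h.gen, IntermediateField.adjoin_le_iff]
    exact Set.pair_subset (grH_uniq r0 a2 (grH_fix hxE) ▸ a1) (grH_uniq r0 a4 (grH_fix hyE) ▸ a3)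
  · have h1 := k6 P'.natDegree 0
    rw [e, h'.monic.coeff_natDegree, coeff_one_zero, s.one, coeff_zero, coeff_zero] at h1
    exact zero_ne_one h1
  · rw [k6]
    by_cases h1 : (P'.coeff i).coeff j = 0
    · rw [h1, map_zero]
      exact zero_mem _
    · exact k3 i (mem_support_iff.2 fun e => h1 (by rw [e, coeff_zero])) j (mem_support_iff.2 h1)
        _ hJ
  · exact grH_uniq r0 (h'.root ▸ k7 f w u v hu hv) (zero_mem _)
  · obtain ⟨a1, ⟨z, a2, -, a3⟩, a4⟩ := k2 p hp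
    refine .inr ⟨_, a4 _ hJ, ?_⟩
    rw [show u - _ = z from grH_uniq r0 (sub_mem hu (grH_const a1)) a2, a3]
    exact ram_pos h'.tr (hf p hp)

end Pool.Agent.GR.GE
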