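import Pool.Agent.Lib.MP_aa40d3_nt.GE.GH
import Pool.Agent.Lib.MP_aa40d3_nt.GE.GB
import Pool.Agent.Lib.MP_aa40d3_nt.GE.GN
import Pool.Agent.Lib.MP_aa40d3_nt.GE.SA

/-! A generic curve is a simple covering with generic branch points. -/

set_option linter.unusedSectionVars false

open Polynomial Module
open scoped Polynomial.Bivariate IntermediateField

namespace Pool.Agent.GR.GE

open Pool.Agent.Lib.MP_a01f70_lc.QQ Pool.Agent.GR.CV

variable {F : Type} [Field F] [Algebra ℂ F]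

theorem exists_kappa [IsFF F] {R : RRData ℂ F} (hR : Can R) (Sg : Finset (Place ℂ F)) {x : F}
    (hx : Transcendental ℂ x) (P : ℂ[X][Y]) :
    ∃ κ : Finset ℂ, (∀ p : Place ℂ F, ram p x ≠ 1 ∨ p ∈ Sg → val p x ∈ κ) ∧
      ∀ i j, (P.coeff i).coeff j ∈ acl (κ : Set ℂ) := by
  classical
  obtain ⟨h, -, hh⟩ := hR.div x hx
  have hfin : {p : Place ℂ F | ram p x ≠ 1}.Finite := by
    refine (R.Kc.support.finite_toSet.union (R.fin h)).subset fun p hp => ?_
    by_contra hc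
    simp only [Set.mem_union, Finset.mem_coe, Finsupp.mem_support_iff, Function.mem_support,
      not_or, not_not] at hc
    have := hh p
    rw [hc.1, hc.2] at this
    exact hp (by omega)
  refine ⟨(hfin.toFinset ∪ Sg).image (fun p => val p x) ∪
    P.support.biUnion fun i => (P.coeff i).coeffs, fun p hp => ?_, fun i j => ?_⟩
  · refine Finset.mem_union_left _ (Finset.mem_image_of_mem _ ?_)
    rcases hp with hp | hp
    · exact Finset.mem_union_left _ (hfin.mem_toFinset.2 hp)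
    · exact Finset.mem_union_right _ hp
  · by_cases h0 : (P.coeff i).coeff j = 0
    · rw [h0]
      exact zero_mem _
    · refine subset_acl _ (Finset.mem_coe.2 (Finset.mem_union_right _ (Finset.mem_biUnion.2
        ⟨i, mem_support_iff.2 fun h1 => h0 (by rw [h1, coeff_zero]), ?_⟩)))
      exact coeff_mem_coeffs h0

theorem cov_of [IsFF F] {R : RRData ℂ F} (hR : Can R) {Sg : Finset (Place ℂ F)} {x y : F}
    {P : ℂ[X][Y]} (h : Model x y P) (hg : 2 ≤ genus F) {m : ℕ} (hG : Moduli Sg m) {κ : Finset ℂ}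
    (hκ : ∀ p : Place ℂ F, ram p x ≠ 1 ∨ p ∈ Sg → val p x ∈ κ)
    (hP : ∀ i j, (P.coeff i).coeff j ∈ acl (κ : Set ℂ)) {d e : ℕ} (h0 : 0 < d) {f : F}
    {q : Fin d → Place ℂ F} {c : Fin e → ℂ} (hq : Function.Injective q)
    (h1 : ∀ j, q j ∉ Sg ∧ (q j).ord f = -1) (h2 : ∀ p, p ∉ Set.range q → p.Ge f 0)
    (hc : AlgebraicIndependent (acl (κ : Set ℂ)) c)
    (hkey : ∀ (θ : Derivation ℤ F F) (δ : Derivation ℤ ℂ ℂ), Kills δ κ → Ext θ δ → θ x = 0 →
      θ f = 0 → ∀ i, δ (c i) = 0) (he : 2 * genus F + 2 * d + Sg.card ≤ m + e + 2) :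
    ∃ (w : F) (P' : ℂ[X][Y]) (n : ℕ) (t : Fin n → ℂ) (M : Finset (Fin n)), Model f w P' ∧
      P'.natDegree = d ∧ Cov Sg f d t M ∧ M.card + 2 = 2 * genus F + 2 * d := by
  classical
  have hg' := hR.g_eq
  obtain ⟨hdeg, T, hT, hTc, hcov⟩ := count hR Sg h0 hq h1 h2
  obtain ⟨w, P', hM, hP'⟩ := descent R (h1 ⟨0, h0⟩).2 (T : Set ℂ)
    fun p hp hr => hT p hp (Or.inl hr)
  have hSg : ∀ p ∈ Sg, p.Ge f 0 := fun p hp => h2 p fun ⟨j, hj⟩ => (h1 j).1 (hj ▸ hp)
  have hcT : ∀ i, c i ∈ acl ((acl (κ : Set ℂ) : Set ℂ) ∪ T) := fun i =>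
    mem_acl_of_der fun δ hδ => by
      have hκδ : Kills δ κ := fun a ha => hδ a (Or.inl (subset_acl _ ha))
      obtain ⟨θ, hθ, hθx⟩ := exists_ext δ h.tr 0
      obtain ⟨η, hη, hηf⟩ := exists_ext δ hM.tr 0
      have e1 : θ = η := Ext.eq_of_reg hR (by omega) hθ hη (fun p => by
        by_cases hp : ram p x = 1
        · exact hθ.reg h.tr hθx hp
        · exact (hθ.lg h.tr hθx (hκδ _ (hκ p (Or.inl hp)))).reg) fun p => by
        by_cases hp : ram p f = 1
        · exact hη.reg hM.tr hηf hp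
        · refine (hη.lg hM.tr hηf ?_).reg
          by_cases hf : p.Ge f 0
          · exact hδ _ (Or.inr (hT p hf (Or.inl hp)))
          · rw [val_pole (Place.not_ge_iff.1 hf).2, map_zero]
      exact hkey θ δ hκδ hθ hθx (e1 ▸ hηf) i
  obtain ⟨I, J, hIJ, hJT, hI, hcard, hJ, hTJ⟩ := exists_bases _ T hc hcT
  obtain ⟨J', hJ', hD⟩ := specialise Sg (acl (κ : Set ℂ)) (fun z => acl_closed) h hP
    (fun p hp => subset_acl _ (hκ p (Or.inr hp))) hM hSg hI (J := J)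
    (fun i j => acl_le hTJ (hP' i j)) fun p hp => hTJ (hT p (hSg p hp) (Or.inr hp))
  have h3 : m ≤ J'.card := by exact_mod_cast (hG _ hD).trans (trdeg_acl J')
  rw [Finset.card_sdiff_of_subset hIJ] at hJ'
  rw [Fintype.card_fin] at hcard
  have h5 := Finset.card_le_card hIJ
  have h6 := Finset.card_le_card hJT
  have h7 : J = T := Finset.eq_of_subset_of_card_le hJT (by omega)
  subst h7
  obtain ⟨n, t, M, hC, hMc⟩ := hcov hJ (by omega)
  exact ⟨w, P', n, t, M, hM, hM.deg.trans hdeg, hC, by omega⟩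

theorem exists_cov [IsFF F] (Sg : Finset (Place ℂ F)) {z : F} {r : ℕ}
    (hz : r + 1 ≤ finrank ℂ⟮z⟯ F) (hg : 2 ≤ genus F)
    (hG : Moduli Sg (min (3 * genus F - 3) (2 * genus F + 2 * finrank ℂ⟮z⟯ F - 5) + Sg.card)) :
    ∃ (d : ℕ) (f w : F) (P' : ℂ[X][Y]) (n : ℕ) (t : Fin n → ℂ) (M : Finset (Fin n)), r + 1 ≤ d ∧
      Model f w P' ∧ P'.natDegree = d ∧ Cov Sg f d t M ∧ M.card + 2 = 2 * genus F + 2 * d := by
  have hx : Transcendental ℂ z := fun h => by
    obtain ⟨t, ht, -⟩ := IsFF.ex (F := F)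
    have : FiniteDimensional ℂ⟮z⟯ F := Module.finite_of_finrank_pos (by omega)
    have := IntermediateField.adjoin.finiteDimensional h.isIntegral
    have := Module.Finite.trans (R := ℂ) ℂ⟮z⟯ F
    exact ht (Algebra.IsAlgebraic.isAlgebraic t)
  obtain ⟨R, hR⟩ := exists_can (F := F)
  have hg' := hR.g_eq
  obtain ⟨y, hy, hy'⟩ := exists_int hx
  obtain ⟨P, h⟩ := exists_model hx hy hy'
  obtain ⟨κ, hκ, hP⟩ := exists_kappa hR Sg hx P
  rcases le_total (3 * genus F - 3) (2 * genus F + 2 * finrank ℂ⟮z⟯ F - 5) with hm | hm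
  · obtain ⟨f, q, e, c, hq, h1, h2, he, hc, hkey⟩ := exists_generic R Sg hx κ
      (fun p hp => subset_acl _ (hκ p hp)) (d := 2 * genus F + r) (by omega) (by omega)
    obtain ⟨w, P', n, t, M, h3⟩ := cov_of hR h hg hG hκ hP (by omega) hq h1 h2 hc hkey (by omega)
    exact ⟨_, f, w, P', n, t, M, by omega, h3⟩
  · obtain ⟨f, q, c, hq, h1, h2, hc, hkey⟩ := exists_moeb Sg hx κ
      fun p hp => subset_acl _ (hκ p hp)
    obtain ⟨w, P', n, t, M, h3⟩ := cov_of hR h hg hG hκ hP (by omega) hq h1 h2 hc hkey (by omega)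
    exact ⟨_, f, w, P', n, t, M, hz, h3⟩

end Pool.Agent.GR.GE
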