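import Pool.Agent.Lib.MP_aa40d3_nt.GE.RB1

/-! Expansions at a place. -/

set_option linter.unusedSectionVars false

open Polynomial Module
open scoped Polynomial.Bivariate IntermediateField

namespace Pool.Agent.GR.GE

open Pool.Agent.Lib.MP_a01f70_lc.QQ Pool.Agent.GR.CV

variable {F : Type} [Field F] [Algebra ℂ F]

theorem At.ge {φ : F →ₐ[ℂ] LS'} {p : Place ℂ F} (h : At φ p) {u : F} {m : ℤ} :
    p.Ge u m ↔ ∀ k < m, (φ u).coeff k = 0 := by
  rcases eq_or_ne u 0 with rfl | hu
  · simp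
  · rw [Place.ge_iff hu, ← h u, HahnSeries.le_order_iff_forall ((map_ne_zero φ).mpr hu)]

theorem At.unique {φ : F →ₐ[ℂ] LS'} {p q : Place ℂ F} (h : At φ p) (h' : At φ q) : p = q :=
  Place.ext (funext fun u => (h u).symm.trans (h' u))

theorem rb1_alg (c : ℂ) : algebraMap ℂ LS' c = HahnSeries.single 0 c :=
  LaurentSeries.algebraMap_apply ℂ c

theorem rb1_coeff (f : LS') (k : ℤ) : (dS f).coeff k = (k + 1) * f.coeff (k + 1) := by
  rw [dS, LaurentSeries.derivative_apply, LaurentSeries.hasseDeriv_coeff]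
  simp

/-- the order of Laurent series as a place -/
theorem rb1_place : ∃ pl : Place ℂ LS', (∀ f, pl.ord f = f.order) ∧
    ∀ f, pl.Ge f 0 → ∃ c : ℂ, pl.Ge (f - algebraMap ℂ LS' c) 1 := by
  let pl : Place ℂ LS' :=
    { ord := fun f => f.order
      ord_zero := HahnSeries.order_zero
      ord_mul := fun hf hg => HahnSeries.order_mul hf hg
      ord_add := fun _ _ h => HahnSeries.min_order_le_order_add h
      ord_const := fun c => by
        rw [rb1_alg]
        exact HahnSeries.order_C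
      surj := ⟨sL, HahnSeries.single_ne_zero one_ne_zero, HahnSeries.order_single one_ne_zero⟩ }
  have h : At (AlgHom.id ℂ LS') pl := fun _ => rfl
  refine ⟨pl, fun _ => rfl, fun f hf => ⟨f.coeff 0, h.ge.mpr fun k hk => ?_⟩⟩
  rw [AlgHom.id_apply, HahnSeries.coeff_sub, rb1_alg, HahnSeries.coeff_single]
  split_ifs with h0
  · rw [h0, sub_self]
  · rw [sub_zero]
    exact h.ge.mp hf k (by omega)

theorem rb1_sq_ps (u : PowerSeries ℂ) (h : PowerSeries.constantCoeff u ≠ 0) :
    ∃ v : PowerSeries ℂ, v ^ 2 = u := by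
  obtain ⟨c, hc⟩ := IsAlgClosed.exists_pow_nat_eq (PowerSeries.constantCoeff u) two_pos
  have hs : PowerSeries.HasSubst
      (PowerSeries.C (PowerSeries.constantCoeff u)⁻¹ * u - 1 : PowerSeries ℂ) :=
    PowerSeries.HasSubst.of_constantCoeff_zero' (by simp [h])
  have h1 : (PowerSeries.binomialSeries ℂ (1 / 2 : ℂ)) ^ 2 = 1 + PowerSeries.X := by
    rw [sq, ← PowerSeries.binomialSeries_add, add_halves]
    simpa using PowerSeries.binomialSeries_nat (R := ℂ) (A := ℂ) 1
  refine ⟨PowerSeries.C c * PowerSeries.substAlgHom hs (PowerSeries.binomialSeries ℂ (1 / 2 : ℂ)),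
    ?_⟩
  rw [mul_pow, ← map_pow, ← map_pow, hc, h1, map_add, map_one, PowerSeries.substAlgHom_X,
    add_sub_cancel, ← mul_assoc, ← map_mul, mul_inv_cancel₀ h, map_one, one_mul]

theorem rb1_sq {f : LS'} (h : f.order = 2) : ∃ H : LS', H.order = 1 ∧ H ^ 2 = f := by
  have hf : f ≠ 0 := fun h0 => by simp [h0] at h
  obtain ⟨v, hv⟩ := rb1_sq_ps f.powerSeriesPart (by
    rw [← PowerSeries.coeff_zero_eq_constantCoeff_apply, LaurentSeries.powerSeriesPart_coeff]
    simpa using hf)
  have h1 : (sL * (v : LS')) ^ 2 = f := by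
    rw [mul_pow, ← PowerSeries.coe_pow, hv, sL, HahnSeries.single_pow]
    have := f.single_order_mul_powerSeriesPart
    rw [h] at this
    simpa using this
  refine ⟨_, ?_, h1⟩
  rw [← h1, HahnSeries.order_pow] at h
  simp only [nsmul_eq_mul, Nat.cast_ofNat] at h
  omega

variable [IsFF F]

theorem exists_at (p : Place ℂ F) {π : F} (h : p.ord π = 1) : ∃ φ, At φ p ∧ φ π = sL :=
  exists_exp p (resPl' p) h

/-- The order of Laurent series is a place `pl` of the field `LS'` with residue field `ℂ`.  Take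
`φ₀` from `exists_at` for a uniformiser; `φ₀ z` has order 2, so it is `c s ^ 2 u` with a power
series `u` of constant term one, which is the square of
the binomial series of exponent one half at `u - 1` (`binomialSeries_add`, `binomialSeries_nat`,
`HasSubst.of_constantCoeff_zero'`).  So `φ₀ z = H ^ 2` with `H` of order 1; `exists_exp pl`
for `H` gives `ψ`, and `φ = ψ.comp φ₀`. -/
theorem exists_at_sq (p : Place ℂ F) {z : F} (h : p.ord z = 2) :
    ∃ φ, At φ p ∧ φ z = sL ^ 2 := by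
  obtain ⟨π, -, hπ⟩ := p.surj
  obtain ⟨φ, hφ, -⟩ := exists_at p hπ
  obtain ⟨H, hH, hz⟩ := rb1_sq ((hφ z).trans h)
  obtain ⟨pl, h1, h2⟩ := rb1_place
  obtain ⟨ψ, hψ, h3⟩ := exists_exp pl h2 ((h1 H).trans hH)
  refine ⟨ψ.comp φ, fun u => ?_, ?_⟩
  · rw [AlgHom.comp_apply, hψ, h1, hφ]
  · rw [AlgHom.comp_apply, ← hz, map_pow, h3]

theorem At.order_dS {φ : F →ₐ[ℂ] LS'} {p : Place ℂ F} (h : At φ p) {z : F}
    (hz : Transcendental ℂ z) : dS (φ z) ≠ 0 ∧ (dS (φ z)).order = ram p z - 1 := by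
  have hr : ram p z ≠ 0 := by
    rcases lt_or_ge (p.ord z) 0 with h1 | h1
    · rw [ram_pole h1]
      exact h1.ne
    · have := ram_pos hz (Place.Ge.of_le h1)
      omega
  obtain ⟨f, hf⟩ : ∃ f, f = φ (z - algebraMap ℂ F (val p z)) := ⟨_, rfl⟩
  have ho : f.order = ram p z := by rw [hf, h, ram]
  have hf0 : f ≠ 0 := fun h0 => hr (by rw [← ho, h0, HahnSeries.order_zero])
  have hc : ∀ k : ℤ, (dS (φ z)).coeff k = (k + 1) * f.coeff (k + 1) := fun k => by
    rw [rb1_coeff, hf, map_sub, AlgHom.commutes, HahnSeries.coeff_sub, rb1_alg,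
      HahnSeries.coeff_single]
    split_ifs with h0
    · have e : (k : ℂ) + 1 = 0 := by exact_mod_cast h0
      rw [e, zero_mul, zero_mul]
    · rw [sub_zero]
  have h1 : (dS (φ z)).coeff (ram p z - 1) ≠ 0 := by
    rw [hc, sub_add_cancel, Int.cast_sub, Int.cast_one, sub_add_cancel]
    refine mul_ne_zero (Int.cast_ne_zero.mpr hr) ?_
    rw [← ho]
    exact HahnSeries.coeff_order_eq_zero.not.mpr hf0
  have h2 := HahnSeries.ne_zero_of_coeff_ne_zero h1
  refine ⟨h2, le_antisymm (HahnSeries.order_le_of_coeff_ne_zero h1)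
    ((HahnSeries.le_order_iff_forall h2).mpr fun k hk => ?_)⟩
  rw [hc, HahnSeries.coeff_eq_zero_of_lt_order (by omega), mul_zero]

end Pool.Agent.GR.GE
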