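import Pool.Agent.Lib.MP_aa40d3_nt.GE.RA

/-! Existence of expansions at a place with residue field the complex numbers. -/

set_option linter.unusedSectionVars false

open Polynomial Module
open scoped Polynomial.Bivariate IntermediateField

namespace Pool.Agent.GR.GE

open Pool.Agent.Lib.MP_a01f70_lc.QQ Pool.Agent.GR.CV

variable {F : Type} [Field F] [Algebra ℂ F] {p : Place ℂ F} {π : F}

theorem rb1_ne (h : p.ord π = 1) : π ≠ 0 := fun e => by simp [e] at h

theorem rb1_poly (h : p.ord π = 1) (q : ℂ[X]) : p.Ge (aeval π q) 0 :=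
  Place.ge_of_mem_adjoin (s := {π}) (by rintro a rfl; exact Or.inr (by omega))
    (aeval_mem_adjoin_singleton ℂ _)

theorem rb1_dvd (h : p.ord π = 1) (N : ℕ) (q : ℂ[X]) : p.Ge (aeval π q) N ↔ X ^ N ∣ q := by
  have h0 := rb1_ne h
  have hm : ∀ (n : ℕ) (r : ℂ[X]) (m : ℤ), p.Ge (aeval π (X ^ n * r)) m ↔
      p.Ge (aeval π r) (m - n) := fun n r m => by
    rw [map_mul, map_pow, aeval_X, mul_comm, Place.ge_mul_iff (pow_ne_zero _ h0), p.ord_pow, h,
      mul_one]
  constructor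
  · induction N with
    | zero => simp
    | succ N ih =>
      intro hq
      obtain ⟨r, rfl⟩ := ih (hq.mono (by push_cast; omega))
      rw [hm] at hq
      have h1 : p.Ge (aeval π (X ^ 1 * r.divX)) 1 := (hm 1 _ 1).2 (rb1_poly h _)
      have h2 := (hq.mono (m' := 1) (by push_cast; omega)).sub h1
      rw [← map_sub, pow_one, sub_eq_of_eq_add' (X_mul_divX_add r).symm, aeval_C] at h2
      rw [pow_succ]
      exact mul_dvd_mul_left _ (X_dvd_iff.2 (p.const_eq_zero_of_ge h2))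
  · rintro ⟨r, rfl⟩
    rw [hm, sub_self]
    exact rb1_poly h r

variable (p π) in
/-- the power series `G` is the expansion of `f` -/
def Ap (f : F) (G : PowerSeries ℂ) : Prop :=
  ∀ N : ℕ, ∃ q : ℂ[X], PowerSeries.X ^ N ∣ G - (q : PowerSeries ℂ) ∧ p.Ge (f - aeval π q) N

theorem Ap.poly (q : ℂ[X]) : Ap p π (aeval π q) q := fun _ => ⟨q, by simp, by simp⟩

theorem Ap.ge (h : p.ord π = 1) {f : F} {G : PowerSeries ℂ} (hf : Ap p π f G) (N : ℕ) :
    p.Ge f N ↔ PowerSeries.X ^ N ∣ G := by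
  obtain ⟨q, h1, h2⟩ := hf N
  have e1 : p.Ge f N ↔ p.Ge (aeval π q) N :=
    ⟨fun e => by simpa using e.sub h2, fun e => by simpa using e.add h2⟩
  have e2 : PowerSeries.X ^ N ∣ G ↔ PowerSeries.X ^ N ∣ (q : PowerSeries ℂ) :=
    ⟨fun e => by simpa using e.sub h1, fun e => by simpa using e.add h1⟩
  rw [e1, e2, rb1_dvd h, X_pow_dvd_iff, PowerSeries.X_pow_dvd_iff]
  simp only [coeff_coe]

theorem Ap.sub {f g : F} {G H : PowerSeries ℂ} (hf : Ap p π f G) (hg : Ap p π g H) :
    Ap p π (f - g) (G - H) := fun N => by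
  obtain ⟨q, h1, h2⟩ := hf N
  obtain ⟨r, h3, h4⟩ := hg N
  refine ⟨q - r, ?_, ?_⟩
  · rw [coe_sub, sub_sub_sub_comm]
    exact h1.sub h3
  · rw [map_sub, sub_sub_sub_comm]
    exact h2.sub h4

theorem Ap.mul (h : p.ord π = 1) {f g : F} {G H : PowerSeries ℂ} (hf : Ap p π f G)
    (hg : Ap p π g H) : Ap p π (f * g) (G * H) := fun N => by
  obtain ⟨q, h1, h2⟩ := hf N
  obtain ⟨r, h3, h4⟩ := hg N
  have h5 : p.Ge g 0 := (hg.ge h 0).2 (by simp)
  refine ⟨q * r, ?_, ?_⟩
  · rw [coe_mul, show G * H - (q : PowerSeries ℂ) * (r : PowerSeries ℂ) =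
      (G - (q : PowerSeries ℂ)) * H + (q : PowerSeries ℂ) * (H - (r : PowerSeries ℂ)) by ring]
    exact (h1.mul_right _).add (h3.mul_left _)
  · rw [map_mul, show f * g - aeval π q * aeval π r =
      (f - aeval π q) * g + aeval π q * (g - aeval π r) by ring]
    exact (by simpa using h2.mul h5 : p.Ge _ N).add (by simpa using (rb1_poly h q).mul h4)

theorem Ap.unique (h : p.ord π = 1) {f : F} {G H : PowerSeries ℂ} (hf : Ap p π f G)
    (hg : Ap p π f H) : G = H := by
  refine sub_eq_zero.1 (PowerSeries.ext fun n => ?_)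
  exact PowerSeries.X_pow_dvd_iff.1 (((hf.sub hg).ge h (n + 1)).1 (by simp)) n n.lt_succ_self

theorem Ap.ex (hres : ∀ f, p.Ge f 0 → ∃ c : ℂ, p.Ge (f - algebraMap ℂ F c) 1) (h : p.ord π = 1)
    {f : F} (hf : p.Ge f 0) : ∃ G, Ap p π f G := by
  have h0 := rb1_ne h
  choose c hc using hres
  let nx : {f // p.Ge f 0} → {f // p.Ge f 0} := fun g =>
    ⟨(g.1 - algebraMap ℂ F (c g.1 g.2)) * π⁻¹, by
      rw [Place.ge_mul_iff (inv_ne_zero h0), p.ord_inv, h]
      exact hc g.1 g.2⟩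
  let s : ℕ → {f // p.Ge f 0} := fun n => nx^[n] ⟨f, hf⟩
  let G : PowerSeries ℂ := PowerSeries.mk fun n => c (s n).1 (s n).2
  have key : ∀ N, f - aeval π (G.trunc N) = (s N).1 * π ^ N := fun N => by
    induction N with
    | zero => simp [s]
    | succ N ih =>
      have e : (s (N + 1)).1 = ((s N).1 - algebraMap ℂ F (c (s N).1 (s N).2)) * π⁻¹ :=
        congrArg Subtype.val (Function.iterate_succ_apply' nx N _)
      rw [PowerSeries.trunc_succ, map_add, ← sub_sub, ih, e, aeval_monomial, PowerSeries.coeff_mk]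
      field_simp
      ring
  refine ⟨G, fun N => ⟨G.trunc N, ?_, ?_⟩⟩
  · rw [PowerSeries.X_pow_dvd_iff]
    intro m hm
    rw [map_sub, coeff_coe, PowerSeries.coeff_trunc, if_pos hm, sub_self]
  · rw [key, Place.ge_mul_iff (pow_ne_zero _ h0), p.ord_pow, h, mul_one, sub_self]
    exact (s N).2

theorem exists_exp (p : Place ℂ F)
    (hres : ∀ f, p.Ge f 0 → ∃ c : ℂ, p.Ge (f - algebraMap ℂ F c) 1) {π : F} (h : p.ord π = 1) :
    ∃ φ, At φ p ∧ φ π = sL := by
  have h0 := rb1_ne h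
  let O : ValuationSubring F :=
    { carrier := {f | p.Ge f 0}
      mul_mem' := fun ha hb => by simpa using ha.mul hb
      one_mem' := p.ge_one
      add_mem' := fun ha hb => ha.add hb
      zero_mem' := p.ge_zero 0
      neg_mem' := fun ha => ha.neg
      mem_or_inv_mem' := fun f => (le_total 0 (p.ord f)).imp Place.Ge.of_le fun e =>
        Place.Ge.of_le (by rw [p.ord_inv]; omega) }
  choose ψ hψ using fun f : O => Ap.ex hres h f.2
  have hp : ∀ (f : O) (q : ℂ[X]), f.1 = aeval π q → ψ f = q := fun f q e =>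
    (hψ f).unique h (e ▸ Ap.poly q)
  have hs : ∀ f g : O, ψ (f - g) = ψ f - ψ g := fun f g => (hψ _).unique h ((hψ f).sub (hψ g))
  let ψ' : O →+* PowerSeries ℂ :=
    { AddMonoidHom.ofMapSub ψ hs with
      map_one' := (hp 1 1 (map_one _).symm).trans coe_one
      map_mul' := fun f g => (hψ _).unique h ((hψ f).mul h (hψ g)) }
  have hi : Function.Injective ((HahnSeries.ofPowerSeries ℤ ℂ).comp ψ') := by
    refine HahnSeries.ofPowerSeries_injective.comp ((injective_iff_map_eq_zero ψ').2 fun f e => ?_)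
    refine Subtype.ext (by_contra fun hf => ?_)
    have := (((hψ f).ge h ((p.ord f).toNat + 1)).2 ((show ψ f = 0 from e) ▸ dvd_zero _)).le hf
    omega
  let φ₀ : F →+* LS' := IsFractionRing.lift hi
  have h1 : ∀ f : O, φ₀ f = (ψ f : LS') := fun f => IsFractionRing.lift_algebraMap hi f
  have h2 : φ₀ π = sL := by
    rw [h1 ⟨π, Place.Ge.of_le (by omega)⟩, hp _ X (aeval_X π).symm, coe_X, PowerSeries.coe_X]
    rfl
  refine ⟨{ φ₀ with commutes' := fun c => ?_ }, fun f => ?_, h2⟩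
  · change φ₀ _ = _
    rw [h1 ⟨_, p.ge_const c⟩, hp _ (C c) (aeval_C π c).symm, coe_C, PowerSeries.coe_C,
      LaurentSeries.algebraMap_apply]
  · change (φ₀ f).order = _
    by_cases hf : f = 0
    · simp [hf]
    have h3 : p.ord (f * π ^ (-p.ord f)) = 0 := by
      rw [p.ord_mul hf (zpow_ne_zero _ h0), p.ord_zpow, h]
      ring
    obtain ⟨u, hu⟩ : ∃ u : O, u.1 = f * π ^ (-p.ord f) := ⟨⟨_, Place.Ge.of_le h3.ge⟩, rfl⟩
    have h4 : (ψ u : LS').coeff 0 ≠ 0 := fun e => by
      have := (((hψ u).ge h 1).2 (by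
        rw [pow_one, PowerSeries.X_dvd_iff, ← PowerSeries.coeff_zero_eq_constantCoeff_apply]
        exact (LaurentSeries.coeff_coe_powerSeries _ 0).symm.trans e)).le
        (hu ▸ mul_ne_zero hf (zpow_ne_zero _ h0))
      rw [hu, h3] at this
      omega
    have h5 : (ψ u : LS') ≠ 0 := fun e => h4 (by rw [e]; rfl)
    have h6 : (ψ u : LS').order = 0 := by
      refine le_antisymm (HahnSeries.order_le_of_coeff_ne_zero h4) (not_lt.1 fun e => ?_)
      refine h5 (HahnSeries.coeff_order_eq_zero.1 ?_)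
      rw [PowerSeries.coeff_coe, if_pos e]
    have h7 : φ₀ f = (ψ u : LS') * HahnSeries.single (p.ord f) 1 := by
      rw [← h1, hu, RatFunc.single_zpow, show HahnSeries.single (1 : ℤ) (1 : ℂ) = φ₀ π from h2.symm,
        ← map_zpow₀, ← map_mul, mul_assoc, ← zpow_add₀ h0, neg_add_cancel, zpow_zero, mul_one]
    rw [h7, HahnSeries.order_mul h5 (HahnSeries.single_ne_zero one_ne_zero), h6,
      HahnSeries.order_single one_ne_zero, zero_add]

end Pool.Agent.GR.GE
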