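import Pool.Agent.Lib.MP_aa40d3_nt.GE.RA

/-! The degree of a function and functions with one pole. -/

set_option linter.unusedSectionVars false

open Polynomial Module
open scoped Polynomial.Bivariate IntermediateField

namespace Pool.Agent.GR.GE

open Pool.Agent.Lib.MP_a01f70_lc.QQ Pool.Agent.GR.CV

variable {F : Type} [Field F] [Algebra ℂ F]

section
open IsDedekindDomain

variable {k K : Type*} [Field k] [Field K] [Algebra k K] [Algebra k[X] K] [Algebra (RatFunc k) K]
  [IsScalarTower k k[X] K] [IsScalarTower k[X] (RatFunc k) K] [IsScalarTower k (RatFunc k) K]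
  [FiniteDimensional (RatFunc k) K] [Algebra.IsSeparable (RatFunc k) K]

theorem rc11_pow (P : HeightOneSpectrum (FunctionField.ringOfIntegers k K)) (n : ℕ) :
    (Ideal.span {(X : k[X])}).map (algebraMap k[X] (FunctionField.ringOfIntegers k K)) ≤
      P.asIdeal ^ n ↔ (n : ℤ) ≤ (ded_pl P).ord (xx k K) := by
  rw [Ideal.map_span, Set.image_singleton, Ideal.span_singleton_le_iff_mem, ← ded_ge_iff_mem]
  exact Place.ge_iff xx_ne_zero

theorem rc11_inertia (hr : ResPl k K) (P : HeightOneSpectrum (FunctionField.ringOfIntegers k K))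
    (p : Ideal k[X]) [p.IsMaximal] [P.asIdeal.LiesOver p] : p.inertiaDeg' P.asIdeal = 1 := by
  refine le_antisymm ?_ (Ideal.inertiaDeg'_pos p P.asIdeal)
  rw [Ideal.inertiaDeg'_algebraMap]
  refine finrank_le_one 1 fun w => ?_
  obtain ⟨a, rfl⟩ := Ideal.Quotient.mk_surjective w
  obtain ⟨c, hc⟩ := hr (ded_pl P) a (ded_ge_int (ded_mem P) a.2)
  refine ⟨Ideal.Quotient.mk p (C c), ?_⟩
  rw [← Algebra.algebraMap_eq_smul_one, Ideal.Quotient.algebraMap_mk_of_liesOver, eq_comm,
    Ideal.Quotient.eq, ← ded_ge_one]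
  rwa [IsScalarTower.algebraMap_apply k k[X] K] at hc

theorem rc11_sum (hr : ResPl k K) (s : Finset (Place k K))
    (hs : ∀ p, p ∈ s ↔ 0 < p.ord (xx k K)) :
    ∑ p ∈ s, p.ord (xx k K) = finrank (RatFunc k) K := by
  have hp0 : Ideal.span {(X : k[X])} ≠ ⊥ := by simp
  have hm : (Ideal.span {(X : k[X])}).IsMaximal :=
    PrincipalIdealRing.isMaximal_of_irreducible irreducible_X
  have hf := FaithfulSMul.of_field_isFractionRing k[X] (FunctionField.ringOfIntegers k K)
    (RatFunc k) K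
  choose P hP using fun p (hp : p ∈ s) => ded_surj (v := p) ((hs p).1 hp).le
  have ho : ∀ p (hp : p ∈ s), (P p hp).asIdeal.LiesOver (Ideal.span {(X : k[X])}) := fun p hp => by
    refine ⟨hm.eq_of_le (Ideal.comap_ne_top _ (P p hp).isPrime.ne_top) ?_⟩
    rw [← Ideal.map_le_iff_le_comap, ← pow_one (P p hp).asIdeal, rc11_pow, hP]
    exact (hs p).1 hp
  rw [← Ideal.sum_ramification_inertia (FunctionField.ringOfIntegers k K) (RatFunc k) K hp0,
    Nat.cast_sum]
  refine Finset.sum_bij (fun p hp => (P p hp).asIdeal) (fun p hp => ?_) (fun p hp q hq h => ?_)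
    (fun Q hQ => ?_) fun p hp => ?_
  · exact (IsDedekindDomain.mem_primesOverFinset_iff hp0 _).2 ⟨(P p hp).isPrime, ho p hp⟩
  · rw [← hP p hp, HeightOneSpectrum.ext h, hP]
  · obtain ⟨h1, h2⟩ := (IsDedekindDomain.mem_primesOverFinset_iff hp0 _).1 hQ
    let Q' : HeightOneSpectrum (FunctionField.ringOfIntegers k K) :=
      ⟨Q, h1, Ideal.ne_bot_of_liesOver_of_ne_bot hp0 Q⟩
    have h3 : ded_pl Q' ∈ s := (hs _).2 ((rc11_pow Q' 1).1 (by
      rw [pow_one, Ideal.map_le_iff_le_comap]
      exact (Ideal.over_def Q _).le))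
    refine ⟨ded_pl Q', h3, Ideal.ext fun a => ?_⟩
    rw [← ded_ge_one, hP, ded_ge_one]
  · have h1 := ho p hp
    have h2 := (hs p).1 hp
    rw [rc11_inertia hr, mul_one, Ideal.ramificationIdx'_spec (n := (p.ord (xx k K)).toNat)]
    · omega
    · rw [rc11_pow, hP]
      omega
    · rw [rc11_pow, hP]
      omega

end

variable [IsFF F]

/-- Take the coordinate `x = z⁻¹` (`exists_coord`; `ℂ⟮z⁻¹⟯ = ℂ⟮z⟯`).  The places in `s` are the
finite places `ded_pl P` (`ded_surj`) with `P` over the ideal of `X`; apply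
`Ideal.sum_ramification_inertia` to `ℂ[X] ⊆ ringOfIntegers`: the ramification index is the order
of `x` (`ded_ge_iff_mem`), the residue degree is one (`resPl'`, `ded_ge_one`). -/
theorem sum_poles {z : F} (hz : Transcendental ℂ z) (s : Finset (Place ℂ F))
    (hs : ∀ p, p ∈ s ↔ p.ord z < 0) : ∑ p ∈ s, -p.ord z = finrank ℂ⟮z⟯ F := by
  have he : ℂ⟮z⁻¹⟯ = ℂ⟮z⟯ := le_antisymm
    (IntermediateField.adjoin_simple_le_iff.2
      (inv_mem (IntermediateField.mem_adjoin_simple_self _ _)))
    (IntermediateField.adjoin_simple_le_iff.2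
      (inv_mem_iff.1 (IntermediateField.mem_adjoin_simple_self _ _)))
  obtain ⟨_, _, _, _, _, _, h1, h2⟩ :=
    exists_coord (z := z⁻¹) fun h => hz (IsAlgebraic.inv_iff.1 h)
  have h3 := rc11_sum resPl' s fun p => by rw [hs, h1, Place.ord_inv, neg_pos]
  rw [h1, h2, he] at h3
  simpa only [Place.ord_inv] using h3

/-- the pole divisor -/
theorem rc12_pd (f : F) : ∃ B : Div ℂ F, ∀ v, B v = max (-v.ord f) 0 := by
  refine ⟨(-(dv f : Div ℂ F)) ⊔ 0, fun v => ?_⟩
  rw [Finsupp.sup_apply, Finsupp.neg_apply, dv_apply finPl', Finsupp.zero_apply]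

theorem rc12_deg {z : F} (hz : Transcendental ℂ z) {B : Div ℂ F}
    (hB : ∀ v, B v = max (-v.ord z) 0) : deg B = finrank ℂ⟮z⟯ F := by
  have h := sum_poles hz B.support fun v => by
    rw [Finsupp.mem_support_iff, hB]
    omega
  rw [deg_eq_sum B subset_rfl, ← h]
  refine Finset.sum_congr rfl fun v hv => ?_
  rw [Finsupp.mem_support_iff, hB] at hv
  rw [hB]
  omega

theorem rc12_pole {z : F} (hz : Transcendental ℂ z) : ∃ p : Place ℂ F, p.ord z < 0 := by
  by_contra h
  have h1 := sum_poles hz ∅ fun v => by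
    simp only [Finset.notMem_empty, false_iff]
    exact fun hv => h ⟨v, hv⟩
  have := IsFF.fin hz
  have h2 : 0 < finrank ℂ⟮z⟯ F := finrank_pos
  rw [Finset.sum_empty] at h1
  omega

theorem rc12_tr {z : F} (h : z ∉ Submodule.span ℂ {(1 : F)}) : Transcendental ℂ z := by
  intro ha
  have hi := ha.isIntegral
  obtain ⟨c, hc⟩ := minpoly.mem_range_of_degree_eq_one ℂ z
    (IsAlgClosed.degree_eq_one_of_irreducible ℂ (minpoly.irreducible hi))
  apply h
  rw [← hc, Algebra.algebraMap_eq_smul_one]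
  exact Submodule.smul_mem _ c (Submodule.mem_span_singleton_self 1)

theorem rc12_li {x : F} (hx : Transcendental ℂ x) {ι : Type} {b : ι → F}
    (hb : LinearIndependent ℂ⟮x⟯ b) :
    LinearIndependent ℂ fun q : ℕ × ι => x ^ q.1 * b q.2 := by
  have h0 : Transcendental ℂ (IntermediateField.AdjoinSimple.gen ℂ x) := fun h =>
    hx (by simpa using h.algebraMap (A := F))
  have h1 : LinearIndependent ℂ fun i : ℕ => IntermediateField.AdjoinSimple.gen ℂ x ^ i := by
    have h2 := (Polynomial.basisMonomials ℂ).linearIndependent.map'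
      (aeval (IntermediateField.AdjoinSimple.gen ℂ x)).toLinearMap
      (LinearMap.ker_eq_bot.mpr (transcendental_iff_injective.mp h0))
    have h3 : ((aeval (IntermediateField.AdjoinSimple.gen ℂ x)).toLinearMap ∘
        (Polynomial.basisMonomials ℂ)) =
        fun i : ℕ => IntermediateField.AdjoinSimple.gen ℂ x ^ i := by
      funext i
      simp
    rwa [h3] at h2
  have h4 := linearIndependent_smul h1 hb
  have h5 : (fun q : ℕ × ι => (IntermediateField.AdjoinSimple.gen ℂ x ^ q.1) • b q.2) =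
      fun q : ℕ × ι => x ^ q.1 * b q.2 := by
    funext q
    rw [Algebra.smul_def, map_pow, IntermediateField.AdjoinSimple.algebraMap_gen]
  rwa [h5] at h4

theorem rc12_ex : ∃ (p : Place ℂ F) (z : F), z ∉ Submodule.span ℂ {(1 : F)} ∧
    ∀ v : Place ℂ F, v ≠ p → v.Ge z 0 := by
  classical
  obtain ⟨x, hx, hfin⟩ := IsFF.ex (F := F)
  obtain ⟨p, hp⟩ := rc12_pole hx
  obtain ⟨B, hB⟩ := rc12_pd x
  have hdB := rc12_deg hx hB
  have hn : 0 < finrank ℂ⟮x⟯ F := finrank_pos
  let b := Module.finBasis ℂ⟮x⟯ F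
  choose Eb hEb using fun j => rc12_pd (b j)
  have hE0 : ∀ j, 0 ≤ Eb j := fun j v => by
    rw [hEb]
    exact le_max_right _ _
  have hE : 0 ≤ ∑ j, Eb j := Finset.sum_nonneg fun j _ => hE0 j
  have hB0 : ∀ v, 0 ≤ B v := fun v => by
    rw [hB]
    exact le_max_right _ _
  obtain ⟨m, hm⟩ : ∃ m : ℕ, (m : ℤ) = deg (∑ j, Eb j) + 1 :=
    ⟨(deg (∑ j, Eb j) + 1).toNat, Int.toNat_of_nonneg (by have := deg_nonneg hE; omega)⟩
  have hli : LinearIndependent ℂ fun q : Fin (m + 1) × Fin (finrank ℂ⟮x⟯ F) =>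
      x ^ (q.1 : ℕ) * b q.2 :=
    (rc12_li hx b.linearIndependent).comp (fun q : Fin (m + 1) × Fin (finrank ℂ⟮x⟯ F) =>
      ((q.1 : ℕ), q.2)) fun q q' h => by
        rw [Prod.mk.injEq] at h
        exact Prod.ext (Fin.ext h.1) h.2
  have hrk := finrank_span_eq_card hli
  set U := Submodule.span ℂ (Set.range fun q : Fin (m + 1) × Fin (finrank ℂ⟮x⟯ F) =>
      x ^ (q.1 : ℕ) * b q.2) with hU
  have : FiniteDimensional ℂ U := FiniteDimensional.span_of_finite ℂ (Set.finite_range _)
  set D : Div ℂ F := m • B + ∑ j, Eb j with hD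
  have hDv : ∀ v, D v = m * B v + (∑ j, Eb j) v := fun v => by
    rw [hD, Finsupp.add_apply, Finsupp.smul_apply, nsmul_eq_mul]
  have hUL : U ≤ LS Set.univ D := by
    rw [hU, Submodule.span_le]
    rintro _ ⟨q, rfl⟩ v -
    have h1 : v.Ge x (-B v) := Place.Ge.of_le (by rw [hB]; omega)
    have h2 : v.Ge (b q.2) (-Eb q.2 v) := Place.Ge.of_le (by rw [hEb]; omega)
    refine ((h1.pow q.1).mul h2).mono ?_
    have h3 : Eb q.2 v ≤ (∑ j, Eb j) v :=
      Finset.single_le_sum (f := Eb) (fun j _ => hE0 j) (Finset.mem_univ q.2) v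
    have h4 : ((q.1 : ℕ) : ℤ) ≤ m := by
      have := q.1.2
      omega
    have h5 := mul_le_mul_of_nonneg_right h4 (hB0 v)
    rw [hDv]
    linarith
  have hQ : 0 ≤ D - Finsupp.single p (D p) := fun v => by
    rw [Finsupp.sub_apply, Finsupp.single_apply, Finsupp.zero_apply]
    split_ifs with h
    · rw [h, sub_self]
    · rw [sub_zero, hDv]
      exact add_nonneg (mul_nonneg (Int.natCast_nonneg m) (hB0 v)) (hE v)
  have hmain := finrank_le_add_deg resPl' hQ U hUL
  rw [sub_sub_cancel, map_sub, deg_single, hDv, hD, map_add, map_nsmul, hdB, hrk,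
    Fintype.card_prod, Fintype.card_fin, Fintype.card_fin, nsmul_eq_mul] at hmain
  have hBp : 1 ≤ B p := by
    rw [hB]
    omega
  have hEp : 0 ≤ (∑ j, Eb j) p := hE p
  have h6 := mul_le_mul_of_nonneg_left hBp (Int.natCast_nonneg m)
  by_contra hno
  have hle : U ⊓ LS Set.univ (Finsupp.single p (m * B p + (∑ j, Eb j) p)) ≤
      Submodule.span ℂ {(1 : F)} := by
    intro z hz
    by_contra hz1
    refine hno ⟨p, z, hz1, fun v hv => ?_⟩
    have := hz.2 v (Set.mem_univ v)
    rwa [Finsupp.single_apply, if_neg (Ne.symm hv), neg_zero] at this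
  have h7 := Submodule.finrank_mono hle
  rw [finrank_span_singleton one_ne_zero] at h7
  rw [Nat.cast_mul, Nat.cast_add, Nat.cast_one] at hmain
  have h8 : (0 : ℤ) < finrank ℂ⟮x⟯ F := by exact_mod_cast hn
  have h9 : (finrank ℂ (U ⊓ LS Set.univ (Finsupp.single p (m * B p + (∑ j, Eb j) p)) :
    Submodule ℂ F) : ℤ) ≤ 1 := by exact_mod_cast h7
  linarith

/-- Let `x` be transcendental, `n = [F : ℂ(x)]`, `B` the pole divisor of `x`, of degree `n > 0` by
`sum_poles` and `finPl'`, `p` a pole.  Take a basis `y j` of `F` over `ℂ(x)` of integral elements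
(`exists_smul_isIntegral`) and `c` with all `y j` in `L (c • B)`.  The `n (m + 1)` elements
`x ^ i * y j`, `i ≤ m`, are independent over `ℂ` and lie in `L ((m + c) • B)`.  By
`finrank_le_add_deg` with `Q = (m + c) • (B - p)` their span meets `L ((m + c) • p)` in dimension
at least `n (m + 1) - (m + c) (n - 1) ≥ 2` for large `m`.  So there is `z` in this space outside
the span of 1; it is transcendental, its set of poles is `{p}` (it is not empty by `sum_poles`). -/
theorem one_pole : ∃ (p : Place ℂ F) (z : F), Transcendental ℂ z ∧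
    p.ord z = -(finrank ℂ⟮z⟯ F : ℤ) := by
  obtain ⟨p, z, hz, hv⟩ := rc12_ex (F := F)
  have ht := rc12_tr hz
  have hz0 : z ≠ 0 := fun h => hz (h ▸ Submodule.zero_mem _)
  have h1 : ∀ v : Place ℂ F, v.ord z < 0 → v = p := fun v h => by
    by_contra hne
    have := (hv v hne).le hz0
    omega
  obtain ⟨q, hq⟩ := rc12_pole ht
  have h2 := sum_poles ht {p} fun v => by
    rw [Finset.mem_singleton]
    exact ⟨fun h => by rw [h, ← h1 q hq]; exact hq, h1 v⟩
  rw [Finset.sum_singleton] at h2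
  exact ⟨p, z, ht, by omega⟩

end Pool.Agent.GR.GE
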