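import Pool.Agent.Lib.MP_aa40d3_nt.GE.CA

/-! Specialisation of constants. -/

open Polynomial Filter

namespace Pool.Agent.GR.GE

/-- a `K`-linear map that is multiplicative on the subring `A` -/
structure Sp (K : Type) [Field K] [Algebra K ℂ] where
  A : Subring ℂ
  l : ℂ →ₗ[K] ℂ
  one : l 1 = 1
  mul : ∀ a ∈ A, ∀ b ∈ A, l (a * b) = l a * l b

variable {K : Type} [Field K] [Algebra K ℂ]

variable (K) in
/-- specialisations that are defined on a given finite set -/
def ev : Filter (Sp K) where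
  sets := {U | ∃ S : Set ℂ, S.Finite ∧ ∀ s : Sp K, S ⊆ s.A → s ∈ U}
  univ_sets := ⟨∅, Set.finite_empty, fun _ _ => trivial⟩
  sets_of_superset := fun ⟨S, h, h'⟩ hU => ⟨S, h, fun s hs => hU (h' s hs)⟩
  inter_sets := fun ⟨S, h, h'⟩ ⟨T, g, g'⟩ => ⟨S ∪ T, h.union g, fun s hs =>
    ⟨h' s (Set.subset_union_left.trans hs), g' s (Set.subset_union_right.trans hs)⟩⟩

theorem ev_mem (a : ℂ) : ∀ᶠ s in ev K, a ∈ s.A :=
  ⟨{a}, Set.finite_singleton a, fun _ hs => hs rfl⟩

theorem ev_inv {a : ℂ} (ha : a ≠ 0) : ∀ᶠ s in ev K, s.l a * s.l a⁻¹ = 1 := by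
  filter_upwards [ev_mem a, ev_mem a⁻¹] with s h1 h2
  rw [← s.mul a h1 _ h2, mul_inv_cancel₀ ha, s.one]

theorem ev_ne {a : ℂ} (ha : a ≠ 0) : ∀ᶠ s in ev K, s.l a ≠ 0 :=
  (ev_inv ha).mono fun _ => left_ne_zero_of_mul_eq_one

theorem Sp.rat (s : Sp K) (q : ℚ) : s.l q = q := by
  have h := map_ratCast_smul s.l ℂ ℂ q 1
  rwa [s.one, smul_eq_mul, mul_one] at h

theorem Sp.aeval (s : Sp K) {z : ℂ} (hz : z ∈ s.A) {q r : ℂ[X]} (hq : ∀ i, q.coeff i ∈ s.A)
    (hr : ∀ i, r.coeff i = s.l (q.coeff i)) : r.eval (s.l z) = s.l (q.eval z) := by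
  have h1 : ∀ i, s.l (z ^ i) = s.l z ^ i := fun i => by
    induction i with
    | zero => rw [pow_zero, pow_zero, s.one]
    | succ i ih => rw [pow_succ, pow_succ, s.mul _ (pow_mem hz i) _ hz, ih]
  have h2 : r.natDegree < q.natDegree + 1 := Nat.lt_succ_of_le (natDegree_le_iff_coeff_eq_zero.2
    fun i hi => by rw [hr, coeff_eq_zero_of_natDegree_lt hi, map_zero])
  rw [eval_eq_sum_range' h2, eval_eq_sum_range, map_sum]
  exact Finset.sum_congr rfl fun i _ => by rw [s.mul _ (hq i) _ (pow_mem hz i), h1, hr]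

theorem ev_adjoin {J : Set ℂ} {z : ℂ} (hz : z ∈ IntermediateField.adjoin ℚ J) :
    ∀ᶠ s in ev K, ∀ L : IntermediateField ℚ ℂ, (∀ j ∈ J, s.l j ∈ L) → s.l z ∈ L := by
  induction hz using IntermediateField.adjoin_induction with
  | mem a ha => exact .of_forall fun s L h => h a ha
  | algebraMap q => exact .of_forall fun s L _ => (s.rat q).symm ▸ L.algebraMap_mem q
  | add a b _ _ ha hb =>
    filter_upwards [ha, hb] with s h1 h2 L h
    exact map_add s.l a b ▸ add_mem (h1 L h) (h2 L h)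
  | inv a _ ha =>
    rcases eq_or_ne a 0 with rfl | h0
    · rwa [inv_zero]
    filter_upwards [ha, ev_inv h0] with s h1 h2 L h
    exact eq_inv_of_mul_eq_one_right h2 ▸ inv_mem (h1 L h)
  | mul a b _ _ ha hb =>
    filter_upwards [ha, hb, ev_mem a, ev_mem b] with s h1 h2 h3 h4 L h
    exact (s.mul a h3 b h4).symm ▸ mul_mem (h1 L h) (h2 L h)

/-- algebraic dependence survives -/
theorem ev_acl {J : Set ℂ} {z : ℂ} (hz : z ∈ acl J) :
    ∀ᶠ s in ev K, ∀ J' : Set ℂ, (∀ j ∈ J, s.l j ∈ acl J') → s.l z ∈ acl J' := by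
  obtain ⟨q, hq, h⟩ := mem_acl.1 hz
  have h1 : ∀ᶠ s in ev K, ∀ i ∈ q.support, (q.coeff i : ℂ) ∈ s.A ∧ s.l (q.coeff i) ≠ 0 ∧
      ∀ L : IntermediateField ℚ ℂ, (∀ j ∈ J, s.l j ∈ L) → s.l (q.coeff i) ∈ L :=
    (eventually_all_finset _).2 fun i hi => (ev_mem _).and
      ((ev_ne fun e => mem_support_iff.1 hi (Subtype.ext e)).and (ev_adjoin (q.coeff i).2))
  filter_upwards [h1, ev_mem z] with s h1 h2 J' hJ
  have h3 : ∀ i, (q.coeff i : ℂ) ∈ s.A ∧ s.l (q.coeff i) ∈ acl J' := fun i => by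
    by_cases hi : i ∈ q.support
    · exact ⟨(h1 i hi).1, (h1 i hi).2.2 _ hJ⟩
    · rw [notMem_support_iff.1 hi, ZeroMemClass.coe_zero, map_zero]
      exact ⟨zero_mem _, zero_mem _⟩
  let r : (acl J')[X] := ∑ i ∈ q.support, monomial i ⟨_, (h3 i).2⟩
  have h4 : ∀ i, (r.coeff i : ℂ) = s.l (q.coeff i) := fun i => by
    simp only [r, finsetSum_coeff, coeff_monomial, Finset.sum_ite_eq']
    split_ifs with hi
    · rfl
    · rw [notMem_support_iff.1 hi, ZeroMemClass.coe_zero, ZeroMemClass.coe_zero, map_zero]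
  refine acl_closed ⟨r, fun e => (h1 _ (natDegree_mem_support_of_nonzero hq)).2.1 ?_, ?_⟩
  · rw [← h4, e, coeff_zero, ZeroMemClass.coe_zero]
  · rw [← eval_map_algebraMap, s.aeval h2 (q := q.map (algebraMap _ ℂ))
      (fun i => by rw [coeff_map]; exact (h3 i).1)
      (fun i => by rw [coeff_map, coeff_map]; exact h4 i), eval_map_algebraMap, h, map_zero]

theorem val_mul_lt {V : ValuationSubring ℂ} {a b : ℂ} (ha : V.valuation a ≤ 1)
    (hb : V.valuation b < 1) : V.valuation (a * b) < 1 := by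
  rw [map_mul]
  exact mul_lt_one_of_nonneg_of_lt_one_right ha zero_le hb

/-- the specialisation defined by a valuation ring -/
theorem sp_of_val (V : ValuationSubring ℂ) (hK : ∀ k : K, algebraMap K ℂ k ∈ V) :
    ∃ s : Sp K, ∀ (a : ℂ) (k : K), V.valuation (a - algebraMap K ℂ k) < 1 →
      a ∈ s.A ∧ s.l a = algebraMap K ℂ k := by
  have hv : ∀ k : K, V.valuation (algebraMap K ℂ k) ≤ 1 := fun k =>
    (V.valuation_le_one_iff _).2 (hK k)
  let m : Submodule K ℂ :=
    { carrier := {a | V.valuation a < 1}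
      add_mem' := fun ha hb => V.valuation.map_add_lt ha hb
      zero_mem' := by simp
      smul_mem' := fun k a ha => by
        rw [Algebra.smul_def]
        exact val_mul_lt (hv k) ha }
  obtain ⟨l, h0, h1⟩ := LinearMap.exists_extend_of_notMem (0 : m →ₗ[K] ℂ) (v := 1)
    (fun h : V.valuation 1 < 1 => by simp at h) 1
  have h2 : ∀ (a : ℂ) (k : K), V.valuation (a - algebraMap K ℂ k) < 1 →
      l a = algebraMap K ℂ k := fun a k h => by
    have h3 : l (a - algebraMap K ℂ k) = 0 := LinearMap.congr_fun h0 ⟨_, h⟩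
    rwa [map_sub, Algebra.algebraMap_eq_smul_one, map_smul, h1, sub_eq_zero,
      ← Algebra.algebraMap_eq_smul_one] at h3
  have h4 : ∀ {a b : ℂ} {k k' : K}, V.valuation (a - algebraMap K ℂ k) < 1 →
      V.valuation (b - algebraMap K ℂ k') < 1 →
      V.valuation (a * b - algebraMap K ℂ (k * k')) < 1 := fun {a b k k'} ha hb => by
    have e : a * b - algebraMap K ℂ (k * k') = (a - algebraMap K ℂ k) * (b - algebraMap K ℂ k') +
        (algebraMap K ℂ k * (b - algebraMap K ℂ k') +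
          algebraMap K ℂ k' * (a - algebraMap K ℂ k)) := by
      rw [map_mul]
      ring
    rw [e]
    exact V.valuation.map_add_lt (val_mul_lt ha.le hb)
      (V.valuation.map_add_lt (val_mul_lt (hv k) hb) (val_mul_lt (hv k') ha))
  refine ⟨⟨{
    carrier := {a | ∃ k : K, V.valuation (a - algebraMap K ℂ k) < 1}
    mul_mem' := fun ⟨k, ha⟩ ⟨k', hb⟩ => ⟨_, h4 ha hb⟩
    one_mem' := ⟨1, by simp⟩
    add_mem' := fun ⟨k, ha⟩ ⟨k', hb⟩ => ⟨k + k', by
      rw [map_add, add_sub_add_comm]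
      exact V.valuation.map_add_lt ha hb⟩
    zero_mem' := ⟨0, by simp⟩
    neg_mem' := fun ⟨k, ha⟩ => ⟨-k, by rwa [map_neg, ← neg_sub', Valuation.map_neg]⟩ }, l, h1,
    fun a ⟨k, ha⟩ b ⟨k', hb⟩ => by rw [h2 _ _ (h4 ha hb), h2 _ _ ha, h2 _ _ hb, map_mul]⟩,
    fun a k h => ⟨⟨k, h⟩, h2 a k h⟩⟩

/-- an integral element has a residue in `K` -/
theorem res_of_int [IsAlgClosed K] (V : ValuationSubring ℂ) (B : Subalgebra K ℂ) (τ : B →ₐ[K] K)
    (h : ∀ b : B, V.valuation (b - algebraMap K ℂ (τ b)) < 1)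
    (hB : ∀ b : B, V.valuation b ≤ 1) {z : ℂ} (hz : IsIntegral B z) :
    ∃ k : K, V.valuation (z - algebraMap K ℂ k) < 1 := by
  have h1 : V.valuation z ≤ 1 := (Valuation.integer.integers V.valuation).mem_of_integral
    (hz.map_of_comp_eq (B.val.toRingHom.codRestrict V.valuation.integer hB) (RingHom.id ℂ) rfl)
  have h2 : ∀ q : B[X], V.valuation (aeval z (q.map τ.toRingHom) - aeval z q) < 1 := fun q => by
    induction q using Polynomial.induction_on' with
    | add a b ha hb =>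
      rw [Polynomial.map_add, map_add, map_add, add_sub_add_comm]
      exact V.valuation.map_add_lt ha hb
    | monomial i b =>
      rw [Polynomial.map_monomial, aeval_monomial, aeval_monomial, ← sub_mul, mul_comm]
      refine val_mul_lt (by rw [map_pow]; exact pow_le_one₀ zero_le h1) ?_
      rw [Valuation.map_sub_swap]
      exact h b
  obtain ⟨q, hq, h3⟩ := hz
  have h4 := h2 q
  rw [show aeval z q = 0 from h3, sub_zero, (IsAlgClosed.splits _).eq_prod_roots_of_monic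
    (hq.map _), map_multiset_prod, map_multiset_prod, Multiset.map_map, Multiset.map_map] at h4
  by_contra h5
  refine h4.not_ge (Multiset.one_le_prod_of_one_le fun a ha => ?_)
  obtain ⟨k, -, rfl⟩ := Multiset.mem_map.1 ha
  simpa using not_lt.1 fun e => h5 ⟨k, e⟩

theorem exists_sp [IsAlgClosed K] [CharZero K] {I : Set ℂ}
    (hI : AlgebraicIndependent K ((↑) : I → ℂ)) :
    ∃ᶠ s in ev K, ∀ i ∈ I, ∃ q : ℚ, s.l i = (q : ℂ) := by
  rintro ⟨S, hS, h⟩
  obtain ⟨t, h1, h2⟩ := exists_isTranscendenceBasis_superset (R := K) (s := I) hI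
  have := h2.isAlgebraic
  obtain ⟨y, hy, h3⟩ := Algebra.IsAlgebraic.exists_integral_multiples
    (Algebra.adjoin K (Set.range ((↑) : t → ℂ))) hS.toFinset
  obtain ⟨q, hq, h4⟩ : ∃ q ∈ Set.univ.pi fun _ : t => Set.range ((↑) : ℚ → K),
      MvPolynomial.eval q (h2.1.aevalEquiv.symm y) ≠ 0 := by
    by_contra! e
    exact hy (h2.1.aevalEquiv.symm.map_eq_zero_iff.1 (MvPolynomial.funext_set _
      (fun _ => Set.infinite_range_of_injective Rat.cast_injective) fun q hq =>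
        (e q hq).trans (map_zero _).symm))
  let τ := (MvPolynomial.aeval q).comp h2.1.aevalEquiv.symm.toAlgHom
  obtain ⟨V, v1, v2⟩ := Ideal.image_subset_nonunits_valuationSubring
    (A := (Algebra.adjoin K (Set.range ((↑) : t → ℂ))).toSubring) (RingHom.ker τ.toRingHom)
    (RingHom.ker_ne_top _)
  have v3 : ∀ b : Algebra.adjoin K (Set.range ((↑) : t → ℂ)),
      V.valuation (b - algebraMap K ℂ (τ b)) < 1 := fun b =>
    V.mem_nonunits_iff.1 (v2 ⟨_, (show τ (b - algebraMap K _ (τ b)) = 0 by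
      rw [map_sub, τ.commutes, Algebra.algebraMap_self_apply, sub_self]), rfl⟩)
  have v4 : ∀ k : K, algebraMap K ℂ k ∈ V := fun k => v1 (Subalgebra.algebraMap_mem _ k)
  have v5 : ∀ k : K, V.valuation (algebraMap K ℂ k) ≤ 1 := fun k =>
    (V.valuation_le_one_iff _).2 (v4 k)
  obtain ⟨s, hs⟩ := sp_of_val V v4
  refine h s (fun a ha => ?_) fun i hi => ?_
  · obtain ⟨k, hk⟩ := res_of_int V _ τ v3 (fun b => (V.valuation_le_one_iff _).2 (v1 b.2))
      (h3 a (hS.mem_toFinset.2 ha))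
    have h5 : algebraMap K ℂ (τ y) ≠ 0 := (_root_.map_ne_zero _).2 h4
    have h6 : V.valuation (y * algebraMap K ℂ (τ y)⁻¹) = 1 := by
      have e : y * algebraMap K ℂ (τ y)⁻¹ =
          1 + algebraMap K ℂ (τ y)⁻¹ * (y - algebraMap K ℂ (τ y)) := by
        rw [map_inv₀]
        field_simp
        ring
      rw [e]
      exact V.valuation.map_one_add_of_lt (val_mul_lt (v5 _) (v3 y))
    refine (hs a (k / τ y) ?_).1
    have e : y * algebraMap K ℂ (τ y)⁻¹ * (a - algebraMap K ℂ (k / τ y)) =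
        algebraMap K ℂ (τ y)⁻¹ * ((y * a - algebraMap K ℂ k) -
          algebraMap K ℂ (k / τ y) * (y - algebraMap K ℂ (τ y))) := by
      rw [map_div₀]
      field_simp
      ring
    have h7 := val_mul_lt (v5 (τ y)⁻¹)
      (V.valuation.map_sub_lt hk (val_mul_lt (v5 (k / τ y)) (v3 y)))
    rwa [Subalgebra.smul_def, smul_eq_mul, ← e, map_mul, h6, one_mul] at h7
  · obtain ⟨r, hr⟩ := hq ⟨i, h1 hi⟩ trivial
    have h5 := (hs _ _ (v3 (h2.1.aevalEquiv (.X ⟨i, h1 hi⟩)))).2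
    refine ⟨r, ?_⟩
    simpa [τ, ← hr] using h5

end Pool.Agent.GR.GE
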