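import Pool.Agent.Lib.MP_aa40d3_nt.GE.SB

/-! Places that are rational over a subfield of the constants. -/

open Polynomial TensorProduct

namespace Pool.Agent.GR.GE

open Pool.Agent.Lib.MP_a01f70_lc.QQ

variable {K F : Type} [Field K] [Field F] [Algebra ℂ F] [Algebra K ℂ] [Algebra K F]
  [IsScalarTower K ℂ F] {p : Place ℂ F}

/-- the residues at `p` of the elements of `E` lie in `K` -/
def RatAt (E : IntermediateField K F) (p : Place ℂ F) : Prop :=
  ∀ z ∈ E, p.Ge z 0 → ∃ k : K, p.Ge (z - algebraMap K F k) 1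

theorem sc_const (k : K) : p.Ge (algebraMap K F k) 0 :=
  (IsScalarTower.algebraMap_apply K ℂ F k).symm ▸ p.ge_const _

theorem sc_adjoin {R : Type} [CommRing R] [Algebra R F] (hR : ∀ r, p.Ge (algebraMap R F r) 0)
    {z t : F} (hz : p.Ge z 0) (ht : t ∈ Algebra.adjoin R {z}) : p.Ge t 0 := by
  induction ht using Algebra.adjoin_induction with
  | mem a ha => exact ha ▸ hz
  | algebraMap c => exact hR c
  | add a b _ _ ha hb => exact ha.add hb
  | mul a b _ _ ha hb => simpa using ha.mul hb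

theorem sc_aeval {z : F} {ρ : ℂ} (h : p.Ge (z - algebraMap ℂ F ρ) 1) (q : K[X]) :
    p.Ge (aeval z q - algebraMap ℂ F (aeval ρ q)) 1 := by
  have hz : p.Ge z 0 := by simpa using (h.mono zero_le_one).add (p.ge_const ρ)
  induction q using Polynomial.induction_on with
  | C a => simp [← IsScalarTower.algebraMap_apply]
  | add a b ha hb =>
    rw [map_add, map_add, map_add, add_sub_add_comm]
    exact ha.add hb
  | monomial i a ih =>
    have h1 := (ih.mul hz).add ((p.ge_const (aeval ρ (C a * X ^ i))).mul h)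
    rw [add_zero, sub_mul, mul_sub, sub_add_sub_cancel, ← map_mul] at h1
    rwa [pow_succ, ← mul_assoc, map_mul _ _ X, map_mul _ _ X, aeval_X, aeval_X]

/-- An element with transcendental residue generates a ring of units. -/
theorem ratAt_closure [IsAlgClosed K] (hres : ResPl ℂ F) {x : F}
    (hx : p.ord x < 0 ∨ ∃ k : K, 0 < p.ord (x - algebraMap K F k)) {E : IntermediateField K F}
    (hE : ∀ z ∈ E, IsAlgebraic (Algebra.adjoin K {x}) z) : RatAt E p := by
  intro z hz h0
  obtain ⟨ρ, hρ⟩ := hres p z h0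
  by_contra h
  have h1 : ∀ q : K[X], p.Ge (aeval z q) 1 → q = 0 := fun q hq => by
    by_contra e
    have h2 := hq.sub (sc_aeval hρ q)
    rw [sub_sub_cancel] at h2
    obtain ⟨k, rfl⟩ := (IsAlgClosed.splits q).mem_range_of_isRoot e (i := algebraMap K ℂ) (x := ρ)
      (by rw [IsRoot, eval_map_algebraMap, Place.const_eq_zero_of_ge h2])
    exact h ⟨k, by rwa [IsScalarTower.algebraMap_apply K ℂ F]⟩
  have h2 : IsAlgebraic (Algebra.adjoin K {z}) x := by
    have h3 := Matroid.mem_closure_insert (M := AlgebraicIndependent.matroid K F) (X := ∅) (e := z)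
      (f := x) (fun e => by
        rw [AlgebraicIndependent.matroid_closure_eq] at e
        have : Algebra.IsAlgebraic K (Algebra.adjoin K (∅ : Set F)) := by
          rw [Algebra.adjoin_empty]
          infer_instance
        obtain ⟨q, e1, e2⟩ := IsAlgebraic.restrictScalars K
          (show IsAlgebraic (Algebra.adjoin K (∅ : Set F)) z from e)
        exact e1 (h1 q (.inl e2)))
      (by rw [AlgebraicIndependent.matroid_closure_eq, insert_empty_eq]; exact hE z hz)
    rwa [AlgebraicIndependent.matroid_closure_eq, insert_empty_eq] at h3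
  obtain ⟨π, h3, h4⟩ : ∃ π : F, 0 < p.ord π ∧ IsAlgebraic (Algebra.adjoin K {z}) π := by
    rcases hx with hx | ⟨k, hx⟩
    · exact ⟨x⁻¹, by rwa [p.ord_inv, neg_pos], h2.inv⟩
    · exact ⟨_, hx, h2.sub (isAlgebraic_algebraMap (algebraMap K (Algebra.adjoin K {z}) k))⟩
  obtain ⟨t, ht, ⟨r, hr⟩, h5, h6⟩ := h4.exists_nonzero_eq_adjoin_mul
    (mem_nonZeroDivisors_of_ne_zero fun e => by simp [e] at h3)
  have h7 := (Place.Ge.of_le (m := 1) h3).mul
    (sc_adjoin (fun r => sc_adjoin sc_const h0 r.2) (.of_le h3.le) ht)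
  rw [Algebra.adjoin_singleton_eq_range_aeval] at hr
  obtain ⟨q, rfl⟩ := hr
  rw [h6, add_zero] at h7
  exact h5 (Subtype.ext ((congrArg (aeval z) (h1 q h7)).trans (map_zero _)))

variable (E : IntermediateField K F)

/-- apply `l` to the constants and multiply -/
noncomputable def lam (l : ℂ →ₗ[K] ℂ) : ℂ ⊗[K] E →ₗ[K] F :=
  TensorProduct.lift ((LinearMap.mul K F ∘ₗ (IsScalarTower.toAlgHom K ℂ F).toLinearMap ∘ₗ l).compl₂
    E.val.toLinearMap)

theorem lam_tmul (l : ℂ →ₗ[K] ℂ) (a : ℂ) (z : E) :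
    lam E l (a ⊗ₜ z) = algebraMap ℂ F (l a) * z := rfl

variable {E}

/-- the leading coefficient at a rational place -/
theorem lead (hp : RatAt E p) {w : ℂ ⊗[K] E} (hw : w ≠ 0) : ∃ (ρ : ℂ) (m : ℤ), ρ ≠ 0 ∧
    ∀ l : ℂ →ₗ[K] ℂ, l ρ ≠ 0 → lam E l w ≠ 0 ∧ p.ord (lam E l w) = m := by
  obtain ⟨c, rfl⟩ := TensorProduct.eq_repr_basis_left (Module.Basis.ofVectorSpace K ℂ) w
  obtain ⟨j, hj, hm⟩ := c.support.exists_min_image (fun i => p.ord (c i))
    (Finsupp.support_nonempty_iff.2 fun e => hw (by rw [e, Finsupp.sum_zero_index]))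
  have hc : ∀ i ∈ c.support, (c i : F) ≠ 0 := fun i hi e =>
    Finsupp.mem_support_iff.1 hi (Subtype.ext e)
  have h1 : ∀ i, ∃ k : K, i ∈ c.support → p.Ge (c i / c j - algebraMap K F k) 1 := fun i => by
    by_cases hi : i ∈ c.support
    · exact (hp _ (div_mem (c i).2 (c j).2) (.of_le (by
        rw [p.ord_div (hc i hi) (hc j hj)]
        exact sub_nonneg.2 (hm i hi)))).imp fun _ h _ => h
    · exact ⟨0, fun h => absurd h hi⟩
  choose k hk using h1
  refine ⟨∑ i ∈ c.support, k i • Module.Basis.ofVectorSpace K ℂ i, p.ord (c j), fun e => ?_,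
    fun l hl => ?_⟩
  · have h2 := hk j hj
    rw [linearIndependent_iff'.1 (Module.Basis.ofVectorSpace K ℂ).linearIndependent _ _ e j hj,
      div_self (hc j hj), map_zero, sub_zero, ← map_one (algebraMap ℂ F)] at h2
    exact one_ne_zero (Place.const_eq_zero_of_ge h2)
  · have h2 := Place.Ge.sum (s := c.support) fun i hi =>
      (p.ge_const (l (Module.Basis.ofVectorSpace K ℂ i))).mul (hk i hi)
    have h3 := Place.ord_add_of_ge (v := p) ((_root_.map_ne_zero (algebraMap ℂ F)).2 hl)
      (by rw [p.ord_const]; exact h2)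
    have e : lam E l (c.sum fun i z => Module.Basis.ofVectorSpace K ℂ i ⊗ₜ z) =
        (algebraMap ℂ F (l (∑ i ∈ c.support, k i • Module.Basis.ofVectorSpace K ℂ i)) +
          ∑ i ∈ c.support, algebraMap ℂ F (l (Module.Basis.ofVectorSpace K ℂ i)) *
            (c i / c j - algebraMap K F (k i))) * c j := by
      rw [Finsupp.sum, map_sum, map_sum, map_sum, ← Finset.sum_add_distrib, Finset.sum_mul]
      refine Finset.sum_congr rfl fun i _ => ?_
      have := hc j hj
      rw [lam_tmul, map_smul, Algebra.smul_def, map_mul, ← IsScalarTower.algebraMap_apply]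
      field_simp
      ring
    rw [e, p.ord_mul h3.1 (hc j hj), h3.2, p.ord_const, zero_add]
    exact ⟨mul_ne_zero h3.1 (hc j hj), rfl⟩

theorem lam_inj (hp : RatAt E p) {w : ℂ ⊗[K] E} (h : lam E .id w = 0) : w = 0 := by
  by_contra hw
  obtain ⟨ρ, m, h0, h1⟩ := lead hp hw
  exact (h1 .id h0).1 h

end Pool.Agent.GR.GE
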