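import Pool.Agent.Lib.MP_aa40d3_nt.GE.SC

/-! The graph of a specialisation on the function field. -/

set_option linter.unusedSectionVars false

open Polynomial TensorProduct Filter
open scoped Polynomial.Bivariate IntermediateField

namespace Pool.Agent.GR.GE

open Pool.Agent.Lib.MP_a01f70_lc.QQ

variable {K F : Type} [Field K] [Field F] [Algebra ℂ F] [Algebra K ℂ] [Algebra K F]
  [IsScalarTower K ℂ F] {p : Place ℂ F} (E : IntermediateField K F) (s : Sp K)

/-- the pairs `(a z, l (a) z)` -/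
def grM : Submonoid (F × F) where
  carrier := {x | ∃ a ∈ s.A, ∃ z ∈ E, x = (algebraMap ℂ F a * z, algebraMap ℂ F (s.l a) * z)}
  one_mem' := ⟨1, one_mem _, 1, one_mem _, by rw [s.one, map_one, one_mul]; rfl⟩
  mul_mem' := by
    rintro _ _ ⟨a, ha, z, hz, rfl⟩ ⟨b, hb, u, hu, rfl⟩
    refine ⟨_, mul_mem ha hb, _, mul_mem hz hu, ?_⟩
    rw [s.mul a ha b hb, map_mul, map_mul, Prod.mk_mul_mk, mul_mul_mul_comm,
      mul_mul_mul_comm _ z]

/-- the graph on the ring generated by `A` and `E` -/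
def grG : Subring (F × F) := Subring.closure (grM E s)

/-- the graph on the local ring -/
def grH : Subring (F × F) where
  carrier := {x | ∃ c ∈ grG E s, c.2 ≠ 0 ∧ x * c ∈ grG E s}
  one_mem' := ⟨1, one_mem _, one_ne_zero, mul_mem (one_mem _) (one_mem _)⟩
  zero_mem' := ⟨1, one_mem _, one_ne_zero, mul_mem (zero_mem _) (one_mem _)⟩
  mul_mem' := fun ⟨c, h1, h2, h3⟩ ⟨d, g1, g2, g3⟩ =>
    ⟨_, mul_mem h1 g1, mul_ne_zero h2 g2, mul_mul_mul_comm _ c _ d ▸ mul_mem h3 g3⟩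
  add_mem' := fun {x y} ⟨c, h1, h2, h3⟩ ⟨d, g1, g2, g3⟩ =>
    ⟨_, mul_mem h1 g1, mul_ne_zero h2 g2,
      (by ring : x * c * d + c * (y * d) = (x + y) * (c * d)) ▸
        add_mem (mul_mem h3 g1) (mul_mem h1 g3)⟩
  neg_mem' := fun {x} ⟨c, h1, h2, h3⟩ => ⟨c, h1, h2, (neg_mul x c).symm ▸ neg_mem h3⟩

variable {E s}

theorem grG_tensor {x : F × F} (h : x ∈ grG E s) : ∃ w, x = (lam E .id w, lam E s.l w) := by
  rw [grG, Subring.mem_closure_iff, Submonoid.closure_eq] at h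
  induction h using AddSubgroup.closure_induction with
  | mem x hx =>
    obtain ⟨a, -, z, hz, rfl⟩ := hx
    exact ⟨a ⊗ₜ ⟨z, hz⟩, rfl⟩
  | zero => exact ⟨0, by rw [map_zero, map_zero]; rfl⟩
  | add x y _ _ hx hy =>
    obtain ⟨u, rfl⟩ := hx
    obtain ⟨w, rfl⟩ := hy
    exact ⟨u + w, by rw [map_add, map_add]; rfl⟩
  | neg x _ hx =>
    obtain ⟨u, rfl⟩ := hx
    exact ⟨-u, by rw [map_neg, map_neg]; rfl⟩

theorem grH_of {x : F × F} (h : x ∈ grG E s) : x ∈ grH E s :=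
  ⟨1, one_mem _, one_ne_zero, mul_mem h (one_mem _)⟩

theorem grH_const {a : ℂ} (ha : a ∈ s.A) :
    (algebraMap ℂ F a, algebraMap ℂ F (s.l a)) ∈ grH E s :=
  grH_of (Subring.subset_closure ⟨a, ha, 1, one_mem _, by rw [mul_one, mul_one]⟩)

theorem grH_fix {z : F} (hz : z ∈ E) : (z, z) ∈ grH E s :=
  grH_of (Subring.subset_closure ⟨1, one_mem _, z, hz, by rw [s.one, map_one, one_mul]⟩)

theorem grH_uniq (hp : RatAt E p) {z u v : F} (h : (z, u) ∈ grH E s) (h' : (z, v) ∈ grH E s) :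
    u = v := by
  obtain ⟨c, -, h2, h3⟩ := sub_mem h h'
  obtain ⟨w, hw⟩ := grG_tensor h3
  obtain ⟨e1, e2⟩ := Prod.ext_iff.1 hw
  obtain rfl := lam_inj hp (e1.symm.trans (by simp))
  exact sub_eq_zero.1 ((mul_eq_zero.1 (e2.trans (map_zero _))).resolve_right h2)

theorem grH_inv (hp : RatAt E p) {z u : F} (h : (z, u) ∈ grH E s) (hu : u ≠ 0) :
    (z⁻¹, u⁻¹) ∈ grH E s := by
  have hz : z ≠ 0 := fun e => hu (grH_uniq hp (e ▸ h) (zero_mem _))
  obtain ⟨c, h1, h2, h3⟩ := h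
  refine ⟨_, h3, mul_ne_zero hu h2, ?_⟩
  rwa [← mul_assoc, Prod.mk_mul_mk z⁻¹, inv_mul_cancel₀ hz, inv_mul_cancel₀ hu, Prod.mk_one_one,
    one_mul]

theorem ev_tensor (w : ℂ ⊗[K] E) : ∀ᶠ s in ev K, (lam E .id w, lam E s.l w) ∈ grH E s := by
  induction w with
  | zero => exact .of_forall fun s => by rw [map_zero, map_zero]; exact zero_mem _
  | tmul a z =>
    exact (ev_mem a).mono fun s h => grH_of (Subring.subset_closure ⟨a, h, z, z.2, rfl⟩)
  | add u w hu hw =>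
    filter_upwards [hu, hw] with s h1 h2
    rw [map_add, map_add]
    exact add_mem h1 h2

theorem ex_tensor {S : Set F} (hS : S ⊆ E) {z : F} (hz : z ∈ Algebra.adjoin ℂ S) :
    ∃ w, z = lam E .id w := by
  have h : (z, z) ∈ grG E ⟨⊤, .id, rfl, fun _ _ _ _ => rfl⟩ := by
    induction hz using Algebra.adjoin_induction with
    | mem a ha => exact Subring.subset_closure ⟨1, trivial, a, hS ha, by simp⟩
    | algebraMap c => exact Subring.subset_closure ⟨c, trivial, 1, one_mem _, by simp⟩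
    | add a b _ _ ha hb => exact add_mem ha hb
    | mul a b _ _ ha hb => exact mul_mem ha hb
  exact (grG_tensor h).imp fun _ e => congrArg Prod.fst e

/-- every function specialises, and keeps its order at a rational place -/
theorem ev_ord (hp : RatAt E p) {S : Set F} (hS : S ⊆ E) (hg : IntermediateField.adjoin ℂ S = ⊤)
    {z : F} (hz : z ≠ 0) :
    ∀ᶠ s in ev K, ∃ u, (z, u) ∈ grH E s ∧ u ≠ 0 ∧ p.ord u = p.ord z := by
  obtain ⟨a, ha, b, hb, rfl⟩ := IntermediateField.mem_adjoin_iff_div.1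
    (hg ▸ IntermediateField.mem_top : z ∈ IntermediateField.adjoin ℂ S)
  obtain ⟨a, rfl⟩ := ex_tensor hS ha
  obtain ⟨b, rfl⟩ := ex_tensor hS hb
  obtain ⟨h1, h2⟩ := div_ne_zero_iff.1 hz
  obtain ⟨ρ, m, h3, h4⟩ := lead hp (w := a) fun e => h1 (by rw [e, map_zero])
  obtain ⟨σ, n, h5, h6⟩ := lead hp (w := b) fun e => h2 (by rw [e, map_zero])
  filter_upwards [ev_tensor a, ev_tensor b, ev_ne h3, ev_ne h5] with s k1 k2 k3 k4
  refine ⟨_, by rw [div_eq_mul_inv]; exact mul_mem k1 (grH_inv hp k2 (h6 _ k4).1), mul_ne_zero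
    (h4 _ k3).1 (inv_ne_zero (h6 _ k4).1), ?_⟩
  rw [p.ord_div h1 h2, ← div_eq_mul_inv, p.ord_div (h4 _ k3).1 (h6 _ k4).1, (h4 _ k3).2,
    (h6 _ k4).2, (h4 .id h3).2, (h6 .id h5).2]

theorem ev_gen (hp : RatAt E p) {S : Set F} (hS : S ⊆ E) (hg : IntermediateField.adjoin ℂ S = ⊤)
    {f w z : F} (hz : z ∈ ℂ⟮f, w⟯) : ∀ᶠ s in ev K, ∀ u v, (f, u) ∈ grH E s → (w, v) ∈ grH E s →
      ∃ z' ∈ ℂ⟮u, v⟯, (z, z') ∈ grH E s := by
  induction hz using IntermediateField.adjoin_induction with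
  | mem a ha =>
    refine .of_forall fun s u v hu hv => ?_
    rcases ha with rfl | rfl
    · exact ⟨u, IntermediateField.subset_adjoin _ _ (.inl rfl), hu⟩
    · exact ⟨v, IntermediateField.subset_adjoin _ _ (.inr rfl), hv⟩
  | algebraMap c =>
    exact (ev_mem c).mono fun s h u v _ _ => ⟨_, IntermediateField.algebraMap_mem _ _, grH_const h⟩
  | add a b _ _ ha hb =>
    filter_upwards [ha, hb] with s h1 h2 u v hu hv
    obtain ⟨a', k1, k2⟩ := h1 u v hu hv
    obtain ⟨b', k3, k4⟩ := h2 u v hu hv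
    exact ⟨_, add_mem k1 k3, add_mem k2 k4⟩
  | inv a _ ha =>
    rcases eq_or_ne a 0 with rfl | h0
    · rwa [inv_zero]
    filter_upwards [ha, ev_ord hp hS hg h0] with s h1 ⟨a', k1, k2, _⟩ u v hu hv
    obtain ⟨b', k3, k4⟩ := h1 u v hu hv
    exact ⟨_, inv_mem k3, grH_inv hp k4 (grH_uniq hp k1 k4 ▸ k2)⟩
  | mul a b _ _ ha hb =>
    filter_upwards [ha, hb] with s h1 h2 u v hu hv
    obtain ⟨a', k1, k2⟩ := h1 u v hu hv
    obtain ⟨b', k3, k4⟩ := h2 u v hu hv
    exact ⟨_, mul_mem k1 k3, mul_mem k2 k4⟩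

theorem ev_poly (q : ℂ[X]) : ∀ᶠ s in ev K, ∃ r : ℂ[X], (∀ j, r.coeff j = s.l (q.coeff j)) ∧
    ∀ f u, (f, u) ∈ grH E s → (aeval f q, aeval u r) ∈ grH E s := by
  induction q using Polynomial.induction_on' with
  | add a b ha hb =>
    filter_upwards [ha, hb] with s ⟨a', h1, h2⟩ ⟨b', h3, h4⟩
    refine ⟨a' + b', fun j => by rw [coeff_add, coeff_add, map_add, h1, h3], fun f u h => ?_⟩
    rw [map_add, map_add]
    exact add_mem (h2 f u h) (h4 f u h)
  | monomial i a =>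
    filter_upwards [ev_mem a] with s ha
    refine ⟨monomial i (s.l a), fun j => by
      rw [coeff_monomial, coeff_monomial, apply_ite s.l, map_zero], fun f u h => ?_⟩
    rw [aeval_monomial, aeval_monomial]
    exact mul_mem (grH_const ha) (pow_mem h i)

theorem ev_poly2 (P : ℂ[X][Y]) : ∀ᶠ s in ev K, ∃ Q : ℂ[X][Y],
    (∀ i j, (Q.coeff i).coeff j = s.l ((P.coeff i).coeff j)) ∧ ∀ f w u v, (f, u) ∈ grH E s →
      (w, v) ∈ grH E s → (aevalAeval f w P, aevalAeval u v Q) ∈ grH E s := by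
  induction P using Polynomial.induction_on' with
  | add a b ha hb =>
    filter_upwards [ha, hb] with s ⟨a', h1, h2⟩ ⟨b', h3, h4⟩
    refine ⟨a' + b', fun i j => by simp only [coeff_add, map_add, h1, h3],
      fun f w u v h h' => ?_⟩
    rw [map_add, map_add]
    exact add_mem (h2 f w u v h h') (h4 f w u v h h')
  | monomial i a =>
    filter_upwards [ev_poly (E := E) a] with s ⟨r, h1, h2⟩
    refine ⟨monomial i r, fun k j => ?_, fun f w u v h h' => ?_⟩
    · rw [coeff_monomial, coeff_monomial]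
      split_ifs
      exacts [h1 j, (map_zero _).symm]
    · simp only [← C_mul_X_pow_eq_monomial, map_mul, map_pow, aevalAeval_C, aevalAeval_Y]
      exact mul_mem (h2 f u h) (pow_mem h' i)

end Pool.Agent.GR.GE
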