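import Pool.Agent.Lib.MP_aa40d3_nt.CV.Stmt
import Pool.Agent.Lib.MP_a01f70_lc.QQ.Defs

/-! Definitions used in the statement: genus, expansions at a place, generic pointed curves. -/

open Polynomial
open scoped Polynomial.Bivariate IntermediateField

namespace Pool.Agent.GR.GE

open Pool.Agent.Lib.MP_a01f70_lc.QQ

variable {F : Type} [Field F] [Algebra ℂ F]

variable (F) in
/-- the dimension of the space of Kaehler differentials that are regular at all places -/
noncomputable def genus : ℕ :=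
  Module.finrank ℂ ↥(⨅ p : Place ℂ F, Submodule.span ℂ
    {ω : Ω[F⁄ℂ] | ∃ a b : F, p.Ge a 0 ∧ p.Ge b 0 ∧ ω = a • KaehlerDifferential.D ℂ F b})

/-- `φ` is an expansion in a local parameter at the place `p` -/
def At (φ : F →ₐ[ℂ] LaurentSeries ℂ) (p : Place ℂ F) : Prop := ∀ h, (φ h).order = p.ord h

/-- the curve has a plane model with coefficients in `K` and the points of `Σ` lie over points of
the projective line over `K` -/
def DefOver (Sg : Finset (Place ℂ F)) (K : IntermediateField ℚ ℂ) : Prop :=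
  ∃ (u v : F) (Q : ℂ[X][Y]), ℂ⟮u, v⟯ = ⊤ ∧ Q ≠ 0 ∧ (∀ i j, (Q.coeff i).coeff j ∈ K) ∧
    aevalAeval u v Q = 0 ∧
    ∀ p ∈ Sg, p.ord u < 0 ∨ ∃ c ∈ K, 0 < p.ord (u - algebraMap ℂ F c)

/-- every field of definition has transcendence degree at least `m` -/
def Moduli (Sg : Finset (Place ℂ F)) (m : ℕ) : Prop :=
  ∀ K, DefOver Sg K → (m : Cardinal) ≤ Algebra.trdeg ℚ K

end Pool.Agent.GR.GE
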