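import Pool.Agent.Lib.MP_aa40d3_nt.GE.DA
import Pool.Agent.Lib.MP_aa40d3_nt.CV.Sig

/-! Change of the coordinate: the new system and its local solutions. -/

set_option linter.unusedSectionVars false

open Polynomial Module
open scoped Polynomial.Bivariate IntermediateField

namespace Pool.Agent.GR.GE

open Pool.Agent.Lib.MP_a01f70_lc.QQ Pool.Agent.GR.CV

variable {F : Type} [Field F] [Algebra ℂ F]

variable {r : ℕ}

/-- `S'` is the system `S` written in the coordinates `f, w` -/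
structure Chg (S S' : Sys ℂ r) (x y f w : F) (E : Derivation ℤ F F) : Prop where
  m : Model x y S.P
  m' : Model f w S'.P
  D : S.D ≠ 0
  D' : S'.D ≠ 0
  ext : ∀ c : ℂ, E (algebraMap ℂ F c) = 0
  one : E f = 1
  eq : aeval x S.D • S'.A.map (aevalAeval f w) = (aeval f S'.D * E x) • S.A.map (aevalAeval x y)

theorem ta1_map {L : Type} [Field L] [Algebra ℂ L] (φ : F →ₐ[ℂ] L) (x y : F) (P : ℂ[X][Y]) :
    φ (aevalAeval x y P) = aevalAeval (φ x) (φ y) P := by
  induction P using Polynomial.induction_on' with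
  | add p q hp hq => rw [map_add, map_add, map_add, hp, hq]
  | monomial n a =>
    simp only [← C_mul_X_pow_eq_monomial, map_mul, map_pow, aevalAeval_C, aevalAeval_Y,
      aeval_algHom_apply]

theorem ta1_mat {L : Type} [Field L] {A A' G G' : Matrix (Fin r) (Fin r) L} {a b e u v : L}
    (ha : a ≠ 0) (h1 : a • G' = u • (A * G)) (h2 : v * e = u) (h4 : a • A' = (b * e) • A) :
    b • G' = v • (A' * G) := by
  refine smul_right_injective _ ha ?_
  beta_reduce
  rw [smul_comm, h1, smul_comm a, ← Matrix.smul_mul a, h4, Matrix.smul_mul (b * e), smul_smul,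
    smul_smul, mul_left_comm, h2]

variable [IsFF F]

theorem exists_chg (S : Sys ℂ r) {x y f w : F} {P' : ℂ[X][Y]} (h : Model x y S.P) (hD : S.D ≠ 0)
    (h' : Model f w P') : ∃ (S' : Sys ℂ r) (E : Derivation ℤ F F), S'.P = P' ∧
      Chg S S' x y f w E := by
  obtain ⟨E, hE, h1⟩ := exists_ext 0 h'.tr 1
  have h0 : aeval x S.D ≠ 0 := fun e => h.tr ⟨_, hD, e⟩
  choose c a hc ha using fun q : Fin r × Fin r =>
    h'.den (E x * aevalAeval x y (S.A q.1 q.2) / aeval x S.D)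
  refine ⟨⟨P', ∏ q, c q, Matrix.of fun i j => a (i, j) * C (∏ q ∈ Finset.univ.erase (i, j), c q)⟩,
    E, rfl, h, h', hD, Finset.prod_ne_zero_iff.2 fun q _ => (hc q).ne_zero,
    fun z => (hE z).trans (map_zero _), h1, Matrix.ext fun i j => ?_⟩
  simp only [Matrix.smul_apply, Matrix.map_apply, Matrix.of_apply, smul_eq_mul]
  rw [map_mul, aevalAeval_C, ← ha, ← Finset.mul_prod_erase _ c (Finset.mem_univ (i, j)), map_mul]
  field_simp

theorem Chg.loc {S S' : Sys ℂ r} {x y f w : F} {E : Derivation ℤ F F} (h : Chg S S' x y f w E)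
    (φ : F →ₐ[ℂ] LS') (hφ : S.Loc (φ x) (φ y)) : S'.Loc (φ f) (φ w) := by
  obtain ⟨-, G, hG, h1⟩ := hφ
  have hE : Ext E 0 := fun c => (h.ext c).trans (map_zero _).symm
  have h0 : ∀ a, cd 0 a = 0 := fun a => by
    ext k
    rfl
  have h2 := hE.loc φ h.m'.tr x
  rw [h0, h0, sub_zero, sub_zero, h.one, map_one, mul_one] at h2
  have h3 : aeval (φ x) S.D ≠ 0 := by
    rw [aeval_algHom_apply]
    exact (map_ne_zero φ).2 fun e => h.m.tr ⟨_, h.D, e⟩
  have h4 : aeval (φ x) S.D • S'.A.map (aevalAeval (φ f) (φ w)) =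
      (aeval (φ f) S'.D * φ (E x)) • S.A.map (aevalAeval (φ x) (φ y)) := Matrix.ext fun i j => by
    have h5 := congrArg φ (congrFun (congrFun h.eq i) j)
    simpa only [Matrix.smul_apply, Matrix.map_apply, smul_eq_mul, map_mul, ta1_map,
      ← aeval_algHom_apply] using h5
  exact ⟨by rw [← ta1_map, h.m'.root, map_zero], G, hG, ta1_mat h3 h1 h2 h4⟩

theorem ta2_ext {f w : F} {P : ℂ[X][Y]} (h : Model f w P) {φ ψ : F →ₐ[ℂ] LS'} (h1 : φ f = ψ f)
    (h2 : φ w = ψ w) : φ = ψ := by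
  ext1 u
  have hu : u ∈ ℂ⟮f, w⟯ := h.gen ▸ IntermediateField.mem_top
  induction hu using IntermediateField.adjoin_induction with
  | mem x hx => rcases hx with rfl | rfl <;> assumption
  | algebraMap c => rw [φ.commutes, ψ.commutes]
  | add x y _ _ a b => rw [map_add, map_add, a, b]
  | inv x _ a => rw [map_inv₀, map_inv₀, a]
  | mul x y _ _ a b => rw [map_mul, map_mul, a, b]

theorem ta2_xt {f : F} {c : ℂ} {e : ℕ} {φ : F →ₐ[ℂ] LS'} (h : φ (f - algebraMap ℂ F c) = sL ^ e) :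
    φ f = xt c e := by
  rw [xt, ← h, map_sub, φ.commutes, add_sub_cancel]

section
variable {S : Sys ℂ r} {f w : F} {Sg : Finset (Place ℂ F)} (h : Model f w S.P)
  (hL : ∀ p, p ∉ Sg → ∀ φ, At φ p → S.Loc (φ f) (φ w))
include h hL

theorem ta2_unr {x : LS'} {m : ℕ} {q : Fin m → Place ℂ F} (hq : Function.Injective q)
    (h1 : ∀ j, q j ∉ Sg) (h2 : ∀ j, ∃ φ, At φ (q j) ∧ φ f = x) : S.Unr x m := by
  choose φ a b using h2
  exact ⟨fun j => φ j w, fun i j e => hq (At.unique (ta2_ext h ((b i).trans (b j).symm) e ▸ a i)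
    (a j)), fun j => b j ▸ hL _ (h1 j) _ (a j)⟩

theorem unr_fin {c : ℂ} {m : ℕ} (hp : Pls Sg (f - algebraMap ℂ F c) 1 m) : S.Unr (xt c 1) m := by
  obtain ⟨q, hq, h1⟩ := hp
  exact ta2_unr h hL hq (fun j => (h1 j).1) fun j =>
    (exists_at _ (h1 j).2).imp fun _ a => ⟨a.1, ta2_xt (a.2.trans (pow_one _).symm)⟩

theorem unr_inf {m : ℕ} (hp : Pls Sg f (-1) m) : S.Unr sL⁻¹ m := by
  obtain ⟨q, hq, h1⟩ := hp
  exact ta2_unr h hL hq (fun j => (h1 j).1) fun j =>
    (exists_at (q j) (π := f⁻¹) (by rw [Place.ord_inv, (h1 j).2, neg_neg])).imp fun φ a =>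
      ⟨a.1, by rw [← a.2, map_inv₀, inv_inv]⟩

theorem loc_bra {c : ℂ} (hp : Pls Sg (f - algebraMap ℂ F c) 2 1) :
    ∃ y, S.Loc (xt c 2) y ∧ ∃ k, Odd k ∧ y.coeff k ≠ 0 := by
  obtain ⟨q, -, h1⟩ := hp
  obtain ⟨φ, a, b⟩ := exists_at_sq _ (h1 0).2
  have e := ta2_xt b
  refine ⟨φ w, e ▸ hL _ (h1 0).1 _ a, by_contra fun hn => ?_⟩
  have h2 : (⟨sgH, sg_alg⟩ : LS' →ₐ[ℂ] LS').comp φ = φ := by
    refine ta2_ext h (show sg (φ f) = _ by rw [e, sg_xt]) (show sg (φ w) = _ from ?_)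
    ext k
    rcases Int.even_or_odd k with hk | hk
    · rw [sg_coeff, hk.neg_one_zpow, one_mul]
    · rw [sg_coeff, not_not.1 fun h0 => hn ⟨k, hk, h0⟩, mul_zero]
  obtain ⟨π, h0, h3⟩ := (q 0).surj
  refine sg_ne odd_one ?_ (congrArg (fun t : F →ₐ[ℂ] LS' => t π) h2)
  rw [← h3, ← a]
  exact mt HahnSeries.coeff_order_eq_zero.1 ((map_ne_zero φ).2 h0)

end

end Pool.Agent.GR.GE
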