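import Pool.Agent.Lib.MP_aa40d3_nt.CV.Dx

/-! Rings of fractions inside a field, derivations of polynomials in two elements. -/

open Polynomial Matrix
open scoped Polynomial.Bivariate

namespace Pool.Agent.GR.GE

open Pool.Agent.GR.CV

/-- the fractions with denominators in `M`, and the homomorphisms defined on them -/
theorem tl_frac {A F : Type} [CommRing A] [Field F] (e : A →+* F) (M : Submonoid A)
    (hM : ∀ m ∈ M, e m ≠ 0) : ∃ T : Subring F, (∀ h, h ∈ T ↔ ∃ m ∈ M, ∃ a, e m * h = e a) ∧
      ∀ (B : Type) [CommRing B] (g : A →+* B), (∀ a, e a = 0 → g a = 0) →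
        (∀ m ∈ M, IsUnit (g m)) → ∃ ψ : T →+* B, ∀ (t : T) (a : A), (t : F) = e a → ψ t = g a := by
  have hu : ∀ m : M, IsUnit (e m) := fun m => (hM m m.2).isUnit
  let e' : Localization M →+* F := IsLocalization.lift hu
  have he : ∀ a, e' (algebraMap A _ a) = e a := fun a => IsLocalization.lift_eq hu a
  refine ⟨e'.range, fun h => ⟨?_, ?_⟩, fun B _ g hk hg => ?_⟩
  · rintro ⟨z, rfl⟩
    obtain ⟨⟨a, m⟩, hz⟩ := IsLocalization.surj M z
    exact ⟨m, m.2, a, by rw [← he, ← he, ← map_mul, mul_comm, hz]⟩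
  · rintro ⟨m, hm, a, h1⟩
    refine ⟨IsLocalization.mk' _ a ⟨m, hm⟩, mul_left_cancel₀ (hM m hm) ?_⟩
    rw [h1, ← he, ← map_mul, IsLocalization.mk'_spec' _ a ⟨m, hm⟩, he]
  · have hg' : ∀ m : M, IsUnit (g m) := fun m => hg m m.2
    let g' : Localization M →+* B := IsLocalization.lift hg'
    have hge : ∀ a, g' (algebraMap A _ a) = g a := fun a => IsLocalization.lift_eq hg' a
    have hker : RingHom.ker e'.rangeRestrict ≤ RingHom.ker g' := by
      intro z hz
      obtain ⟨⟨a, m⟩, h1⟩ := IsLocalization.surj M z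
      have h2 : e' z = 0 := congrArg Subtype.val (RingHom.mem_ker.1 hz)
      have h3 : g a = 0 := hk a (by rw [← he, ← h1, map_mul, h2, zero_mul])
      rw [← hge, ← h1, map_mul, hge] at h3
      exact (hg' m).mul_left_eq_zero.1 h3
    refine ⟨e'.rangeRestrict.liftOfSurjective e'.rangeRestrict_surjective ⟨g', hker⟩,
      fun t a ht => ?_⟩
    have h4 : t = e'.rangeRestrict (algebraMap A _ a) := Subtype.ext (ht.trans (he a).symm)
    rw [h4, RingHom.liftOfSurjective, RingHom.liftOfRightInverse_comp_apply, hge]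

section
variable {R F : Type} [CommRing R] [CommRing F]

/-- the chain rule -/
theorem tl_der (v : R[X][Y] →+* F) (E : Derivation ℤ F F) (h0 : ∀ c, E (v (C (C c))) = 0)
    (p : R[X][Y]) : E (v p) = v (dX p) * E (v (C X)) + v (derivative p) * E (v Y) := by
  have h1 : ∀ c : R[X], E (v (C c)) = v (C (derivative c)) * E (v (C X)) := by
    intro c
    induction c using Polynomial.induction_on with
    | C c => simp [h0]
    | add p q hp hq => simp only [map_add, hp, hq, add_mul]
    | monomial k c ih =>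
      rw [pow_succ, ← mul_assoc, C_mul, map_mul, Derivation.leibniz, ih, derivative_mul
        (f := C c * X ^ k)]
      simp only [derivative_X, map_add, map_mul, smul_eq_mul, map_one]
      ring
  induction p using Polynomial.induction_on with
  | C c => rw [h1, dX_C, derivative_C, map_zero, zero_mul, add_zero]
  | add p q hp hq =>
    simp only [map_add, dX_add, hp, hq]
    ring
  | monomial k c ih =>
    have e : C c * Y ^ (k + 1) = C c * Y ^ k * Y ^ 1 := by ring
    rw [e, map_mul, Derivation.leibniz, ih, dX_mul _ (Y ^ 1), dX_Y_pow,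
      derivative_mul (f := C c * Y ^ k)]
    simp only [pow_one, derivative_X, map_add, map_mul, map_zero, map_one, smul_eq_mul]
    ring

/-- the derivative along the curve -/
theorem tl_curve (v : R[X][Y] →+* F) (E : Derivation ℤ F F) (h0 : ∀ c, E (v (C (C c))) = 0)
    {P : R[X][Y]} (hP : v P = 0) (u : R[X][Y]) : v (derivative P) * E (v u) =
      E (v (C X)) * v (derivative P * dX u - dX P * derivative u) := by
  have h1 := tl_der v E h0 P
  rw [hP, map_zero] at h1
  rw [tl_der v E h0 u, map_sub, map_mul, map_mul]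
  linear_combination (-v (derivative u)) * h1

theorem tl_nab {r : ℕ} (S : Sys R r) (v : R[X][Y] →+* F) (E : Derivation ℤ F F)
    (h0 : ∀ c, E (v (C (C c))) = 0) (hP : v S.P = 0) (u : Fin r → R[X][Y]) (i : Fin r) :
    E (v (C X)) * v (S.nab u i) = v (derivative S.P) *
      (v (C S.D) * E (v (u i)) - E (v (C X)) * ∑ j, v (S.A i j) * v (u j)) := by
  have h1 := tl_curve v E h0 hP (u i)
  simp only [Sys.nab, Pi.sub_apply, Pi.smul_apply, smul_eq_mul, Matrix.mulVec, dotProduct]
  rw [map_sub, map_mul, map_mul, map_sum]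
  simp only [map_mul]
  linear_combination (-v (C S.D)) * h1

end

/-- a relation between two elements whose coefficients have no common zero -/
theorem tl_rel {F : Type} [Field F] [Algebra ℂ F] {x f : F} (hx : Transcendental ℂ x)
    {G : ℂ[X][Y]} (hG : G ≠ 0) (h : aevalAeval x f G = 0) :
    ∃ (H u : ℂ[X][Y]) (N : ℕ), aevalAeval x f H = 0 ∧ (u * H).coeff N = 1 := by
  classical
  refine ⟨G.primPart, ?_⟩
  have h1 : aevalAeval x f G.primPart = 0 := by
    rw [G.eq_C_content_mul_primPart, map_mul, aevalAeval_C] at h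
    exact (mul_eq_zero.1 h).resolve_left fun e =>
      hx ⟨_, fun e' => hG (content_eq_zero_iff.1 e'), e⟩
  have h2 : (1 : ℂ[X]) ∈ G.primPart.contentIdeal :=
    ((isPrimitive_iff_contentIdeal_eq_top _).1 G.isPrimitive_primPart).symm ▸ Submodule.mem_top
  have h3 : ∀ z ∈ G.primPart.contentIdeal, ∃ u : ℂ[X][Y],
      (u * G.primPart).coeff G.primPart.natDegree = z := by
    intro z hz
    induction hz using Submodule.span_induction with
    | mem z hz =>
      obtain ⟨n, hn, rfl⟩ := mem_coeffs_iff.1 hz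
      refine ⟨Y ^ (G.primPart.natDegree - n), ?_⟩
      rw [coeff_X_pow_mul', if_pos (Nat.sub_le _ _),
        Nat.sub_sub_self (le_natDegree_of_mem_supp n hn)]
    | zero => exact ⟨0, by simp⟩
    | add a b _ _ ha hb =>
      obtain ⟨u, rfl⟩ := ha
      obtain ⟨v, rfl⟩ := hb
      exact ⟨u + v, by rw [add_mul, coeff_add]⟩
    | smul c a _ ha =>
      obtain ⟨u, rfl⟩ := ha
      exact ⟨C c * u, by rw [mul_assoc, coeff_C_mul, smul_eq_mul]⟩
  obtain ⟨u, hu⟩ := h3 1 h2
  exact ⟨u, _, h1, hu⟩

end Pool.Agent.GR.GE
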