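import Pool.Agent.Lib.MP_aa40d3_nt.GE.TL

/-! The generic fibre of a plane curve over a field. -/

open Polynomial Matrix
open scoped Polynomial.Bivariate

namespace Pool.Agent.GR.GE

open Pool.Agent.GR.CV

variable {k : Type} [Field k]

/-- the ring `k(X)[Y] / P` -/
theorem tm_fibre {P : k[X][Y]} (hP : P.Monic) : ∃ (B : Type) (_ : CommRing B) (g : k[X][Y] →+* B),
    (∀ p, g p = 0 ↔ P ∣ p) ∧ (∀ c : k[X], c ≠ 0 → IsUnit (g (C c))) ∧
      ∀ b : B, ∃ c : k[X], c ≠ 0 ∧ ∃ a, g (C c) * b = g a := by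
  let K := FractionRing k[X]
  let μ : k[X] →+* K := algebraMap k[X] K
  have hμ : Function.Injective μ := IsFractionRing.injective k[X] K
  refine ⟨AdjoinRoot (P.map μ), inferInstance, (AdjoinRoot.mk _).comp (mapRingHom μ),
    fun p => ?_, fun c hc => ?_, fun b => ?_⟩
  · rw [RingHom.comp_apply, AdjoinRoot.mk_eq_zero, coe_mapRingHom, map_dvd_map μ hμ hP]
  · rw [RingHom.comp_apply, coe_mapRingHom, map_C]
    exact ((Ne.isUnit ((map_ne_zero_iff μ hμ).2 hc)).map C).map _
  · obtain ⟨p, rfl⟩ := AdjoinRoot.mk_surjective b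
    obtain ⟨c, hc, h⟩ := IsLocalization.integerNormalization_spec (nonZeroDivisors k[X]) p
    refine ⟨c, nonZeroDivisors.ne_zero hc,
      IsLocalization.integerNormalization (nonZeroDivisors k[X]) p, ?_⟩
    rw [RingHom.comp_apply, RingHom.comp_apply, coe_mapRingHom, map_C, h, ← map_mul,
      ← smul_eq_C_mul, algebraMap_smul]

/-- a nonzero polynomial in `x` is a unit: otherwise `x` is algebraic in a residue field in which
`f` is transcendental -/
theorem tm_unit {B : Type} [CommRing B] [Algebra k B] {x f : B}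
    (hf : ∀ c : k[X], c ≠ 0 → IsUnit (aeval f c)) {H u : k[X][Y]} {N : ℕ}
    (hu : (u * H).coeff N = 1) (h0 : aevalAeval x f H = 0) {c : k[X]} (hc : c ≠ 0) :
    IsUnit (aeval x c) := by
  by_contra hn
  obtain ⟨n, hn1, hn2⟩ := exists_max_ideal_of_mem_nonunits (mem_nonunits_iff.2 hn)
  let _ := Ideal.Quotient.field n
  let π : B →ₐ[k] B ⧸ n := Ideal.Quotient.mkₐ k n
  have hx : IsAlgebraic k (π x) :=
    ⟨c, hc, by rw [aeval_algHom_apply]; exact Ideal.Quotient.eq_zero_iff_mem.2 hn2⟩
  have ht : Transcendental k (π f) := by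
    rintro ⟨d, hd, h⟩
    rw [aeval_algHom_apply] at h
    exact ((hf d hd).map π).ne_zero h
  let x' : algebraicClosure k (B ⧸ n) := ⟨π x, mem_algebraicClosure_iff.2 hx⟩
  let α : k[X] →+* algebraicClosure k (B ⧸ n) := (aeval x').toRingHom
  have h1 : ∀ p : k[X][Y], aeval (π f) (p.map α) = π (aevalAeval x f p) := by
    intro p
    have e : (aeval (π f) : (algebraicClosure k (B ⧸ n))[X] →ₐ[_] B ⧸ n).toRingHom.comp
        (mapRingHom α) = π.toRingHom.comp (aevalAeval x f).toRingHom := by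
      ext
      · simp [α, π]
      · simp [α, x']
      · simp
    exact RingHom.congr_fun e p
  have h2 : H.map α = 0 := by
    by_contra h
    exact ht (IsAlgebraic.restrictScalars k ⟨_, h, by rw [h1, h0, map_zero]⟩)
  have h3 := congrArg α hu
  rw [← coeff_map, Polynomial.map_mul, h2, mul_zero, coeff_zero, map_one] at h3
  exact zero_ne_one h3

end Pool.Agent.GR.GE
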